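import Mathlib
import Pool.Agent.H951R3.PB.F9
import Pool.Agent.H951R3.PB.F10
import Pool.Agent.H951R3.PB.Lang

/-! The Lattès maps of the Legendre curves: local facts. -/

set_option autoImplicit false

open Finset MvPolynomial Pool.Agent.H951R3.PB

namespace TH951.LS

universe u

/-- multiplication by two on `y² = x (x - 1) (x - λ)` -/
noncomputable def leg {L : Type u} [Field L] (l : L) : Fin 2 → MvPolynomial (Fin 2) L :=
  ![(X 0 ^ 2 - C l * X 1 ^ 2) ^ 2, 4 * X 0 * X 1 * (X 0 - X 1) * (X 0 - C l * X 1)]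

section

variable {L : Type u} [Field L]

theorem leg_hom (l : L) : ∀ i, (leg l i).IsHomogeneous 4 := by
  have hX : ∀ i : Fin 2, (X i : MvPolynomial (Fin 2) L).IsHomogeneous 1 := fun i =>
    isHomogeneous_X L i
  have hC : (C l : MvPolynomial (Fin 2) L).IsHomogeneous 0 := isHomogeneous_C _ _
  have h4 : (4 : MvPolynomial (Fin 2) L).IsHomogeneous 0 := by
    have h : (4 : MvPolynomial (Fin 2) L) = C 4 := (map_ofNat C 4).symm
    rw [h]; exact isHomogeneous_C _ _
  intro i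
  fin_cases i
  · exact (((hX 0).pow 2).sub (by simpa using hC.mul ((hX 1).pow 2))).pow 2
  · exact (((h4.mul (hX 0)).mul (hX 1)).mul ((hX 0).sub (hX 1))).mul
      ((hX 0).sub (by simpa using hC.mul (hX 1)))

theorem ev_leg (l : L) (x : Fin 2 → L) : ev (leg l) x =
    ![(x 0 ^ 2 - l * x 1 ^ 2) ^ 2, 4 * x 0 * x 1 * (x 0 - x 1) * (x 0 - l * x 1)] := by
  funext i
  fin_cases i <;> simp [ev, leg]

theorem fL_leg {K : Type u} [Field K] (l : K) :
    fL K (leg l) = leg (algebraMap K (AlgebraicClosure K) l) := by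
  funext i
  fin_cases i <;> simp [fL, leg]

theorem bez1 (l a b : L) : b * (-3 * a ^ 2 + 2 * (1 + l) * a * b + (1 - l) ^ 2 * b ^ 2) *
    (a ^ 2 - l * b ^ 2) ^ 2 + (3 * a ^ 3 + (1 + l) * a ^ 2 * b - 5 * l * a * b ^ 2 -
    2 * l * (1 + l) * b ^ 3) * (a * b * (a - b) * (a - l * b)) = l ^ 2 * (1 - l) ^ 2 * b ^ 7 := by
  ring

theorem bez2 (l a b : L) : a * (-3 * l ^ 2 * b ^ 2 + 2 * (1 + l) * l * a * b +
    (1 - l) ^ 2 * a ^ 2) * (a ^ 2 - l * b ^ 2) ^ 2 + (3 * l ^ 3 * b ^ 3 +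
    (1 + l) * l ^ 2 * b ^ 2 * a - 5 * l ^ 2 * b * a ^ 2 - 2 * l * (1 + l) * a ^ 3) *
    (a * b * (a - b) * (a - l * b)) = (1 - l) ^ 2 * a ^ 7 := by
  ring

theorem leg_noZero [CharZero L] {l : L} (h0 : l ≠ 0) (h1 : l ≠ 1) (x : Fin 2 → L)
    (hx : ev (leg l) x = 0) : x = 0 := by
  rw [ev_leg] at hx
  have e0 : (x 0 ^ 2 - l * x 1 ^ 2) ^ 2 = 0 := by simpa using congrFun hx 0
  have e1 : 4 * x 0 * x 1 * (x 0 - x 1) * (x 0 - l * x 1) = 0 := by
    have := congrFun hx 1
    simpa only [Matrix.cons_val_one, Matrix.cons_val_fin_one, Pi.zero_apply] using this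
  have e2 : x 0 * x 1 * (x 0 - x 1) * (x 0 - l * x 1) = 0 := by
    have h4 : (4 : L) ≠ 0 := by norm_num
    apply (mul_eq_zero.1 (show (4 : L) * (x 0 * x 1 * (x 0 - x 1) * (x 0 - l * x 1)) = 0 by
      rw [← e1]; ring)).resolve_left h4
  have h2 : 1 - l ≠ 0 := sub_ne_zero.2 (Ne.symm h1)
  have b1 := bez1 l (x 0) (x 1)
  have b2 := bez2 l (x 0) (x 1)
  rw [e0, e2, mul_zero, mul_zero, add_zero] at b1 b2
  have c1 : x 1 = 0 := by
    have := b1.symm
    simp only [mul_eq_zero, pow_eq_zero_iff, ne_eq, OfNat.ofNat_ne_zero, not_false_eq_true, h0, h2,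
      false_or] at this
    exact this
  have c0 : x 0 = 0 := by
    have := b2.symm
    simp only [mul_eq_zero, pow_eq_zero_iff, ne_eq, OfNat.ofNat_ne_zero, not_false_eq_true, h2,
      false_or] at this
    exact this
  funext i
  fin_cases i
  · exact c0
  · exact c1

end

theorem leg_rs {K : Type u} [Field K] [CharZero K] {l : K} (h0 : l ≠ 0) (h1 : l ≠ 1) :
    rs (leg l) 4 ≠ 0 := by
  have hi : Function.Injective (algebraMap K (AlgebraicClosure K)) :=
    (algebraMap K (AlgebraicClosure K)).injective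
  haveI : CharZero (AlgebraicClosure K) := charZero_of_injective_algebraMap hi
  refine rs_ne_of_noZero (by norm_num) (leg_hom l) fun x hx => ?_
  refine leg_noZero (l := algebraMap K (AlgebraicClosure K) l) (by simpa using h0)
    (by rw [Ne, ← map_one (algebraMap K (AlgebraicClosure K)), hi.eq_iff]; exact h1) x ?_
  rw [← fL_leg]
  funext i
  have h2 := hx i
  rw [MvPolynomial.aeval_def] at h2
  simp only [ev, fL, MvPolynomial.eval_map, Pi.zero_apply]
  exact h2

/-! ### nonarchimedean absolute values -/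

section na

variable {L : Type u} [Field L] (w : AbsoluteValue L ℝ)

/-- `log⁺ |λ| + log⁺ |1/λ| + log⁺ |1/(1-λ)|` -/
noncomputable def ell (l : L) : ℝ :=
  max (Real.log (w l)) 0 + max (-Real.log (w l)) 0 + max (-Real.log (w (1 - l))) 0

theorem na_nat (hw : IsNonarchimedean w) (n : ℕ) : w (n : L) ≤ 1 := by
  induction n with
  | zero => simp
  | succ n ih =>
    push_cast
    exact (hw _ _).trans (max_le ih (by simp))

variable {w}

/-- lower bound for the resultant -/
theorem res_ge {F : (Fin 2 → L) → Fin 2 → L} {r m : ℝ} (hm : 0 < m)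
    (hF : Fib w F 4 r) (hlow : ∀ x, nrm w x = 1 → m ≤ nrm w (F x))
    (h10 : F ![1, 0] = ![1, 0]) : 4 * Real.log m ≤ r := by
  obtain ⟨C, z, hz⟩ := hF ![0, 1] (by simp [nrm])
  have h1 := hz.fac ![1, 0]
  rw [h10] at h1
  have h2 : wd (![0, 1] : Fin 2 → L) ![1, 0] = -1 := by simp [wd]
  rw [h2] at h1
  have h3 : w C * ∏ j, w (wd ![1, 0] (z j)) = 1 := by
    rw [← map_prod, ← map_mul, ← h1, AbsoluteValue.map_neg, map_one]
  have h4 : ∏ j, w (wd ![1, 0] (z j)) ≤ 1 := by
    refine Finset.prod_le_one (fun _ _ => w.nonneg _) fun j _ => ?_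
    have h5 : wd ![1, 0] (z j) = z j 1 := by simp [wd]
    rw [h5, ← hz.unit j]
    exact le_max_right _ _
  have h5 : 1 ≤ w C := by
    by_contra h
    push Not at h
    have h6 : 0 ≤ ∏ j, w (wd ![1, 0] (z j)) := Finset.prod_nonneg fun _ _ => w.nonneg _
    nlinarith [w.nonneg C]
  have h6 : ∀ j, Real.log m ≤ Real.log (nrm w (F (z j))) := fun j =>
    Real.log_le_log hm (hlow _ (hz.unit j))
  have h7 := Finset.sum_le_sum fun j (_ : j ∈ (univ : Finset (Fin 4))) => h6 j
  rw [Finset.sum_const, Finset.card_univ, Fintype.card_fin, nsmul_eq_mul] at h7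
  have h8 := hz.res
  have h9 : 0 ≤ Real.log (w C) := Real.log_nonneg h5
  push_cast at h7 h8
  linarith

end na

end TH951.LS
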