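import Mathlib
import Pool.Agent.TH951.LS.Leg

/-! Duplication on Weierstrass curves and the Lattès maps of the Legendre curves. -/

set_option autoImplicit false

open Finset Pool.Agent.H951R3.PB

namespace TH951.LS

universe u

section dup

variable {K : Type u} [Field K]

/-- duplication on `x`-coordinates -/
def dW (W : WeierstrassCurve K) (v : Fin 2 → K) : Fin 2 → K :=
  ![v 0 ^ 4 - W.b₄ * v 0 ^ 2 * v 1 ^ 2 - 2 * W.b₆ * v 0 * v 1 ^ 3 - W.b₈ * v 1 ^ 4,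
    4 * v 0 ^ 3 * v 1 + W.b₂ * v 0 ^ 2 * v 1 ^ 2 + 2 * W.b₄ * v 0 * v 1 ^ 3 + W.b₆ * v 1 ^ 4]

theorem dup_num (W : WeierstrassCurve K) {x y : K}
    (h : y ^ 2 + W.a₁ * x * y + W.a₃ * y = x ^ 3 + W.a₂ * x ^ 2 + W.a₄ * x + W.a₆) :
    (3 * x ^ 2 + 2 * W.a₂ * x + W.a₄ - W.a₁ * y) ^ 2 +
      W.a₁ * (3 * x ^ 2 + 2 * W.a₂ * x + W.a₄ - W.a₁ * y) * (2 * y + W.a₁ * x + W.a₃) -
      (W.a₂ + 2 * x) * (2 * y + W.a₁ * x + W.a₃) ^ 2 =
      x ^ 4 - W.b₄ * x ^ 2 - 2 * W.b₆ * x - W.b₈ := by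
  unfold WeierstrassCurve.b₄ WeierstrassCurve.b₆ WeierstrassCurve.b₈
  linear_combination (-(8 * x + (W.a₁ ^ 2 + 4 * W.a₂))) * h

theorem dup_den (W : WeierstrassCurve K) {x y : K}
    (h : y ^ 2 + W.a₁ * x * y + W.a₃ * y = x ^ 3 + W.a₂ * x ^ 2 + W.a₄ * x + W.a₆) :
    (2 * y + W.a₁ * x + W.a₃) ^ 2 = 4 * x ^ 3 + W.b₂ * x ^ 2 + 2 * W.b₄ * x + W.b₆ := by
  unfold WeierstrassCurve.b₄ WeierstrassCurve.b₆ WeierstrassCurve.b₂
  linear_combination 4 * h

theorem dup_aux (n m a₁ a₂ x : K) (hm : m ≠ 0) : n ^ 2 + a₁ * n * m - (a₂ + 2 * x) * m ^ 2 =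
    m ^ 2 * ((n / m) ^ 2 + a₁ * (n / m) - a₂ - x - x) := by
  field_simp
  ring

theorem dup [DecidableEq K] (W : WeierstrassCurve K) (P : W.toAffine.Point) :
    ∃ c : K, c ≠ 0 ∧ dW W P.xRep = c • (2 • P).xRep := by
  rw [two_nsmul]
  rcases P with _ | ⟨x, y, hP⟩
  · refine ⟨1, one_ne_zero, ?_⟩
    have h0 : (WeierstrassCurve.Affine.Point.zero : W.toAffine.Point) = 0 := rfl
    rw [h0, add_zero, WeierstrassCurve.Affine.Point.xRep_zero]
    funext i; fin_cases i <;> simp [dW]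
  · have heq := (WeierstrassCurve.Affine.equation_iff x y).1 hP.1
    have hns := ((WeierstrassCurve.Affine.nonsingular_iff' x y).1 hP).2
    have hn := dup_num W heq
    have hd := dup_den W heq
    have hdW : dW W ![x, 1] = ![x ^ 4 - W.b₄ * x ^ 2 - 2 * W.b₆ * x - W.b₈,
        4 * x ^ 3 + W.b₂ * x ^ 2 + 2 * W.b₄ * x + W.b₆] := by
      funext i; fin_cases i <;> simp [dW]
    by_cases hy : y = W.toAffine.negY x y
    · rw [WeierstrassCurve.Affine.Point.add_self_of_Y_eq hy,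
        WeierstrassCurve.Affine.Point.xRep_zero, WeierstrassCurve.Affine.Point.xRep_some, hdW]
      have hm : 2 * y + W.a₁ * x + W.a₃ = 0 := by
        rw [WeierstrassCurve.Affine.negY] at hy
        linear_combination hy
      have hns' := hns.resolve_right fun h => h hm
      rw [hm] at hn hd
      refine ⟨(3 * x ^ 2 + 2 * W.a₂ * x + W.a₄ - W.a₁ * y) ^ 2, pow_ne_zero 2 ?_, ?_⟩
      · intro h
        apply hns'
        linear_combination -h
      · funext i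
        fin_cases i
        · simp only [Fin.zero_eta, Matrix.cons_val_zero, Pi.smul_apply, smul_eq_mul, mul_one]
          rw [← hn]; ring
        · simp only [Fin.mk_one, Matrix.cons_val_one, Matrix.cons_val_fin_one, Pi.smul_apply,
            smul_eq_mul, mul_zero]
          rw [← hd]; ring
    · rw [WeierstrassCurve.Affine.Point.add_self_of_Y_ne hy,
        WeierstrassCurve.Affine.Point.xRep_some, WeierstrassCurve.Affine.Point.xRep_some, hdW]
      have hm : 2 * y + W.a₁ * x + W.a₃ ≠ 0 := by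
        intro h
        apply hy
        rw [WeierstrassCurve.Affine.negY]
        linear_combination h
      refine ⟨(2 * y + W.a₁ * x + W.a₃) ^ 2, pow_ne_zero 2 hm, ?_⟩
      rw [WeierstrassCurve.Affine.slope_of_Y_ne rfl hy, WeierstrassCurve.Affine.addX,
        WeierstrassCurve.Affine.negY]
      have hm' : y - (-y - W.a₁ * x - W.a₃) = 2 * y + W.a₁ * x + W.a₃ := by ring
      rw [hm']
      funext i
      fin_cases i
      · simp only [Fin.zero_eta, Matrix.cons_val_zero, Pi.smul_apply, smul_eq_mul]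
        rw [← hn]
        exact dup_aux _ _ _ _ _ hm
      · simp only [Fin.mk_one, Matrix.cons_val_one, Matrix.cons_val_fin_one, Pi.smul_apply,
          smul_eq_mul, mul_one]
        rw [← hd]

theorem wd_xRep (W : WeierstrassCurve K) {P Q : W.toAffine.Point} (h : P.xRep ≠ Q.xRep) :
    wd P.xRep Q.xRep ≠ 0 := by
  have h0 : (WeierstrassCurve.Affine.Point.zero : W.toAffine.Point) = 0 := rfl
  rcases P with _ | ⟨x, y, hP⟩ <;> rcases Q with _ | ⟨x', y', hQ⟩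
  · exact (h rfl).elim
  · rw [h0, WeierstrassCurve.Affine.Point.xRep_zero, WeierstrassCurve.Affine.Point.xRep_some]
    simp [wd]
  · rw [h0, WeierstrassCurve.Affine.Point.xRep_zero, WeierstrassCurve.Affine.Point.xRep_some]
    simp [wd]
  · rw [WeierstrassCurve.Affine.Point.xRep_some, WeierstrassCurve.Affine.Point.xRep_some] at h ⊢
    simp only [wd, Matrix.cons_val_zero, Matrix.cons_val_one, Matrix.cons_val_fin_one, mul_one,
      one_mul]
    intro h1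
    apply h
    rw [sub_eq_zero.1 h1]

end dup

section conj

variable {L : Type u} [Field L]

/-- coordinates with `e₁ ↦ 0`, `e₂ ↦ 1` -/
def Psi (e₁ e₂ : L) (v : Fin 2 → L) : Fin 2 → L := ![(v 0 - e₁ * v 1) / (e₂ - e₁), v 1]

theorem Psi_smul (e₁ e₂ c : L) (v : Fin 2 → L) : Psi e₁ e₂ (c • v) = c • Psi e₁ e₂ v := by
  funext i
  fin_cases i
  · simp only [Psi, Fin.zero_eta, Matrix.cons_val_zero, Pi.smul_apply, smul_eq_mul]
    ring
  · simp [Psi]

theorem leg_smul (l c : L) (v : Fin 2 → L) : ev (leg l) (c • v) = c ^ 4 • ev (leg l) v := by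
  rw [ev_leg, ev_leg]
  funext i
  fin_cases i
  · simp; ring
  · simp; ring

/-- `b`-invariants in terms of the roots -/
structure Roots (b2 b4 b6 b8 e₁ e₂ e₃ : L) : Prop where
  h2 : b2 = -4 * (e₁ + e₂ + e₃)
  h4 : b4 = 2 * (e₁ * e₂ + e₁ * e₃ + e₂ * e₃)
  h6 : b6 = -4 * (e₁ * e₂ * e₃)
  h8 : 4 * b8 = b2 * b6 - b4 ^ 2
  n12 : e₁ ≠ e₂
  n13 : e₁ ≠ e₃
  n23 : e₂ ≠ e₃

theorem Roots.b8 [CharZero L] {b2 b4 b6 b8 e₁ e₂ e₃ : L} (h : Roots b2 b4 b6 b8 e₁ e₂ e₃) :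
    b8 = 4 * (e₁ * e₂ * e₃) * (e₁ + e₂ + e₃) - (e₁ * e₂ + e₁ * e₃ + e₂ * e₃) ^ 2 := by
  have h4 : (4 : L) ≠ 0 := by norm_num
  apply mul_left_cancel₀ h4
  rw [h.h8, h.h2, h.h4, h.h6]
  ring

theorem leg_Psi [CharZero L] {b2 b4 b6 b8 e₁ e₂ e₃ : L} (h : Roots b2 b4 b6 b8 e₁ e₂ e₃)
    (v : Fin 2 → L) :
    Psi e₁ e₂ ![v 0 ^ 4 - b4 * v 0 ^ 2 * v 1 ^ 2 - 2 * b6 * v 0 * v 1 ^ 3 - b8 * v 1 ^ 4,
      4 * v 0 ^ 3 * v 1 + b2 * v 0 ^ 2 * v 1 ^ 2 + 2 * b4 * v 0 * v 1 ^ 3 + b6 * v 1 ^ 4] =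
    (e₂ - e₁) ^ 3 • ev (leg ((e₃ - e₁) / (e₂ - e₁))) (Psi e₁ e₂ v) := by
  have hne : e₂ - e₁ ≠ 0 := sub_ne_zero.2 (Ne.symm h.n12)
  rw [ev_leg, h.b8, h.h2, h.h4, h.h6]
  funext i
  fin_cases i
  · simp only [Psi, Fin.zero_eta, Matrix.cons_val_zero, Matrix.cons_val_one,
      Matrix.cons_val_fin_one, Pi.smul_apply, smul_eq_mul]
    field_simp
    ring
  · simp only [Psi, Fin.mk_one, Matrix.cons_val_zero, Matrix.cons_val_one,
      Matrix.cons_val_fin_one, Pi.smul_apply, smul_eq_mul]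
    field_simp
    ring

theorem wd_Psi (e₁ e₂ : L) (x y : Fin 2 → L) :
    wd (Psi e₁ e₂ x) (Psi e₁ e₂ y) = wd x y / (e₂ - e₁) := by
  simp only [wd, Psi, Matrix.cons_val_zero, Matrix.cons_val_one, Matrix.cons_val_fin_one]
  ring

end conj

end TH951.LS
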