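import Mathlib
import Pool.Agent.TH951.LS.Leg
import Pool.Agent.TH951.FE.Core

/-! The Lattès maps of the Legendre curves: sizes at the odd finite places. -/

set_option autoImplicit false

open Finset MvPolynomial Pool.Agent.H951R3.PB

namespace TH951.LS

universe u

section na

variable {L : Type u} [Field L] (w : AbsoluteValue L ℝ)

/-- `|x| ≤ ρ ^ k` -/
def Bd (ρ : ℝ) (k : ℕ) (x : L) : Prop := w x ≤ ρ ^ k

variable {w} {ρ : ℝ}

theorem Bd.add (hw : IsNonarchimedean w) {k : ℕ} {x y : L} (hx : Bd w ρ k x) (hy : Bd w ρ k y) :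
    Bd w ρ k (x + y) := (hw _ _).trans (max_le hx hy)

theorem Bd.neg {k : ℕ} {x : L} (hx : Bd w ρ k x) : Bd w ρ k (-x) := by
  unfold Bd; rw [AbsoluteValue.map_neg]; exact hx

theorem Bd.sub (hw : IsNonarchimedean w) {k : ℕ} {x y : L} (hx : Bd w ρ k x) (hy : Bd w ρ k y) :
    Bd w ρ k (x - y) := by rw [sub_eq_add_neg]; exact hx.add hw hy.neg

theorem Bd.mul (hρ : 1 ≤ ρ) {k k' : ℕ} {x y : L} (hx : Bd w ρ k x) (hy : Bd w ρ k' y) :
    Bd w ρ (k + k') (x * y) := by
  unfold Bd
  rw [map_mul, pow_add]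
  exact mul_le_mul hx hy (w.nonneg _) (by positivity)

theorem Bd.up (hρ : 1 ≤ ρ) {k k' : ℕ} {x : L} (hx : Bd w ρ k x) (h : k ≤ k') : Bd w ρ k' x :=
  le_trans hx (pow_le_pow_right₀ hρ h)

theorem bd_nat (hw : IsNonarchimedean w) (n : ℕ) : Bd w ρ 0 (n : L) := by
  unfold Bd; rw [pow_zero]; exact na_nat w hw n

variable {l : L}

theorem leg_bounds (hw : IsNonarchimedean w) (h2 : w 2 = 1) {x : Fin 2 → L} (hx : nrm w x = 1)
    (hρ : ρ = max 1 (w l)) :
    nrm w (ev (leg l) x) ≤ ρ ^ 2 ∧
    w l ^ 2 * w (1 - l) ^ 2 * w (x 1) ^ 7 ≤ ρ ^ 2 * nrm w (ev (leg l) x) ∧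
    w (1 - l) ^ 2 * w (x 0) ^ 7 ≤ ρ ^ 3 * nrm w (ev (leg l) x) := by
  have hρ1 : 1 ≤ ρ := hρ ▸ le_max_left _ _
  have ba : Bd w ρ 0 (x 0) := by
    unfold Bd; rw [pow_zero, ← hx]; exact le_max_left _ _
  have bb : Bd w ρ 0 (x 1) := by
    unfold Bd; rw [pow_zero, ← hx]; exact le_max_right _ _
  have bl : Bd w ρ 1 l := by
    unfold Bd; rw [pow_one, hρ]; exact le_max_right _ _
  have b1 : Bd w ρ 0 (1 : L) := by unfold Bd; simp
  have b2 : Bd w ρ 0 (2 : L) := by simpa using bd_nat hw 2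
  have b3 : Bd w ρ 0 (3 : L) := by simpa using bd_nat hw 3
  have b4 : Bd w ρ 0 (4 : L) := by simpa using bd_nat hw 4
  have b5 : Bd w ρ 0 (5 : L) := by simpa using bd_nat hw 5
  set a := x 0 with ha
  set b := x 1 with hb
  have h4 : w (4 : L) = 1 := by
    have : (4 : L) = 2 * 2 := by norm_num
    rw [this, map_mul, h2, one_mul]
  have e0 : ev (leg l) x 0 = (a ^ 2 - l * b ^ 2) ^ 2 := by rw [ev_leg]; rfl
  have e1 : ev (leg l) x 1 = 4 * a * b * (a - b) * (a - l * b) := by rw [ev_leg]; rfl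
  set N := nrm w (ev (leg l) x) with hN
  have n0 : w ((a ^ 2 - l * b ^ 2) ^ 2) ≤ N := by rw [← e0]; exact le_max_left _ _
  have n1 : w (a * b * (a - b) * (a - l * b)) ≤ N := by
    have h' : w (ev (leg l) x 1) = w (a * b * (a - b) * (a - l * b)) := by
      rw [e1, show (4 : L) * a * b * (a - b) * (a - l * b) = 4 * (a * b * (a - b) * (a - l * b)) by
        ring, map_mul, h4, one_mul]
    rw [← h']
    exact le_max_right _ _
  have hN0 : 0 ≤ N := (w.nonneg _).trans n0
  -- the linear factors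
  have bal : Bd w ρ 1 (a - l * b) := (ba.up hρ1 (by omega)).sub hw (bl.mul hρ1 bb)
  have bab : Bd w ρ 0 (a - b) := ba.sub hw bb
  have b1l : Bd w ρ 1 (1 - l) := (b1.up hρ1 (by omega)).sub hw bl
  have b1l' : Bd w ρ 1 (1 + l) := (b1.up hρ1 (by omega)).add hw bl
  have baa : Bd w ρ 0 (a * a) := ba.mul hρ1 ba
  have bbb : Bd w ρ 0 (b * b) := bb.mul hρ1 bb
  have bab' : Bd w ρ 0 (a * b) := ba.mul hρ1 bb
  refine ⟨?_, ?_, ?_⟩
  · rw [hN]
    refine max_le ?_ ?_
    · rw [e0]
      have h : Bd w ρ 1 (a ^ 2 - l * b ^ 2) := by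
        rw [pow_two, pow_two]
        exact (baa.up hρ1 (by omega)).sub hw (bl.mul hρ1 bbb)
      rw [pow_two (a ^ 2 - l * b ^ 2)]
      exact h.mul hρ1 h
    · rw [e1]
      have h : Bd w ρ 1 (4 * a * b * (a - b) * (a - l * b)) :=
        (((b4.mul hρ1 ba).mul hρ1 bb).mul hρ1 bab).mul hρ1 bal
      exact h.up hρ1 (by omega)
  · have hb1 := bez1 l a b
    have hA : Bd w ρ 2 (b * (-3 * a ^ 2 + 2 * (1 + l) * a * b + (1 - l) ^ 2 * b ^ 2)) := by
      have t1 : Bd w ρ 2 (-3 * a ^ 2) := by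
        rw [pow_two]
        exact (b3.neg.mul hρ1 baa).up hρ1 (by omega)
      have t2 : Bd w ρ 2 (2 * (1 + l) * a * b) :=
        (((b2.mul hρ1 b1l').mul hρ1 ba).mul hρ1 bb).up hρ1 (by omega)
      have t3 : Bd w ρ 2 ((1 - l) ^ 2 * b ^ 2) := by
        rw [pow_two, pow_two]
        exact (b1l.mul hρ1 b1l).mul hρ1 bbb
      have := bb.mul hρ1 ((t1.add hw t2).add hw t3)
      simpa using this
    have hB : Bd w ρ 2 (3 * a ^ 3 + (1 + l) * a ^ 2 * b - 5 * l * a * b ^ 2 -
        2 * l * (1 + l) * b ^ 3) := by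
      have t1 : Bd w ρ 2 (3 * a ^ 3) := by
        rw [show 3 * a ^ 3 = 3 * (a * a) * a by ring]
        exact ((b3.mul hρ1 baa).mul hρ1 ba).up hρ1 (by omega)
      have t2 : Bd w ρ 2 ((1 + l) * a ^ 2 * b) := by
        rw [pow_two]
        exact ((b1l'.mul hρ1 baa).mul hρ1 bb).up hρ1 (by omega)
      have t3 : Bd w ρ 2 (5 * l * a * b ^ 2) := by
        rw [pow_two]
        exact (((b5.mul hρ1 bl).mul hρ1 ba).mul hρ1 bbb).up hρ1 (by omega)
      have t4 : Bd w ρ 2 (2 * l * (1 + l) * b ^ 3) := by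
        rw [show 2 * l * (1 + l) * b ^ 3 = 2 * l * (1 + l) * (b * b) * b by ring]
        exact ((((b2.mul hρ1 bl).mul hρ1 b1l').mul hρ1 bbb).mul hρ1 bb).up hρ1 (by omega)
      exact ((t1.add hw t2).sub hw t3).sub hw t4
    have h := congrArg w hb1
    rw [map_mul w (l ^ 2 * (1 - l) ^ 2), map_mul w (l ^ 2), map_pow, map_pow, map_pow] at h
    rw [← h]
    refine (hw _ _).trans (max_le ?_ ?_)
    · rw [map_mul w (b * _)]
      exact mul_le_mul hA n0 (w.nonneg _) (by positivity)
    · rw [map_mul w (3 * a ^ 3 + (1 + l) * a ^ 2 * b - 5 * l * a * b ^ 2 -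
        2 * l * (1 + l) * b ^ 3)]
      exact mul_le_mul hB n1 (w.nonneg _) (by positivity)
  · have hb1 := bez2 l a b
    have hA : Bd w ρ 3 (a * (-3 * l ^ 2 * b ^ 2 + 2 * (1 + l) * l * a * b +
        (1 - l) ^ 2 * a ^ 2)) := by
      have t1 : Bd w ρ 3 (-3 * l ^ 2 * b ^ 2) := by
        rw [pow_two, pow_two]
        exact ((b3.neg.mul hρ1 (bl.mul hρ1 bl)).mul hρ1 bbb).up hρ1 (by omega)
      have t2 : Bd w ρ 3 (2 * (1 + l) * l * a * b) :=
        ((((b2.mul hρ1 b1l').mul hρ1 bl).mul hρ1 ba).mul hρ1 bb).up hρ1 (by omega)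
      have t3 : Bd w ρ 3 ((1 - l) ^ 2 * a ^ 2) := by
        rw [pow_two, pow_two]
        exact ((b1l.mul hρ1 b1l).mul hρ1 baa).up hρ1 (by omega)
      have := ba.mul hρ1 ((t1.add hw t2).add hw t3)
      simpa using this
    have hB : Bd w ρ 3 (3 * l ^ 3 * b ^ 3 + (1 + l) * l ^ 2 * b ^ 2 * a -
        5 * l ^ 2 * b * a ^ 2 - 2 * l * (1 + l) * a ^ 3) := by
      have t1 : Bd w ρ 3 (3 * l ^ 3 * b ^ 3) := by
        rw [show 3 * l ^ 3 * b ^ 3 = 3 * (l * l * l) * (b * b * b) by ring]
        exact ((b3.mul hρ1 ((bl.mul hρ1 bl).mul hρ1 bl)).mul hρ1 (bbb.mul hρ1 bb)).up hρ1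
          (by omega)
      have t2 : Bd w ρ 3 ((1 + l) * l ^ 2 * b ^ 2 * a) := by
        rw [pow_two, pow_two]
        exact (((b1l'.mul hρ1 (bl.mul hρ1 bl)).mul hρ1 bbb).mul hρ1 ba).up hρ1 (by omega)
      have t3 : Bd w ρ 3 (5 * l ^ 2 * b * a ^ 2) := by
        rw [pow_two, pow_two]
        exact (((b5.mul hρ1 (bl.mul hρ1 bl)).mul hρ1 bb).mul hρ1 baa).up hρ1 (by omega)
      have t4 : Bd w ρ 3 (2 * l * (1 + l) * a ^ 3) := by
        rw [show 2 * l * (1 + l) * a ^ 3 = 2 * l * (1 + l) * (a * a) * a by ring]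
        exact ((((b2.mul hρ1 bl).mul hρ1 b1l').mul hρ1 baa).mul hρ1 ba).up hρ1 (by omega)
      exact ((t1.add hw t2).sub hw t3).sub hw t4
    have h := congrArg w hb1
    rw [map_mul w ((1 - l) ^ 2), map_pow, map_pow] at h
    rw [← h]
    refine (hw _ _).trans (max_le ?_ ?_)
    · rw [map_mul w (a * _)]
      exact mul_le_mul hA n0 (w.nonneg _) (by positivity)
    · rw [map_mul w (3 * l ^ 3 * b ^ 3 + (1 + l) * l ^ 2 * b ^ 2 * a -
        5 * l ^ 2 * b * a ^ 2 - 2 * l * (1 + l) * a ^ 3)]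
      exact mul_le_mul hB n1 (w.nonneg _) (by positivity)

theorem ell_nonneg : 0 ≤ ell w l := by unfold ell; positivity

theorem log_max_one {a : ℝ} (ha : 0 < a) : Real.log (max 1 a) = max (Real.log a) 0 := by
  rcases le_total 1 a with h | h
  · rw [max_eq_right h, max_eq_left (Real.log_nonneg h)]
  · rw [max_eq_left h, Real.log_one, max_eq_right (Real.log_nonpos ha.le h)]

/-- the values of the Lattès map on unit vectors -/
theorem leg_low (hw : IsNonarchimedean w) (h2 : w 2 = 1) (h0 : l ≠ 0) (h1 : l ≠ 1)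
    {x : Fin 2 → L} (hx : nrm w x = 1) :
    0 < nrm w (ev (leg l) x) ∧ -(3 * ell w l) ≤ Real.log (nrm w (ev (leg l) x)) ∧
      Real.log (nrm w (ev (leg l) x)) ≤ 2 * max (Real.log (w l)) 0 := by
  obtain ⟨u1, u2, u3⟩ := leg_bounds (l := l) hw h2 hx rfl
  set N := nrm w (ev (leg l) x) with hN
  set ρ := max 1 (w l) with hρ
  have hl : 0 < w l := w.pos h0
  have hl1 : 0 < w (1 - l) := w.pos (sub_ne_zero.2 (Ne.symm h1))
  have hρ1 : 1 ≤ ρ := le_max_left _ _
  have hρ0 : 0 < ρ := by linarith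
  have hlρ : Real.log ρ = max (Real.log (w l)) 0 := log_max_one hl
  have e1 : 0 ≤ max (Real.log (w l)) 0 := le_max_right _ _
  have e2 : 0 ≤ max (-Real.log (w l)) 0 := le_max_right _ _
  have e3 : 0 ≤ max (-Real.log (w (1 - l))) 0 := le_max_right _ _
  have e4 : -Real.log (w l) ≤ max (-Real.log (w l)) 0 := le_max_left _ _
  have e5 : -Real.log (w (1 - l)) ≤ max (-Real.log (w (1 - l))) 0 := le_max_left _ _
  have e6 : max (Real.log (w l)) 0 - max (-Real.log (w l)) 0 = Real.log (w l) := by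
    rcases le_total 0 (Real.log (w l)) with h | h
    · rw [max_eq_left h, max_eq_right (by linarith)]; ring
    · rw [max_eq_right h, max_eq_left (by linarith)]; ring
  have hmain : 0 < N ∧ -(3 * ell w l) ≤ Real.log N := by
    rcases le_total (w (x 0)) (w (x 1)) with h | h
    · have h3 : w (x 1) = 1 := by rw [← hx]; exact (max_eq_right h).symm
      rw [h3, one_pow, mul_one] at u2
      have h4 : 0 < ρ ^ 2 * N := lt_of_lt_of_le (by positivity) u2
      have h5 : 0 < N := by
        by_contra hc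
        push Not at hc
        nlinarith [pow_pos hρ0 2]
      refine ⟨h5, ?_⟩
      have h6 := Real.log_le_log (by positivity) u2
      rw [Real.log_mul (by positivity) (by positivity), Real.log_pow, Real.log_pow,
        Real.log_mul (by positivity) h5.ne', Real.log_pow, hlρ] at h6
      push_cast at h6
      unfold ell
      linarith
    · have h3 : w (x 0) = 1 := by rw [← hx]; exact (max_eq_left h).symm
      rw [h3, one_pow, mul_one] at u3
      have h4 : 0 < ρ ^ 3 * N := lt_of_lt_of_le (by positivity) u3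
      have h5 : 0 < N := by
        by_contra hc
        push Not at hc
        nlinarith [pow_pos hρ0 3]
      refine ⟨h5, ?_⟩
      have h6 := Real.log_le_log (by positivity) u3
      rw [Real.log_pow, Real.log_mul (by positivity) h5.ne', Real.log_pow, hlρ] at h6
      push_cast at h6
      unfold ell
      linarith
  refine ⟨hmain.1, hmain.2, ?_⟩
  have h7 := Real.log_le_log hmain.1 u1
  rw [Real.log_pow, hlρ] at h7
  exact_mod_cast h7

/-- the size of the Lattès map -/
theorem mm_leg [IsAlgClosed L] [CharZero L] (hw : IsNonarchimedean w) (h2 : w 2 = 1) (h0 : l ≠ 0)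
    (h1 : l ≠ 1) {r : ℝ} (hF : Fib w (ev (leg l)) 4 r) :
    mm w (ev (leg l)) 4 r ≤ 28 * ell w l := by
  have hab : wd (![1, 0] : Fin 2 → L) ![0, 1] ≠ 0 := by simp [wd]
  refine (mm_le (by norm_num) hF hab).trans ?_
  have hemb : ∀ z : Fin 2 → L, emb ![1, 0] ![0, 1] z = z := by
    intro z; funext i; fin_cases i <;> simp [emb]
  have hcoo : ∀ z : Fin 2 → L, coo ![1, 0] ![0, 1] z = z := by
    intro z; funext i; fin_cases i <;> simp [coo, wd]
  have hcj : cj ![1, 0] ![0, 1] (ev (leg l)) = ev (leg l) := by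
    funext z; unfold cj; rw [hemb, hcoo]
  have hcr : cr w 4 r ![1, 0] ![0, 1] = r := by
    unfold cr
    simp [wd]
  rw [hcj, hcr]
  have hlow := res_ge (w := w) (F := ev (leg l)) (r := r) (m := Real.exp (-(3 * ell w l)))
    (Real.exp_pos _) hF (fun x hx => by
      obtain ⟨p, q, -⟩ := leg_low hw h2 h0 h1 hx
      rw [← Real.le_log_iff_exp_le p]
      exact q) (by rw [ev_leg]; funext i; fin_cases i <;> simp)
  rw [Real.log_exp] at hlow
  have hS : Ssup w (ev (leg l)) ≤ 2 * max (Real.log (w l)) 0 := by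
    haveI : Nonempty {v : Fin 2 → L // nrm w v = 1} := ⟨⟨![1, 0], by simp [nrm]⟩⟩
    exact ciSup_le fun x => (leg_low hw h2 h0 h1 x.2).2.2
  have e1 : max (Real.log (w l)) 0 ≤ ell w l := by
    unfold ell
    have e2 : 0 ≤ max (-Real.log (w l)) 0 := le_max_right _ _
    have e3 : 0 ≤ max (-Real.log (w (1 - l))) 0 := le_max_right _ _
    linarith
  unfold tt
  push_cast
  linarith

theorem ell_zero (h : w l = 1) (h' : w (1 - l) = 1) : ell w l = 0 := by
  unfold ell; rw [h, h']; simp

/-- good reduction -/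
theorem good_leg (hw : IsNonarchimedean w) (h2 : w 2 = 1) (h : w l = 1) (h' : w (1 - l) = 1) :
    GoodAt w (leg l) := by
  have h0 : l ≠ 0 := by rintro rfl; simp at h
  have h1 : l ≠ 1 := by rintro rfl; simp at h'
  let O : Subring L :=
    { carrier := {x | w x ≤ 1}
      mul_mem' := fun {a b} ha hb => by
        simp only [Set.mem_ofPred_eq] at *
        rw [map_mul]; exact mul_le_one₀ ha (w.nonneg _) hb
      one_mem' := by simp
      add_mem' := fun {a b} ha hb => (hw a b).trans (max_le ha hb)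
      zero_mem' := by simp
      neg_mem' := fun {a} ha => by
        simp only [Set.mem_ofPred_eq] at *
        rw [AbsoluteValue.map_neg]; exact ha }
  let lo : O := ⟨l, h.le⟩
  constructor
  · intro i m
    have hco : ∃ q : MvPolynomial (Fin 2) O, MvPolynomial.map O.subtype q = leg l i := by
      fin_cases i
      · exact ⟨(X 0 ^ 2 - C lo * X 1 ^ 2) ^ 2, by simp [leg, lo]⟩
      · exact ⟨4 * X 0 * X 1 * (X 0 - X 1) * (X 0 - C lo * X 1), by simp [leg, lo]⟩
    obtain ⟨q, hq⟩ := hco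
    rw [← hq, MvPolynomial.coeff_map]
    exact (MvPolynomial.coeff m q).2
  · intro x hx hx'
    have hn : nrm w x = 1 := by
      refine le_antisymm (max_le (hx 0) (hx 1)) ?_
      obtain ⟨i, hi⟩ := hx'
      fin_cases i
      · exact hi.symm.le.trans (le_max_left _ _)
      · exact hi.symm.le.trans (le_max_right _ _)
    obtain ⟨p, q, r⟩ := leg_low hw h2 h0 h1 hn
    rw [ell_zero h h'] at q
    rw [h, Real.log_one] at r
    have hlog : Real.log (nrm w (ev (leg l) x)) = 0 := by
      apply le_antisymm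
      · simpa using r
      · simpa using q
    have h3 : nrm w (ev (leg l) x) = 1 := Real.eq_one_of_pos_of_log_eq_zero p hlog
    rcases max_choice (w (ev (leg l) x 0)) (w (ev (leg l) x 1)) with h4 | h4
    · exact ⟨0, by rw [← h3]; exact h4.symm⟩
    · exact ⟨1, by rw [← h3]; exact h4.symm⟩

/-- the size at the odd places is controlled by `j` -/
theorem two_ell_le (hw : IsNonarchimedean w) (h2 : w 2 = 1) (h0 : l ≠ 0) (h1 : l ≠ 1) {j : L}
    (hj : j * (l ^ 2 * (1 - l) ^ 2) = 256 * (l ^ 2 - l + 1) ^ 3) :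
    2 * ell w l ≤ max (Real.log (w j)) 0 ∧ w (l) ≤ max 1 (w (1 - l)) := by
  have hl : 0 < w l := w.pos h0
  have hl1 : 0 < w (1 - l) := w.pos (sub_ne_zero.2 (Ne.symm h1))
  have h256 : w (256 : L) = 1 := by
    rw [show (256 : L) = 2 ^ 8 by norm_num, map_pow, h2, one_pow]
  have hjw : w j * (w l ^ 2 * w (1 - l) ^ 2) = w (l ^ 2 - l + 1) ^ 3 := by
    have := congrArg w hj
    rw [map_mul, map_mul, map_mul, map_pow, map_pow, map_pow, h256, one_mul] at this
    exact this
  set Q := l ^ 2 - l + 1 with hQ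
  have k1 : w l ≤ max 1 (w (1 - l)) := by
    have h := hw 1 (-(1 - l))
    rw [show (1 : L) + -(1 - l) = l by ring, AbsoluteValue.map_neg, map_one] at h
    exact h
  have k2 : w (1 - l) ≤ max 1 (w l) := by
    have h := hw 1 (-l)
    rw [show (1 : L) + -l = 1 - l by ring, AbsoluteValue.map_neg, map_one] at h
    exact h
  have k3 : 1 ≤ max (w (1 - l)) (w l) := by
    have h := hw (1 - l) l
    rw [show (1 : L) - l + l = 1 by ring, map_one] at h
    exact h
  have k4 : w l ^ 2 ≤ max (w Q) (max (w l) 1) := by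
    have h := hw Q (l - 1)
    rw [show Q + (l - 1) = l ^ 2 by rw [hQ]; ring, map_pow] at h
    have h' := hw l (-1)
    rw [← sub_eq_add_neg, AbsoluteValue.map_neg, map_one] at h'
    exact h.trans (max_le_max le_rfl h')
  have k5 : 1 ≤ max (w Q) (w l * w (1 - l)) := by
    have h := hw Q (l * (1 - l))
    rw [show Q + l * (1 - l) = 1 by rw [hQ]; ring, map_one, map_mul] at h
    exact h
  refine ⟨?_, k1⟩
  rcases lt_trichotomy (w l) 1 with hlt | heq | hgt
  · -- small
    have a1 : 1 ≤ w (1 - l) := by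
      rcases le_max_iff.1 k3 with h | h
      · exact h
      · linarith
    have a2 : w (1 - l) = 1 := le_antisymm (k2.trans (max_le le_rfl hlt.le)) a1
    rw [a2, mul_one] at k5
    have a3 : 1 ≤ w Q := by
      rcases le_max_iff.1 k5 with h | h
      · exact h
      · linarith
    have a4 : ell w l = -Real.log (w l) := by
      unfold ell
      rw [a2, Real.log_one, max_eq_right (Real.log_nonpos hl.le hlt.le),
        max_eq_left (by linarith [Real.log_nonpos hl.le hlt.le])]
      simp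
    rw [a2, one_pow, mul_one] at hjw
    have a5 : 1 ≤ w j * w l ^ 2 := by rw [hjw]; exact one_le_pow₀ a3
    have hj0 : 0 < w j := by
      by_contra hc
      push Not at hc
      nlinarith [pow_pos hl 2]
    have a6 := Real.log_nonneg a5
    rw [Real.log_mul hj0.ne' (by positivity), Real.log_pow] at a6
    push_cast at a6
    refine le_trans ?_ (le_max_left _ _)
    rw [a4]; linarith
  · -- unit
    rw [heq, one_mul] at k5
    rcases eq_or_ne (w (1 - l)) 1 with h | h
    · rw [ell_zero heq h]; simp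
    · have a1 : w (1 - l) < 1 := by
        refine lt_of_le_of_ne (k2.trans (by rw [heq]; simp)) h
      have a3 : 1 ≤ w Q := by
        rcases le_max_iff.1 k5 with h | h
        · exact h
        · linarith
      have a4 : ell w l = -Real.log (w (1 - l)) := by
        unfold ell
        rw [heq, Real.log_one,
          max_eq_left (by linarith [Real.log_nonpos hl1.le a1.le] :
            (0 : ℝ) ≤ -Real.log (w (1 - l)))]
        simp
      rw [heq, one_pow, one_mul] at hjw
      have a5 : 1 ≤ w j * w (1 - l) ^ 2 := by rw [hjw]; exact one_le_pow₀ a3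
      have hj0 : 0 < w j := by
        by_contra hc
        push Not at hc
        nlinarith [pow_pos hl1 2]
      have a6 := Real.log_nonneg a5
      rw [Real.log_mul hj0.ne' (by positivity), Real.log_pow] at a6
      push_cast at a6
      refine le_trans ?_ (le_max_left _ _)
      rw [a4]; linarith
  · -- large
    have a1 : w l ≤ w (1 - l) := by
      rcases le_max_iff.1 k1 with h | h
      · linarith
      · exact h
    have a2 : w (1 - l) = w l :=
      le_antisymm (k2.trans (max_le hgt.le le_rfl)) a1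
    have a3 : w l ^ 2 ≤ w Q := by
      rcases le_max_iff.1 k4 with h | h
      · exact h
      · rw [max_eq_left hgt.le] at h
        nlinarith
    have hlog : 0 < Real.log (w l) := Real.log_pos hgt
    have a4 : ell w l = Real.log (w l) := by
      unfold ell
      rw [a2, max_eq_left hlog.le, max_eq_right (by linarith)]
      simp
    rw [a2] at hjw
    have a5 : (w l ^ 2) ^ 3 ≤ w j * (w l ^ 2 * w l ^ 2) := by
      rw [hjw]; exact pow_le_pow_left₀ (by positivity) a3 3
    have hj0 : 0 < w j := by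
      by_contra hc
      push Not at hc
      nlinarith [pow_pos hl 4, pow_pos hl 6]
    have a6 := Real.log_le_log (by positivity) a5
    rw [Real.log_mul hj0.ne' (by positivity), Real.log_mul (by positivity) (by positivity),
      Real.log_pow, Real.log_pow] at a6
    push_cast at a6
    refine le_trans ?_ (le_max_left _ _)
    rw [a4]; linarith

end na

end TH951.LS
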