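import Mathlib
import Pool.Agent.TH951.LS.Loc
import Pool.Agent.TH951.FE.Dyn
import Pool.Agent.TH951.FE.Ht
import Pool.Agent.H951R3.PB.G5
import Pool.Agent.H951R3.PB.F5

/-! The Lattès maps of the Legendre curves: the lower bound for the canonical height. -/

set_option autoImplicit false

open Height NumberField Module Finset Pool.Agent.H951R3.PB

namespace TH951.LS

universe u

section val

variable {L : Type u} [Field L] [NumberField L]

theorem log_two_le_abs (v : FinitePlace L) {x : L} (hx : x ≠ 0) (h1 : v.val x ≠ 1) :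
    Real.log 2 ≤ |Real.log (v.val x)| := by
  obtain ⟨k, hk⟩ := NF.Nm_pow v hx
  have hN2 : (2 : ℝ) ≤ NF.Nm v := by exact_mod_cast NF.one_lt_Nm v
  have hk' : v.val x = (NF.Nm v : ℝ) ^ k := hk
  have hk0 : k ≠ 0 := by
    rintro rfl
    rw [zpow_zero] at hk'
    exact h1 hk'
  rw [hk', Real.log_zpow, abs_mul]
  have h3 : Real.log 2 ≤ Real.log (NF.Nm v) := Real.log_le_log (by norm_num) hN2
  have hl2 : 0 < Real.log 2 := Real.log_pos (by norm_num)
  have h4 : (1 : ℝ) ≤ |(k : ℝ)| := by
    have := Int.one_le_abs hk0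
    exact_mod_cast this
  rw [abs_of_nonneg (by linarith : 0 ≤ Real.log (NF.Nm v))]
  nlinarith

theorem ell_ge (v : FinitePlace L) (hw : IsNonarchimedean v.val) {l : L} (h0 : l ≠ 0)
    (h1 : l ≠ 1) (h : v.val l ≠ 1 ∨ v.val (1 - l) ≠ 1) : Real.log 2 ≤ ell v.val l := by
  have e1 : 0 ≤ max (Real.log (v.val l)) 0 := le_max_right _ _
  have e2 : 0 ≤ max (-Real.log (v.val l)) 0 := le_max_right _ _
  have e3 : 0 ≤ max (-Real.log (v.val (1 - l))) 0 := le_max_right _ _
  have hl1 : 1 - l ≠ 0 := sub_ne_zero.2 (Ne.symm h1)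
  by_cases hl : v.val l = 1
  · have h2 : v.val (1 - l) ≠ 1 := h.resolve_left fun h' => h' hl
    have h3 := log_two_le_abs v hl1 h2
    have h4 : v.val (1 - l) ≤ 1 := by
      have h := hw 1 (-l)
      rw [← sub_eq_add_neg, AbsoluteValue.map_neg, map_one, hl, max_self] at h
      exact h
    rw [abs_of_nonpos (Real.log_nonpos (v.val.nonneg _) h4)] at h3
    have h5 := le_max_left (-Real.log (v.val (1 - l))) 0
    unfold ell; linarith
  · have h3 := log_two_le_abs v h0 hl
    have h4 : |Real.log (v.val l)| = max (Real.log (v.val l)) 0 + max (-Real.log (v.val l)) 0 := by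
      rcases le_total 0 (Real.log (v.val l)) with h | h
      · rw [abs_of_nonneg h, max_eq_left h, max_eq_right (by linarith), add_zero]
      · rw [abs_of_nonpos h, max_eq_right h, max_eq_left (by linarith), zero_add]
    unfold ell; linarith

theorem ell_ext {v : AbsoluteValue L ℝ} {w : AbsoluteValue (AlgebraicClosure L) ℝ} (h : Ext v w)
    (l : L) : ell w (algebraMap L (AlgebraicClosure L) l) = ell v l := by
  have h1 : (1 : AlgebraicClosure L) - algebraMap L (AlgebraicClosure L) l =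
      algebraMap L (AlgebraicClosure L) (1 - l) := by simp
  unfold ell
  rw [h1, h, h]

theorem na_val (v : FinitePlace L) : IsNonarchimedean v.val := by
  obtain ⟨w, hw⟩ := exists_ext_fin v
  have h := ext_na v w hw
  intro x y
  have := h (algebraMap L _ x) (algebraMap L _ y)
  rwa [← map_add, hw, hw, hw] at this

/-- the size at an odd finite place -/
theorem size_le (v : FinitePlace L) {w : AbsoluteValue (AlgebraicClosure L) ℝ}
    (hvw : Ext v.val w) (h2 : v.val 2 = 1) {l : L} (h0 : l ≠ 0) (h1 : l ≠ 1)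
    (h : v.val l ≠ 1 ∨ v.val (1 - l) ≠ 1) {j : L}
    (hj : j * (l ^ 2 * (1 - l) ^ 2) = 256 * (l ^ 2 - l + 1) ^ 3) :
    1 + max (msz 4 (leg l) w) 0 ≤ 15 * max (Real.log (v.val j)) 0 := by
  have hna := ext_na v w hvw
  have hv := na_val v
  have e1 := ell_ge v hv h0 h1 h
  have hinj := (algebraMap L (AlgebraicClosure L)).injective
  haveI : CharZero (AlgebraicClosure L) := charZero_of_injective_algebraMap hinj
  have h2' : w (2 : AlgebraicClosure L) = 1 := by
    rw [← map_ofNat (algebraMap L (AlgebraicClosure L)) 2, hvw]; exact h2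
  have hfib := F4_fib (by norm_num : 1 ≤ 4) (leg_hom l) (leg_rs h0 h1) w
  have h3 : msz 4 (leg l) w ≤ 28 * ell v.val l := by
    unfold msz
    rw [← ell_ext hvw]
    rw [fL_leg] at hfib ⊢
    exact mm_leg hna h2' (by simpa using h0)
      (by rw [Ne, ← map_one (algebraMap L (AlgebraicClosure L)), hinj.eq_iff]; exact h1) hfib
  have h4 := (two_ell_le hv h2 h0 h1 hj).1
  have h5 : max (msz 4 (leg l) w) 0 ≤ 28 * ell v.val l := max_le h3 (by
    have := ell_nonneg (w := v.val) (l := l)
    positivity)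
  have h6 : (1 : ℝ) ≤ 2 * Real.log 2 := by
    have := Real.log_two_gt_d9; linarith
  linarith

/-- good reduction -/
theorem good_leg' (v : FinitePlace L) {w : AbsoluteValue (AlgebraicClosure L) ℝ}
    (hvw : Ext v.val w) (h2 : v.val 2 = 1) {l : L} (h : v.val l = 1) (h' : v.val (1 - l) = 1) :
    PotGoodAt w 4 (leg l) := by
  have hna := ext_na v w hvw
  have h2' : w (2 : AlgebraicClosure L) = 1 := by
    rw [← map_ofNat (algebraMap L (AlgebraicClosure L)) 2, hvw]; exact h2
  refine ⟨fL L (leg l), fun i => ((leg_hom l) i).map _, ?_, 1, 1, by simp, one_ne_zero,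
    fun x => by simp⟩
  rw [fL_leg]
  refine good_leg hna h2' (by rw [hvw]; exact h) ?_
  rw [← map_one (algebraMap L (AlgebraicClosure L)), ← map_sub, hvw]
  exact h'

omit [NumberField L] in
/-- the `2`-torsion points are preperiodic -/
theorem leg_pre {l : L} (x : Fin 2 → L) (a : L) (ha : a ≠ 0) (hx : ev (leg l) x = ![a, 0]) :
    Pre (leg l) x := by
  refine ⟨1, 2, by norm_num, a ^ 3, pow_ne_zero 3 ha, ?_⟩
  rw [Function.iterate_one, Function.iterate_succ_apply', Function.iterate_one, hx, ev_leg]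
  funext i
  fin_cases i
  · simp; ring
  · simp

theorem ht_j_le {l j : L} (h0 : l ≠ 0) (h1 : l ≠ 1)
    (hj : j * (l ^ 2 * (1 - l) ^ 2) = 256 * (l ^ 2 - l + 1) ^ 3) :
    logHeight₁ j ≤ 13 * logHeight₁ l + (logHeight₁ (256 : ℚ) + 8 * Real.log 2) *
      finrank ℚ L := by
  have hD := NF.deg_pos (M := L)
  have key : NF.ht j ≤ 13 * NF.ht l + (logHeight₁ (256 : ℚ) + 8 * Real.log 2) := by
    have hl1 : 1 - l ≠ 0 := sub_ne_zero.2 (Ne.symm h1)
    have hj' : j = 256 * ((l * l - l + 1) * (l * l - l + 1) * (l * l - l + 1)) /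
        (l * l * ((1 - l) * (1 - l))) := by
      rw [eq_div_iff (by positivity)]
      linear_combination hj
    have e1 : NF.ht (l * l - l + 1) ≤ 2 * Real.log 2 + 3 * NF.ht l := by
      have a1 := NF.ht_add (l * l - l) 1
      have a2 := NF.ht_sub (l * l) l
      have a3 := NF.ht_mul l l
      rw [NF.ht_one] at a1
      linarith
    have e2 : NF.ht (1 - l) ≤ Real.log 2 + NF.ht l := by
      have a2 := NF.ht_sub 1 l
      rw [NF.ht_one] at a2
      linarith
    have e3 : NF.ht (256 : L) = logHeight₁ (256 : ℚ) := by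
      rw [← NF.ht_rat (M := L) 256]; simp
    have b1 := NF.ht_div (256 * ((l * l - l + 1) * (l * l - l + 1) * (l * l - l + 1)))
      (l * l * ((1 - l) * (1 - l)))
    have b2 := NF.ht_mul 256 ((l * l - l + 1) * (l * l - l + 1) * (l * l - l + 1))
    have b3 := NF.ht_mul ((l * l - l + 1) * (l * l - l + 1)) (l * l - l + 1)
    have b4 := NF.ht_mul (l * l - l + 1) (l * l - l + 1)
    have b5 := NF.ht_mul (l * l) ((1 - l) * (1 - l))
    have b6 := NF.ht_mul l l
    have b7 := NF.ht_mul (1 - l) (1 - l)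
    rw [← hj'] at b1
    linarith
  have h3 : logHeight₁ j = finrank ℚ L * NF.ht j := by
    unfold NF.ht; field_simp
  have h4 : logHeight₁ l = finrank ℚ L * NF.ht l := by
    unfold NF.ht; field_simp
  rw [h3, h4]
  nlinarith

end val

theorem int_le_one {L : Type u} [Field L] [NumberField L] (v : FinitePlace L) {x : L}
    (hx : IsIntegral ℤ x) : v.val x ≤ 1 := by
  have h := FinitePlace.norm_le_one L v.maximalIdeal (⟨x, hx⟩ : 𝓞 L)
  rw [FinitePlace.norm_embedding_eq] at h
  exact h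

/-- the integrality of `b M ^ k j` -/
theorem int_sum {L : Type u} [Field L] [NumberField L] {M₀ M b k : ℕ} (hb : 0 < b)
    (hM : ∀ v : FinitePlace L, v.val (M₀ : L) = 1 → v.val (M : L) = 1) {j : L}
    (hint : IsIntegral ℤ ((b : L) * (M : L) ^ k * j)) (T : Finset (FinitePlace L)) :
    ∑ v ∈ T.filter (fun v => v.val (M₀ : L) = 1), max (Real.log (v.val j)) 0 ≤
      finrank ℚ L * Real.log b := by
  classical
  have hbL : (b : L) ≠ 0 := by exact_mod_cast hb.ne'
  have hnat : ∀ v : FinitePlace L, v.val (b : L) ≤ 1 := fun v => NF.natCast_le_one v b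
  have hlog : ∀ v : FinitePlace L, Real.log (v.val (b : L)) ≤ 0 := fun v =>
    Real.log_nonpos (v.val.nonneg _) (hnat v)
  set F := T ∪ (F4_finite_ne hbL).toFinset with hF
  have hprod := F4_product hbL F (fun v hv => by
    by_contra h
    exact hv (by rw [hF, Finset.mem_union, Set.Finite.mem_toFinset]; exact Or.inr h))
  have hinf : ∑ v : InfinitePlace L, (v.mult : ℝ) * Real.log (v.val (b : L)) =
      finrank ℚ L * Real.log b := by
    have h1 : ∀ v : InfinitePlace L, v.val (b : L) = b := by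
      intro v
      have h2 : v (b : L) = b := by
        rw [← InfinitePlace.norm_embedding_eq, map_natCast, Complex.norm_natCast]
      exact h2
    simp only [h1]
    rw [← Finset.sum_mul]
    congr 1
    rw [← InfinitePlace.sum_mult_eq]; push_cast; rfl
  rw [hinf] at hprod
  have h3 : ∀ v ∈ T.filter (fun v => v.val (M₀ : L) = 1),
      max (Real.log (v.val j)) 0 ≤ -Real.log (v.val (b : L)) := by
    intro v hv
    have hv1 := hM v (Finset.mem_filter.1 hv).2
    have h4 : v.val ((b : L) * (M : L) ^ k * j) ≤ 1 := int_le_one v hint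
    rw [map_mul, map_mul, map_pow, hv1, one_pow, mul_one] at h4
    refine max_le ?_ (by linarith [hlog v])
    by_cases hj : j = 0
    · subst hj
      rw [map_zero, Real.log_zero]
      linarith [hlog v]
    · have h5 := Real.log_nonpos (mul_nonneg (v.val.nonneg _) (v.val.nonneg _)) h4
      rw [Real.log_mul (v.val.pos hbL).ne' (v.val.pos hj).ne'] at h5
      linarith
  refine (Finset.sum_le_sum h3).trans ?_
  have h6 : ∑ v ∈ T.filter (fun v => v.val (M₀ : L) = 1), -Real.log (v.val (b : L)) ≤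
      ∑ v ∈ F, -Real.log (v.val (b : L)) := by
    refine Finset.sum_le_sum_of_subset_of_nonneg ?_ fun v _ _ => by linarith [hlog v]
    exact (Finset.filter_subset _ _).trans Finset.subset_union_left
  refine h6.trans ?_
  rw [Finset.sum_neg_distrib]
  linarith

/-- The canonical heights for the Lattès maps of the Legendre curves. -/
theorem core_leg (D : ℕ) : ∃ (N : ℕ) (c δ : ℝ), 0 < c ∧ 0 < δ ∧ ∀ M : ℕ, M ≠ 0 →
    ∃ A : ℝ, 0 ≤ A ∧ ∀ (L : Type u) [Field L] [NumberField L], finrank ℚ L ≤ D →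
    ∀ l : L, l ≠ 0 → l ≠ 1 → ∀ j : L, j * (l ^ 2 * (1 - l) ^ 2) = 256 * (l ^ 2 - l + 1) ^ 3 →
    ∀ b k : ℕ, 0 < b → IsIntegral ℤ ((b : L) * (M : L) ^ k * j) →
    finrank ℚ L * Real.log b ≤ δ * logHeight₁ j → A < logHeight₁ j →
    ∀ X : Finset (Fin 2 → L), N ≤ X.card → (∀ x ∈ X, x ≠ 0) →
      (∀ x ∈ X, ∀ y ∈ X, x ≠ y → wd x y ≠ 0) →
      ∃ x ∈ X, c * logHeight₁ j ≤ hcan 4 (leg l) x := by
  classical
  obtain ⟨_, _, B, _, hB, hloc⟩ := FE.local_facts.{u} 4 (by norm_num)
  obtain ⟨N, η, C, hη, hC, hdyn⟩ := FE.dyn.{u} 4 (by norm_num) D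
  set C4 := logHeight₁ (256 : ℚ) + 8 * Real.log 2 with hC4
  have hC40 : 0 ≤ C4 := by
    have h1 : 0 ≤ logHeight₁ (256 : ℚ) := zero_le_logHeight₁ _
    have h2 : 0 < Real.log 2 := Real.log_pos (by norm_num)
    positivity
  set C5 := 52 * B + C4 + 1 with hC5
  have hC50 : 0 < C5 := by positivity
  refine ⟨N, η / (2 * C5), 1 / (60 * C5 * (C + 1)), by positivity, by positivity, ?_⟩
  intro M hM
  obtain ⟨A, hA, hdyn⟩ := hdyn (2 * M) (by positivity)
  refine ⟨4 * C5 * A, by positivity, ?_⟩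
  intro L _ _ hLD l h0 h1 j hj b k hb hint hbδ hAj X hXN hX0 hX
  by_contra hcon
  push Not at hcon
  choose wi hwi using fun v : InfinitePlace L => exists_ext_inf v
  choose wf hwf using fun v : FinitePlace L => exists_ext_fin v
  have hl1 : 1 - l ≠ 0 := sub_ne_zero.2 (Ne.symm h1)
  have h20 : (2 : L) ≠ 0 := by norm_num
  have hhom := leg_hom l
  have hrs := leg_rs h0 h1
  have hrsL : rs (fL L (leg l)) 4 ≠ 0 := F4_rs_ne hrs
  set T : Finset (FinitePlace L) := (F4_finite_ne h0).toFinset ∪ (F4_finite_ne hl1).toFinset ∪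
    (F4_finite_ne h20).toFinset with hT
  have hTn : ∀ v, v ∉ T → v.val l = 1 ∧ v.val (1 - l) = 1 ∧ v.val 2 = 1 := by
    intro v hv
    rw [hT, Finset.mem_union, Finset.mem_union, Set.Finite.mem_toFinset, Set.Finite.mem_toFinset,
      Set.Finite.mem_toFinset, Set.mem_ofPred_eq, Set.mem_ofPred_eq, Set.mem_ofPred_eq] at hv
    push Not at hv
    exact ⟨hv.1.1, hv.1.2, hv.2⟩
  have hTy : ∀ v ∈ T, v.val 2 = 1 → v.val l ≠ 1 ∨ v.val (1 - l) ≠ 1 := by
    intro v hv h2
    rw [hT, Finset.mem_union, Finset.mem_union, Set.Finite.mem_toFinset, Set.Finite.mem_toFinset,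
      Set.Finite.mem_toFinset, Set.mem_ofPred_eq, Set.mem_ofPred_eq, Set.mem_ofPred_eq] at hv
    exact hv.resolve_right fun h => h h2
  have hpot : ∀ v, v ∉ T → PotGoodAt (wf v) 4 (leg l) := fun v hv =>
    good_leg' v (hwf v) (hTn v hv).2.2 (hTn v hv).1 (hTn v hv).2.1
  set sI : InfinitePlace L → ℝ := fun v => 1 + max (msz 4 (leg l) (wi v)) 0 with hsI
  set sF : FinitePlace L → ℝ := fun v => 1 + max (msz 4 (leg l) (wf v)) 0 with hsF
  have hsI1 : ∀ v, 1 ≤ sI v := fun v => by
    have : 0 ≤ max (msz 4 (leg l) (wi v)) 0 := le_max_right _ _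
    simp only [hsI]; linarith
  have hsF1 : ∀ v, 1 ≤ sF v := fun v => by
    have : 0 ≤ max (msz 4 (leg l) (wf v)) 0 := le_max_right _ _
    simp only [hsF]; linarith
  set tot := ∑ v : InfinitePlace L, (v.mult : ℝ) * sI v + ∑ v ∈ T, sF v with htot
  set off := ∑ v ∈ T.filter (fun v => v.val ((2 * M : ℕ) : L) = 1), sF v with hoff
  set bg := FE.big 4 (leg l) wi wf (T.filter fun v => v.val ((2 * M : ℕ) : L) ≠ 1) with hbg
  have htot' : tot = bg + off := by
    rw [htot, hbg, hoff]
    unfold FE.big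
    rw [add_assoc]
    congr 1
    rw [add_comm, Finset.sum_filter_add_sum_filter_not]
  -- the degree
  have hdeg : (finrank ℚ L : ℝ) ≤ tot := by
    have e1 : ∑ v : InfinitePlace L, (v.mult : ℝ) = finrank ℚ L := by
      rw [← InfinitePlace.sum_mult_eq]; push_cast; rfl
    have e2 : ∑ v : InfinitePlace L, (v.mult : ℝ) ≤ ∑ v : InfinitePlace L, (v.mult : ℝ) * sI v := by
      refine Finset.sum_le_sum fun v _ => ?_
      have : (0 : ℝ) ≤ v.mult := Nat.cast_nonneg _
      nlinarith [hsI1 v]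
    have e3 : 0 ≤ ∑ v ∈ T, sF v := Finset.sum_nonneg fun v _ => by linarith [hsF1 v]
    rw [htot]; linarith
  -- the preperiodic points
  let GI : InfinitePlace L → (Fin 2 → L) → (Fin 2 → L) → ℝ := fun v x y =>
    FE.pot 4 (leg l) (wi v) x + FE.pot 4 (leg l) (wi v) y - Real.log (v.val (wd x y))
  let GF : FinitePlace L → (Fin 2 → L) → (Fin 2 → L) → ℝ := fun v x y =>
    FE.pot 4 (leg l) (wf v) x + FE.pot 4 (leg l) (wf v) y - Real.log (v.val (wd x y))
  have hglob : ∀ x y : Fin 2 → L, wd x y ≠ 0 → hcan 4 (leg l) x = 0 → hcan 4 (leg l) y = 0 →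
      ∑ v : InfinitePlace L, (v.mult : ℝ) * GI v x y + ∑ v ∈ T, GF v x y ≤ 0 := by
    intro x y hxy hx hy
    have h := global_le (by norm_num : 2 ≤ 4) hhom hrs wi hwi wf hwf hxy T (fun v hv =>
      potgood_gg (by norm_num) hhom hrsL (wf v) (ext_na v _ (hwf v)) (hpot v hv)
        (wd_vL_ne hxy))
    rw [hx, hy, add_zero] at h
    refine le_trans (le_of_eq ?_) h
    congr 1
    · refine Finset.sum_congr rfl fun v _ => ?_
      simp only [GI]
      rw [FE.pot_gg 4 (leg l) (hwi v)]
    · refine Finset.sum_congr rfl fun v _ => ?_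
      simp only [GF]
      rw [FE.pot_gg 4 (leg l) (hwf v)]
  have hGI : ∀ v x y, wd x y ≠ 0 → -(B * sI v) ≤ GI v x y := fun v x y hxy =>
    (hloc L (leg l) hhom hrs v.val (wi v) (hwi v)).2.2 x y hxy
  have hGF : ∀ v x y, wd x y ≠ 0 → -(B * sF v) ≤ GF v x y := fun v x y hxy =>
    (hloc L (leg l) hhom hrs v.val (wf v) (hwf v)).2.2 x y hxy
  set pi : Fin 2 → L := ![1, 0] with hpi
  set p0 : Fin 2 → L := ![0, 1] with hp0
  set p1 : Fin 2 → L := ![1, 1] with hp1
  set pl : Fin 2 → L := ![l, 1] with hpl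
  have hne : ∀ x : Fin 2 → L, (x 0 ≠ 0 ∨ x 1 ≠ 0) → x ≠ 0 := by
    rintro x hx rfl
    simp at hx
  have ci : hcan 4 (leg l) pi = 0 := hcan_pre (by norm_num) hhom hrs (hne _ (by simp [hpi]))
    (leg_pre pi 1 one_ne_zero (by rw [ev_leg]; funext i; fin_cases i <;> simp [hpi]))
  have c0 : hcan 4 (leg l) p0 = 0 := hcan_pre (by norm_num) hhom hrs (hne _ (by simp [hp0]))
    (leg_pre p0 (l ^ 2) (pow_ne_zero 2 h0)
      (by rw [ev_leg]; funext i; fin_cases i <;> simp [hp0]))
  have c1 : hcan 4 (leg l) p1 = 0 := hcan_pre (by norm_num) hhom hrs (hne _ (by simp [hp1]))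
    (leg_pre p1 ((1 - l) ^ 2) (pow_ne_zero 2 hl1)
      (by rw [ev_leg]; funext i; fin_cases i <;> simp [hp1]))
  have cl : hcan 4 (leg l) pl = 0 := hcan_pre (by norm_num) hhom hrs (hne _ (by simp [hpl]))
    (leg_pre pl ((l ^ 2 - l) ^ 2) (pow_ne_zero 2 (by
      rw [show l ^ 2 - l = -(l * (1 - l)) by ring]
      exact neg_ne_zero.2 (mul_ne_zero h0 hl1)))
      (by rw [ev_leg]; funext i; fin_cases i <;> simp [hpl]))
  have wil : wd pi pl = 1 := by simp [wd, hpi, hpl]
  have wi1 : wd pi p1 = 1 := by simp [wd, hpi, hp1]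
  have w01 : wd p0 p1 = -1 := by simp [wd, hp0, hp1]
  have w0l : wd p0 pl = -l := by simp [wd, hp0, hpl]
  have g1 := hglob pi pl (by rw [wil]; exact one_ne_zero) ci cl
  have g2 := hglob p0 p1 (by rw [w01]; simp) c0 c1
  have keyI : ∀ v : InfinitePlace L, max (Real.log (v.val l)) 0 ≤
      GI v pi pl + GI v p0 p1 + 4 * (B * sI v) := by
    intro v
    have a1 := hGI v pi pl (by rw [wil]; exact one_ne_zero)
    have a2 := hGI v pi p1 (by rw [wi1]; exact one_ne_zero)
    have a3 := hGI v p0 p1 (by rw [w01]; simp)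
    have a4 := hGI v p0 pl (by rw [w0l]; simpa using h0)
    have a5 : Real.log (v.val l) = GI v pi pl - GI v pi p1 + GI v p0 p1 - GI v p0 pl := by
      simp only [GI]
      rw [wil, wi1, w01, w0l, AbsoluteValue.map_neg, AbsoluteValue.map_neg, map_one]
      simp only [Real.log_one]
      ring
    have a6 : 0 ≤ B * sI v := mul_nonneg hB (by linarith [hsI1 v])
    exact max_le (by linarith) (by linarith)
  have keyF : ∀ v : FinitePlace L, max (Real.log (v.val l)) 0 ≤
      GF v pi pl + GF v p0 p1 + 4 * (B * sF v) := by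
    intro v
    have a1 := hGF v pi pl (by rw [wil]; exact one_ne_zero)
    have a2 := hGF v pi p1 (by rw [wi1]; exact one_ne_zero)
    have a3 := hGF v p0 p1 (by rw [w01]; simp)
    have a4 := hGF v p0 pl (by rw [w0l]; simpa using h0)
    have a5 : Real.log (v.val l) = GF v pi pl - GF v pi p1 + GF v p0 p1 - GF v p0 pl := by
      simp only [GF]
      rw [wil, wi1, w01, w0l, AbsoluteValue.map_neg, AbsoluteValue.map_neg, map_one]
      simp only [Real.log_one]
      ring
    have a6 : 0 ≤ B * sF v := mul_nonneg hB (by linarith [hsF1 v])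
    exact max_le (by linarith) (by linarith)
  have hhl : logHeight₁ l ≤ 4 * B * tot := by
    rw [FE.logHeight₁_pair]
    have hx : (![l, 1] : Fin 2 → L) ≠ 0 := hne _ (by simp)
    rw [F4_logHeight hx T (fun v hv => by
      have := (hTn v hv).1
      simp [nrm, this])]
    have hn : ∀ v : AbsoluteValue L ℝ, Real.log (nrm v ![l, 1]) = max (Real.log (v l)) 0 := by
      intro v
      have : nrm v ![l, 1] = max 1 (v l) := by simp [nrm, max_comm]
      rw [this, log_max_one (v.pos h0)]
    simp only [hn]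
    have s1 : ∑ v : InfinitePlace L, (v.mult : ℝ) * max (Real.log (v.val l)) 0 ≤
        ∑ v : InfinitePlace L, (v.mult : ℝ) * GI v pi pl +
        ∑ v : InfinitePlace L, (v.mult : ℝ) * GI v p0 p1 +
        4 * B * ∑ v : InfinitePlace L, (v.mult : ℝ) * sI v := by
      rw [Finset.mul_sum, ← Finset.sum_add_distrib, ← Finset.sum_add_distrib]
      refine Finset.sum_le_sum fun v _ => ?_
      have := mul_le_mul_of_nonneg_left (keyI v) (Nat.cast_nonneg v.mult : (0 : ℝ) ≤ v.mult)
      linarith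
    have s2 : ∑ v ∈ T, max (Real.log (v.val l)) 0 ≤ ∑ v ∈ T, GF v pi pl + ∑ v ∈ T, GF v p0 p1 +
        4 * B * ∑ v ∈ T, sF v := by
      rw [Finset.mul_sum, ← Finset.sum_add_distrib, ← Finset.sum_add_distrib]
      refine Finset.sum_le_sum fun v _ => ?_
      have := keyF v
      linarith
    rw [htot]
    linarith
  -- the height of `j`
  have hH0 : 0 < logHeight₁ j := lt_of_le_of_lt (by positivity) hAj
  have hhj : logHeight₁ j ≤ C5 * tot := by
    have a1 := ht_j_le h0 h1 hj
    have a2 : C4 * (finrank ℚ L : ℝ) ≤ C4 * tot := mul_le_mul_of_nonneg_left hdeg hC40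
    have a3 : 0 ≤ tot := le_trans (Nat.cast_nonneg _) hdeg
    rw [← hC4] at a1
    rw [hC5]
    nlinarith
  have hM0 : ∀ v : FinitePlace L, v.val ((2 * M : ℕ) : L) = 1 → v.val (M : L) = 1 ∧
      v.val (2 : L) = 1 := by
    intro v hv
    rw [Nat.cast_mul, map_mul] at hv
    have a1 : v.val ((2 : ℕ) : L) ≤ 1 := NF.natCast_le_one v 2
    have a2 : v.val (M : L) ≤ 1 := NF.natCast_le_one v M
    have a3 : 0 ≤ v.val ((2 : ℕ) : L) := v.val.nonneg _
    have a4 : 0 ≤ v.val (M : L) := v.val.nonneg _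
    have a5 : v.val (M : L) = 1 := by
      apply le_antisymm a2; nlinarith
    have a6 : v.val ((2 : ℕ) : L) = 1 := by
      apply le_antisymm a1; nlinarith
    exact ⟨a5, by simpa using a6⟩
  have hoff1 : off ≤ 15 * (finrank ℚ L * Real.log b) := by
    have a1 := int_sum hb (fun v hv => (hM0 v hv).1) hint T
    refine le_trans ?_ (mul_le_mul_of_nonneg_left a1 (by norm_num))
    rw [hoff, Finset.mul_sum]
    refine Finset.sum_le_sum fun v hv => ?_
    have hv1 := Finset.mem_filter.1 hv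
    have hv2 := (hM0 v hv1.2).2
    exact size_le v (hwf v) hv2 h0 h1 (hTy v hv1.1 hv2) hj
  have hoff2 : off ≤ 15 * (1 / (60 * C5 * (C + 1)) * logHeight₁ j) :=
    hoff1.trans (mul_le_mul_of_nonneg_left hbδ (by norm_num))
  have hoff3 : C5 * off ≤ logHeight₁ j / 4 := by
    have a1 := mul_le_mul_of_nonneg_left hoff2 hC50.le
    refine a1.trans ?_
    have a2 : C5 * (15 * (1 / (60 * C5 * (C + 1)) * logHeight₁ j)) =
        logHeight₁ j / 4 * (1 / (C + 1)) := by field_simp; norm_num
    rw [a2]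
    have a3 : 1 / (C + 1) ≤ 1 := by
      rw [div_le_one (by positivity)]; linarith
    exact mul_le_of_le_one_right (by positivity) a3
  have hoff4 : C * off ≤ logHeight₁ j / (4 * C5) := by
    have a1 := mul_le_mul_of_nonneg_left hoff2 hC.le
    refine a1.trans ?_
    have a2 : C * (15 * (1 / (60 * C5 * (C + 1)) * logHeight₁ j)) =
        logHeight₁ j / (4 * C5) * (C / (C + 1)) := by field_simp; norm_num
    rw [a2]
    have a3 : C / (C + 1) ≤ 1 := by
      rw [div_le_one (by positivity)]; linarith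
    exact mul_le_of_le_one_right (by positivity) a3
  have hbig : logHeight₁ j / (2 * C5) ≤ bg := by
    rw [htot', mul_add] at hhj
    rw [div_le_iff₀ (by positivity)]
    linarith
  have hfin := hdyn L hLD (leg l) hhom hrs wi hwi wf hwf T hpot X hXN hX0 hX (fun x hx => by
    have a1 := hcon x hx
    refine a1.le.trans ?_
    have a2 : η / (2 * C5) * logHeight₁ j = η * (logHeight₁ j / (2 * C5)) := by ring
    rw [a2]
    exact mul_le_mul_of_nonneg_left hbig hη.le)
  have a1 : logHeight₁ j / (2 * C5) ≤ logHeight₁ j / (4 * C5) + A := by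
    refine hbig.trans (hfin.trans ?_)
    exact add_le_add hoff4 le_rfl
  have a2 : logHeight₁ j / (2 * C5) = 2 * (logHeight₁ j / (4 * C5)) := by field_simp; norm_num
  have a3 : logHeight₁ j / (4 * C5) ≤ A := by linarith
  rw [div_le_iff₀ (by positivity)] at a3
  linarith

end TH951.LS
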