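import Mathlib
import Pool.Agent.TH951.LS.Glob
import Pool.Agent.TH951.LS.Dup
import Pool.Agent.Helper259.HtExt

/-! From the Lattès maps of the Legendre curves to Weierstrass curves. -/

set_option autoImplicit false

open Height NumberField Module Finset Pool.Agent.H951R3.PB Filter Topology
open scoped IntermediateField

namespace TH951.LS

universe u

theorem finrank_root {K : Type u} [Field K] {P : Cubic K} (ha : P.a ≠ 0)
    {x : AlgebraicClosure K} (hx : Polynomial.aeval x P.toPoly = 0) :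
    finrank K K⟮x⟯ ≤ 3 := by
  have h0 : P.toPoly ≠ 0 := Cubic.ne_zero_of_a_ne_zero ha
  have hint : IsIntegral K x := Algebra.IsIntegral.isIntegral x
  rw [IntermediateField.adjoin.finrank hint]
  have h1 := minpoly.degree_le_of_ne_zero K x h0 hx
  have h2 := Polynomial.natDegree_le_natDegree h1
  rw [Cubic.natDegree_of_a_ne_zero ha] at h2
  exact h2

/-- the field of the `2`-torsion points -/
theorem exists_roots (K : Type u) [Field K] [NumberField K] (W : WeierstrassCurve K)
    [W.IsElliptic] : ∃ (L : Type u) (_ : Field L) (_ : NumberField L) (_ : Algebra K L),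
    finrank K L ≤ 27 ∧ ∃ e₁ e₂ e₃ : L, Roots (algebraMap K L W.b₂) (algebraMap K L W.b₄)
      (algebraMap K L W.b₆) (algebraMap K L W.b₈) e₁ e₂ e₃ := by
  classical
  set P := W.twoTorsionPolynomial with hP
  have hPa : P.a = 4 := rfl
  have hPb : P.b = W.b₂ := rfl
  have hPc : P.c = 2 * W.b₄ := rfl
  have hPd : P.d = W.b₆ := rfl
  have ha : P.a ≠ 0 := by rw [hPa]; norm_num
  have hsp : Polynomial.Splits (P.toPoly.map (algebraMap K (AlgebraicClosure K))) :=
    IsAlgClosed.splits _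
  obtain ⟨x, y, z, h3⟩ := (Cubic.splits_iff_roots_eq_three ha).1 hsp
  have hb := Cubic.b_eq_three_roots ha h3
  have hc := Cubic.c_eq_three_roots ha h3
  have hd := Cubic.d_eq_three_roots ha h3
  have hdisc : P.discr ≠ 0 :=
    W.twoTorsionPolynomial_discr_ne_zero (isUnit_iff_ne_zero.2 (by norm_num)) W.isUnit_Δ
  obtain ⟨hxy, hxz, hyz⟩ := (Cubic.discr_ne_zero_iff_roots_ne ha h3).1 hdisc
  have hroot : ∀ t ∈ (Cubic.map (algebraMap K (AlgebraicClosure K)) P).roots,
      Polynomial.aeval t P.toPoly = 0 := by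
    intro t ht
    have h1 := (Polynomial.mem_roots'.1 ht).2
    rw [Cubic.map_toPoly, Polynomial.IsRoot.def, Polynomial.eval_map] at h1
    exact h1
  have hx := hroot x (by rw [h3]; simp)
  have hy := hroot y (by rw [h3]; simp)
  have hz := hroot z (by rw [h3]; simp)
  have hint : ∀ t : AlgebraicClosure K, IsIntegral K t := fun t => Algebra.IsIntegral.isIntegral t
  haveI : FiniteDimensional K K⟮x⟯ := IntermediateField.adjoin.finiteDimensional (hint x)
  haveI : FiniteDimensional K K⟮y⟯ := IntermediateField.adjoin.finiteDimensional (hint y)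
  haveI : FiniteDimensional K K⟮z⟯ := IntermediateField.adjoin.finiteDimensional (hint z)
  let E : IntermediateField K (AlgebraicClosure K) := (K⟮x⟯ ⊔ K⟮y⟯) ⊔ K⟮z⟯
  haveI hE1 : FiniteDimensional K ↥(K⟮x⟯ ⊔ K⟮y⟯) := inferInstance
  haveI hE : FiniteDimensional K E := IntermediateField.finiteDimensional_sup _ _
  haveI : NumberField E := NumberField.of_module_finite K E
  have hxE : x ∈ E :=
    (le_sup_left.trans le_sup_left : K⟮x⟯ ≤ E) (IntermediateField.mem_adjoin_simple_self K x)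
  have hyE : y ∈ E :=
    (le_sup_right.trans le_sup_left : K⟮y⟯ ≤ E) (IntermediateField.mem_adjoin_simple_self K y)
  have hzE : z ∈ E := (le_sup_right : K⟮z⟯ ≤ E) (IntermediateField.mem_adjoin_simple_self K z)
  refine ⟨E, inferInstance, inferInstance, inferInstance, ?_, ⟨x, hxE⟩, ⟨y, hyE⟩, ⟨z, hzE⟩, ?_⟩
  · have h1 : finrank K E ≤ finrank K ↥(K⟮x⟯ ⊔ K⟮y⟯) * finrank K K⟮z⟯ :=
      IntermediateField.finrank_sup_le _ _
    have h2 : finrank K ↥(K⟮x⟯ ⊔ K⟮y⟯) ≤ finrank K K⟮x⟯ * finrank K K⟮y⟯ :=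
      IntermediateField.finrank_sup_le _ _
    have h3 := finrank_root ha hx
    have h4 := finrank_root ha hy
    have h5 := finrank_root ha hz
    calc finrank K E ≤ finrank K ↥(K⟮x⟯ ⊔ K⟮y⟯) * finrank K K⟮z⟯ := h1
      _ ≤ (3 * 3) * 3 := Nat.mul_le_mul (h2.trans (Nat.mul_le_mul h3 h4)) h5
      _ = 27 := by norm_num
  · rw [hPa, hPb] at hb
    rw [hPa, hPc] at hc
    rw [hPa, hPd] at hd
    rw [map_ofNat] at hb hc hd
    rw [map_mul, map_ofNat] at hc
    have hinj := (algebraMap E (AlgebraicClosure K)).injective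
    have e1 : ∀ t : K, algebraMap E (AlgebraicClosure K) (algebraMap K E t) =
        algebraMap K (AlgebraicClosure K) t := fun t => rfl
    have e2 : ∀ (t : AlgebraicClosure K) (ht : t ∈ E),
        algebraMap E (AlgebraicClosure K) ⟨t, ht⟩ = t := fun t ht => rfl
    refine ⟨?_, ?_, ?_, ?_, ?_, ?_, ?_⟩
    · apply hinj
      rw [e1, map_mul, map_add, map_add, map_neg, map_ofNat, e2, e2, e2, hb]
      ring
    · apply hinj
      rw [e1, map_mul, map_add, map_add, map_ofNat, map_mul, map_mul, map_mul, e2, e2, e2]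
      have h2 : (2 : AlgebraicClosure K) ≠ 0 := by
        haveI : CharZero (AlgebraicClosure K) :=
          charZero_of_injective_algebraMap (algebraMap K (AlgebraicClosure K)).injective
        norm_num
      apply mul_left_cancel₀ h2
      rw [hc]
      ring
    · apply hinj
      rw [e1, map_mul, map_neg, map_ofNat, map_mul, map_mul, e2, e2, e2, hd]
      ring
    · rw [← map_mul, ← map_pow, ← map_sub, ← W.b_relation, map_mul, map_ofNat]
    · exact fun h => hxy (congrArg Subtype.val h)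
    · exact fun h => hxz (congrArg Subtype.val h)
    · exact fun h => hyz (congrArg Subtype.val h)

/-- the `j`-invariant in terms of the roots -/
theorem j_roots {K L : Type u} [Field K] [Field L] [CharZero L] [Algebra K L]
    (W : WeierstrassCurve K) [W.IsElliptic] {e₁ e₂ e₃ : L}
    (h : Roots (algebraMap K L W.b₂) (algebraMap K L W.b₄)
      (algebraMap K L W.b₆) (algebraMap K L W.b₈) e₁ e₂ e₃) :
    algebraMap K L W.j * (((e₃ - e₁) / (e₂ - e₁)) ^ 2 * (1 - (e₃ - e₁) / (e₂ - e₁)) ^ 2) =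
      256 * (((e₃ - e₁) / (e₂ - e₁)) ^ 2 - (e₃ - e₁) / (e₂ - e₁) + 1) ^ 3 := by
  have hne : e₂ - e₁ ≠ 0 := sub_ne_zero.2 (Ne.symm h.n12)
  have hj : W.j * W.Δ = W.c₄ ^ 3 := by
    rw [WeierstrassCurve.j, ← W.coe_Δ', mul_comm, ← mul_assoc, Units.mul_inv, one_mul]
  have hL := congrArg (algebraMap K L) hj
  rw [WeierstrassCurve.Δ, WeierstrassCurve.c₄] at hL
  simp only [map_mul, map_add, map_sub, map_neg, map_pow, map_ofNat] at hL
  rw [h.b8, h.h2, h.h4, h.h6] at hL
  have h16 : (16 : L) ≠ 0 := by norm_num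
  have k2 : algebraMap K L W.j * ((e₃ - e₁) ^ 2 * ((e₂ - e₁) - (e₃ - e₁)) ^ 2 * (e₂ - e₁) ^ 2) =
      256 * ((e₃ - e₁) ^ 2 - (e₃ - e₁) * (e₂ - e₁) + (e₂ - e₁) ^ 2) ^ 3 := by
    apply mul_left_cancel₀ h16
    linear_combination hL
  have h1 : (1 : L) - (e₃ - e₁) / (e₂ - e₁) = ((e₂ - e₁) - (e₃ - e₁)) / (e₂ - e₁) := by
    field_simp
  have h2 : ((e₃ - e₁) / (e₂ - e₁)) ^ 2 - (e₃ - e₁) / (e₂ - e₁) + 1 =
      ((e₃ - e₁) ^ 2 - (e₃ - e₁) * (e₂ - e₁) + (e₂ - e₁) ^ 2) / (e₂ - e₁) ^ 2 := by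
    field_simp
  rw [h1, h2, div_pow, div_pow, div_pow, div_mul_div_comm, mul_div_assoc', mul_div_assoc',
    div_eq_div_iff (by positivity) (by positivity)]
  linear_combination (e₂ - e₁) ^ 4 * k2

end TH951.LS
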