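import Mathlib
import Pool.Agent.TH951.LS.EC

/-! The duplication map of a Weierstrass curve at the finite places. -/

set_option autoImplicit false

open Height NumberField Module Finset Pool.Agent.H951R3.PB Filter Topology

namespace TH951.LS

universe u

/-- coordinates with good reduction compute the canonical pairing -/
theorem gg_good {L : Type u} [Field L] [IsAlgClosed L] [CharZero L] {w : AbsoluteValue L ℝ}
    (hw : IsNonarchimedean w) {d : ℕ} (hd : 2 ≤ d) {F : (Fin 2 → L) → Fin 2 → L} {r : ℝ}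
    (hFib : Fib w F d r) {g : Fin 2 → MvPolynomial (Fin 2) L} (hgood : GoodAt w g)
    {a b : Fin 2 → L} (hab : wd a b ≠ 0) {c : L} (hc : c ≠ 0)
    (hev : ev g = fun z => c • cj a b F z) {x y : Fin 2 → L} (hxy : wd x y ≠ 0) :
    lam w (coo a b x) (coo a b y) ≤ gg w F d r x y := by
  obtain ⟨hx, hy⟩ := D2.wd_swap0 x y hxy
  have hex : emb a b (coo a b x) = x := D2.emb_coo hab x
  have hey : emb a b (coo a b y) = y := D2.emb_coo hab y
  have hxy' : wd (coo a b x) (coo a b y) ≠ 0 := by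
    intro h0
    have := D2.wd_emb a b (coo a b x) (coo a b y)
    rw [hex, hey, h0, mul_zero] at this
    exact hxy this
  have h1 := gg_cj hd hFib hab hxy'
  have h2 := gg_scale hd (fib_cj hFib hab) hc hxy'
  rw [hex, hey] at h1
  rw [← h1, ← h2.2]
  obtain ⟨hfib, -⟩ := h2
  rw [← hev] at hfib ⊢
  set ρ := cr w d r a b + 2 * d * Real.log (w c) with hρ
  have hscale : ∀ v : Fin 2 → L, v ≠ 0 →
      Real.log (nrm w (ev g v)) = d * Real.log (nrm w v) := by
    intro v hv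
    obtain ⟨k, u, hk, hu, rfl⟩ := D2.unit_of w hv
    rw [fib_homog hfib, B1_nrm_smul, B1_nrm_smul, F2.unit_ev w hw hgood hu, hu, mul_one,
      mul_one, map_pow, Real.log_pow]
  have hit : ∀ (n : ℕ) (v : Fin 2 → L), v ≠ 0 →
      Real.log (nrm w ((ev g)^[n] v)) = (d : ℝ) ^ n * Real.log (nrm w v) := by
    intro n v hv
    induction n with
    | zero => simp
    | succ n ih =>
      rw [Function.iterate_succ_apply', hscale _ (fib_ne_zero (fib_iter hfib n) hv), ih]
      ring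
  have hd2 : (2 : ℝ) ≤ d := by exact_mod_cast hd
  have hGr : ∀ v : Fin 2 → L, v ≠ 0 → Gr w (ev g) d v = Real.log (nrm w v) := by
    intro v hv
    have h3 := gr_tendsto hd hfib hv
    have h4 : (fun n : ℕ => Real.log (nrm w ((ev g)^[n] v)) / (d : ℝ) ^ n) =
        fun _ => Real.log (nrm w v) := by
      funext n
      rw [hit n v hv]
      have : (d : ℝ) ^ n ≠ 0 := pow_ne_zero _ (by linarith)
      field_simp
    rw [h4] at h3
    exact tendsto_nhds_unique h3 tendsto_const_nhds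
  have hρ0 : ρ ≤ 0 := by
    have hS : Ssup w (ev g) = 0 := by
      have : ∀ v : {v : Fin 2 → L // nrm w v = 1}, Real.log (nrm w (ev g v.1)) = 0 := by
        intro v
        rw [F2.unit_ev w hw hgood v.2, Real.log_one]
      have hne : Nonempty {v : Fin 2 → L // nrm w v = 1} := ⟨⟨![1, 0], by simp [nrm]⟩⟩
      rw [Ssup, iSup_congr this, ciSup_const]
    obtain ⟨C, z, hz⟩ := hfib ![1, 0] (by simp [nrm])
    have h5 := (fib_bounds_na w hw (by omega : 1 ≤ d) hfib).1 _ C z (by simp [nrm]) hz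
    rw [hS] at h5
    have h6 := hz.res
    have h7 : ∀ j, Real.log (nrm w (ev g (z j))) = 0 := by
      intro j
      rw [F2.unit_ev w hw hgood (hz.unit j), Real.log_one]
    simp only [h7, Finset.sum_const_zero, add_zero] at h6
    rw [← h6]
    nlinarith
  have hta : 0 ≤ ta d ρ := by
    rw [ta]
    apply div_nonneg (by linarith)
    have : (0 : ℝ) ≤ d - 1 := by linarith
    positivity
  rw [gg, hGr _ (D2.coo_ne hab hx), hGr _ (D2.coo_ne hab hy), lam]
  linarith

/-- the size of a conjugate of the Lattès map -/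
theorem mm_conj {L : Type u} [Field L] [IsAlgClosed L] [CharZero L] {w : AbsoluteValue L ℝ}
    (hw : IsNonarchimedean w) (h2 : w 2 = 1) {l : L} (h0 : l ≠ 0) (h1 : l ≠ 1)
    {F : (Fin 2 → L) → Fin 2 → L} {r : ℝ} (hF : Fib w F 4 r) {a b : Fin 2 → L} (hab : wd a b ≠ 0)
    {c : L} (hc : c ≠ 0) (hev : ev (leg l) = fun z => c • cj a b F z) :
    mm w F 4 r ≤ 28 * ell w l := by
  have hxy' : wd (![1, 0] : Fin 2 → L) ![0, 1] ≠ 0 := by simp [wd]
  obtain ⟨hfib, -⟩ := gg_scale (by norm_num) (fib_cj hF hab) hc hxy'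
  rw [← hev] at hfib
  refine (mm_le (by norm_num) hF hab).trans ?_
  have hlow := res_ge (w := w) (F := ev (leg l)) (m := Real.exp (-(3 * ell w l)))
    (Real.exp_pos _) hfib (fun x hx => by
      obtain ⟨p, q, -⟩ := leg_low hw h2 h0 h1 hx
      rw [← Real.le_log_iff_exp_le p]
      exact q) (by rw [ev_leg]; funext i; fin_cases i <;> simp)
  rw [Real.log_exp] at hlow
  have hcp : 0 < w c := w.pos hc
  have hS : Ssup w (cj a b F) ≤ 2 * max (Real.log (w l)) 0 - Real.log (w c) := by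
    haveI : Nonempty {v : Fin 2 → L // nrm w v = 1} := ⟨⟨![1, 0], by simp [nrm]⟩⟩
    refine ciSup_le fun x => ?_
    obtain ⟨p, -, q⟩ := leg_low hw h2 h0 h1 x.2
    rw [hev] at p q
    simp only at p q
    rw [B1_nrm_smul] at p q
    have hn : 0 < nrm w (cj a b F x.1) := by
      by_contra hcon
      push Not at hcon
      nlinarith
    rw [Real.log_mul hcp.ne' hn.ne'] at q
    linarith
  have e1 : max (Real.log (w l)) 0 ≤ ell w l := by
    unfold ell
    have e2 : 0 ≤ max (-Real.log (w l)) 0 := le_max_right _ _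
    have e3 : 0 ≤ max (-Real.log (w (1 - l))) 0 := le_max_right _ _
    linarith
  unfold tt
  push_cast at hlow ⊢
  linarith

section K

variable {K : Type u} [Field K]

open MvPolynomial in
/-- duplication on `x`-coordinates, as a pair of forms -/
noncomputable def fW (W : WeierstrassCurve K) : Fin 2 → MvPolynomial (Fin 2) K :=
  ![X 0 ^ 4 - C W.b₄ * X 0 ^ 2 * X 1 ^ 2 - C (2 * W.b₆) * X 0 * X 1 ^ 3 - C W.b₈ * X 1 ^ 4,
    C 4 * X 0 ^ 3 * X 1 + C W.b₂ * X 0 ^ 2 * X 1 ^ 2 + C (2 * W.b₄) * X 0 * X 1 ^ 3 +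
      C W.b₆ * X 1 ^ 4]

theorem ev_fW (W : WeierstrassCurve K) (v : Fin 2 → K) : ev (fW W) v = dW W v := by
  funext i
  fin_cases i <;> simp [ev, fW, dW]

theorem fW_hom (W : WeierstrassCurve K) : ∀ i, (fW W i).IsHomogeneous 4 := by
  have hX : ∀ i : Fin 2, (MvPolynomial.X i : MvPolynomial (Fin 2) K).IsHomogeneous 1 := fun i =>
    MvPolynomial.isHomogeneous_X K i
  have hC : ∀ c : K, (MvPolynomial.C c : MvPolynomial (Fin 2) K).IsHomogeneous 0 := fun c =>
    MvPolynomial.isHomogeneous_C _ _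
  have hm : ∀ (c : K) (i j : ℕ), i + j = 4 → (MvPolynomial.C c * MvPolynomial.X 0 ^ i *
      MvPolynomial.X 1 ^ j : MvPolynomial (Fin 2) K).IsHomogeneous 4 := by
    intro c i j hij
    have := ((hC c).mul ((hX 0).pow i)).mul ((hX 1).pow j)
    simpa [hij] using this
  intro i
  fin_cases i
  · have h1 := hm 1 4 0 (by norm_num)
    have h2 := hm W.b₄ 2 2 (by norm_num)
    have h3 := hm (2 * W.b₆) 1 3 (by norm_num)
    have h4 := hm W.b₈ 0 4 (by norm_num)
    have := ((h1.sub h2).sub h3).sub h4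
    simpa [fW] using this
  · have h1 := hm 4 3 1 (by norm_num)
    have h2 := hm W.b₂ 2 2 (by norm_num)
    have h3 := hm (2 * W.b₄) 1 3 (by norm_num)
    have h4 := hm W.b₆ 0 4 (by norm_num)
    have := ((h1.add h2).add h3).add h4
    simpa [fW] using this

end K

section roots

variable {K : Type u} [Field K] [NumberField K] (W : WeierstrassCurve K)
  {e₁ e₂ e₃ : AlgebraicClosure K}

instance : CharZero (AlgebraicClosure K) :=
  charZero_of_injective_algebraMap (algebraMap K (AlgebraicClosure K)).injective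

/-- the roots in the algebraic closure -/
theorem roots_closure [W.IsElliptic] : ∃ e₁ e₂ e₃ : AlgebraicClosure K,
    Roots (algebraMap K (AlgebraicClosure K) W.b₂) (algebraMap K (AlgebraicClosure K) W.b₄)
      (algebraMap K (AlgebraicClosure K) W.b₆) (algebraMap K (AlgebraicClosure K) W.b₈)
      e₁ e₂ e₃ := by
  obtain ⟨L, _, _, _, hLK, e₁, e₂, e₃, h⟩ := exists_roots K W
  haveI : FiniteDimensional K L := Module.Finite.of_restrictScalars_finite ℚ K L
  let φ : L →ₐ[K] AlgebraicClosure K := IsAlgClosed.lift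
  have hφ : ∀ t : K, φ (algebraMap K L t) = algebraMap K (AlgebraicClosure K) t := φ.commutes
  refine ⟨φ e₁, φ e₂, φ e₃, ?_, ?_, ?_, ?_, ?_, ?_, ?_⟩
  · rw [← hφ, h.h2]; simp [map_ofNat]
  · rw [← hφ, h.h4]; simp [map_ofNat]
  · rw [← hφ, h.h6]; simp [map_ofNat]
  · rw [← map_mul, ← map_pow, ← map_sub, ← W.b_relation, map_mul, map_ofNat]
  · exact fun h' => h.n12 (φ.toRingHom.injective h')
  · exact fun h' => h.n13 (φ.toRingHom.injective h')
  · exact fun h' => h.n23 (φ.toRingHom.injective h')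

variable {W}

theorem ev_fL_fW (v : Fin 2 → AlgebraicClosure K) : ev (fL K (fW W)) v =
    ![v 0 ^ 4 - algebraMap K (AlgebraicClosure K) W.b₄ * v 0 ^ 2 * v 1 ^ 2 -
        2 * algebraMap K (AlgebraicClosure K) W.b₆ * v 0 * v 1 ^ 3 -
        algebraMap K (AlgebraicClosure K) W.b₈ * v 1 ^ 4,
      4 * v 0 ^ 3 * v 1 + algebraMap K (AlgebraicClosure K) W.b₂ * v 0 ^ 2 * v 1 ^ 2 +
        2 * algebraMap K (AlgebraicClosure K) W.b₄ * v 0 * v 1 ^ 3 +
        algebraMap K (AlgebraicClosure K) W.b₆ * v 1 ^ 4] := by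
  funext i
  fin_cases i <;> simp [ev, fL, fW, map_ofNat]

theorem coo_Psi (e₁ e₂ : AlgebraicClosure K) (v : Fin 2 → AlgebraicClosure K) :
    coo ![e₂ - e₁, 0] ![e₁, 1] v = Psi e₁ e₂ v ∨ e₂ - e₁ = 0 := by
  by_cases h : e₂ - e₁ = 0
  · exact Or.inr h
  left
  funext i
  fin_cases i
  · simp [coo, Psi, wd]; ring
  · simp [coo, Psi, wd]
    field_simp

variable (h : Roots (algebraMap K (AlgebraicClosure K) W.b₂)
  (algebraMap K (AlgebraicClosure K) W.b₄) (algebraMap K (AlgebraicClosure K) W.b₆)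
  (algebraMap K (AlgebraicClosure K) W.b₈) e₁ e₂ e₃)

include h

theorem roots_wd : wd (![e₂ - e₁, 0] : Fin 2 → AlgebraicClosure K) ![e₁, 1] ≠ 0 := by
  have hne : e₂ - e₁ ≠ 0 := sub_ne_zero.2 (Ne.symm h.n12)
  simpa [wd] using hne

theorem roots_ev : ev (leg ((e₃ - e₁) / (e₂ - e₁))) =
    fun z => ((e₂ - e₁) ^ 3)⁻¹ • cj ![e₂ - e₁, 0] ![e₁, 1] (ev (fL K (fW W))) z := by
  have hne : e₂ - e₁ ≠ 0 := sub_ne_zero.2 (Ne.symm h.n12)
  funext z
  have hab := roots_wd h
  have h1 := leg_Psi h (emb ![e₂ - e₁, 0] ![e₁, 1] z)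
  rw [← ev_fL_fW] at h1
  have h2 := (coo_Psi e₁ e₂ (ev (fL K (fW W)) (emb ![e₂ - e₁, 0] ![e₁, 1] z))).resolve_right hne
  have h3 := (coo_Psi e₁ e₂ (emb ![e₂ - e₁, 0] ![e₁, 1] z)).resolve_right hne
  rw [D2.coo_emb hab] at h3
  rw [← h2, ← h3] at h1
  simp only [cj]
  rw [h1, smul_smul, inv_mul_cancel₀ (by positivity), one_smul]

theorem roots_l : (e₃ - e₁) / (e₂ - e₁) ≠ 0 ∧ (e₃ - e₁) / (e₂ - e₁) ≠ 1 := by
  have hne : e₂ - e₁ ≠ 0 := sub_ne_zero.2 (Ne.symm h.n12)
  refine ⟨div_ne_zero (sub_ne_zero.2 (Ne.symm h.n13)) hne, ?_⟩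
  intro h'
  rw [div_eq_one_iff_eq hne] at h'
  exact h.n23 (by linear_combination -h')

theorem fW_rs : rs (fW W) 4 ≠ 0 := by
  refine rs_ne_of_noZero (by norm_num) (fW_hom W) fun x hx => ?_
  have hab := roots_wd h
  obtain ⟨h0, h1⟩ := roots_l h
  have hx' : ev (fL K (fW W)) x = 0 := by
    funext i
    have h2 := hx i
    rw [MvPolynomial.aeval_def] at h2
    simp only [ev, fL, MvPolynomial.eval_map, Pi.zero_apply]
    exact h2
  have h2 := congrFun (roots_ev h) (coo ![e₂ - e₁, 0] ![e₁, 1] x)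
  simp only [cj] at h2
  rw [D2.emb_coo hab, hx'] at h2
  have h3 : coo ![e₂ - e₁, 0] ![e₁, 1] (0 : Fin 2 → AlgebraicClosure K) = 0 := by
    funext i
    fin_cases i <;> simp [coo, wd]
  rw [h3, smul_zero] at h2
  have h4 := leg_noZero h0 h1 _ h2
  rw [← D2.emb_coo hab x, h4]
  funext i
  simp [emb]

theorem roots_potGood {w : AbsoluteValue (AlgebraicClosure K) ℝ} (hw : IsNonarchimedean w)
    (h2 : w 2 = 1) (hl : w ((e₃ - e₁) / (e₂ - e₁)) = 1)
    (hl' : w (1 - (e₃ - e₁) / (e₂ - e₁)) = 1) : PotGoodAt w 4 (fW W) := by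
  have hne : e₂ - e₁ ≠ 0 := sub_ne_zero.2 (Ne.symm h.n12)
  have hab := roots_wd h
  refine ⟨leg ((e₃ - e₁) / (e₂ - e₁)), leg_hom _, good_leg hw h2 hl hl',
    !![e₂ - e₁, e₁; 0, 1], ((e₂ - e₁) ^ 3)⁻¹, by simpa using hne, by positivity, fun x => ?_⟩
  have hemb : ∀ z : Fin 2 → AlgebraicClosure K,
      (!![e₂ - e₁, e₁; 0, 1] : Matrix (Fin 2) (Fin 2) (AlgebraicClosure K)).mulVec z =
      emb ![e₂ - e₁, 0] ![e₁, 1] z := by
    intro z
    funext i
    fin_cases i
    · simp [emb, Matrix.mulVec, dotProduct, Fin.sum_univ_two]; ring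
    · simp [emb, Matrix.mulVec, dotProduct, Fin.sum_univ_two]
  rw [hemb, hemb, congrFun (roots_ev h) x]
  simp only [cj]
  rw [D2.emb_smul, D2.emb_coo hab]

end roots

end TH951.LS
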