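import Mathlib
import Pool.Agent.TH951.LS.Wei

/-! The gain at the places of additive, potentially good reduction. -/

set_option autoImplicit false

open Height NumberField Module Finset Pool.Agent.H951R3.PB Filter Topology

namespace TH951.LS

universe u

theorem na_eq {L : Type u} [Field L] {w : AbsoluteValue L ℝ} (hw : IsNonarchimedean w) {a b : L}
    (h : w b < w a) : w (a + b) = w a := by
  apply le_antisymm
  · exact (hw a b).trans (max_le le_rfl h.le)
  · have h1 := hw (a + b) (-b)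
    rw [add_neg_cancel_right, AbsoluteValue.map_neg] at h1
    rcases le_max_iff.1 h1 with h2 | h2
    · exact h2
    · linarith

theorem na_sub {L : Type u} [Field L] {w : AbsoluteValue L ℝ} (hw : IsNonarchimedean w) {a b : L}
    {ρ : ℝ} (ha : w a ≤ ρ) (hb : w b ≤ ρ) : w (a - b) ≤ ρ := by
  rw [sub_eq_add_neg]
  refine (hw a (-b)).trans (max_le ha ?_)
  rwa [AbsoluteValue.map_neg]

theorem na_sub_lt {L : Type u} [Field L] {w : AbsoluteValue L ℝ} (hw : IsNonarchimedean w)
    {a b : L} {ρ : ℝ} (ha : w a < ρ) (hb : w b < ρ) : w (a - b) < ρ := by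
  rw [sub_eq_add_neg]
  refine lt_of_le_of_lt (hw a (-b)) (max_lt ha ?_)
  rwa [AbsoluteValue.map_neg]

/-- values of `K` against sixth roots of values -/
theorem gap {K : Type u} [Field K] [NumberField K] (v : FinitePlace K) {t Δ : K} (ht : t ≠ 0)
    (hΔ : Δ ≠ 0) {ρ : ℝ} (hρ : 0 < ρ) (h6 : ρ ^ 6 = v.val Δ) (hne : v.val t ≠ ρ) :
    Real.log (NF.Nm v) / 6 ≤ |Real.log (v.val t) - Real.log ρ| := by
  obtain ⟨k, hk⟩ := NF.Nm_pow v ht
  obtain ⟨m, hm⟩ := NF.Nm_pow v hΔ
  have hk' : v.val t = (NF.Nm v : ℝ) ^ k := hk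
  have hm' : v.val Δ = (NF.Nm v : ℝ) ^ m := hm
  have hN : (1 : ℝ) < NF.Nm v := by exact_mod_cast NF.one_lt_Nm v
  have hlN : 0 < Real.log (NF.Nm v) := Real.log_pos hN
  have h1 : 6 * Real.log ρ = m * Real.log (NF.Nm v) := by
    have := congrArg Real.log h6
    rw [Real.log_pow, hm', Real.log_zpow] at this
    exact_mod_cast this
  have h2 : Real.log (v.val t) = k * Real.log (NF.Nm v) := by rw [hk', Real.log_zpow]
  have h3 : 6 * (Real.log (v.val t) - Real.log ρ) = ((6 * k - m : ℤ) : ℝ) * Real.log (NF.Nm v) := by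
    push_cast; linarith
  have h4 : 6 * k - m ≠ 0 := by
    intro h
    rw [h, Int.cast_zero, zero_mul] at h3
    apply hne
    exact Real.log_injOn_pos (Set.mem_Ioi.2 (v.val.pos ht)) (Set.mem_Ioi.2 hρ) (by linarith)
  have h5 : (1 : ℝ) ≤ |((6 * k - m : ℤ) : ℝ)| := by
    have := Int.one_le_abs h4
    exact_mod_cast this
  have h6' : |6 * (Real.log (v.val t) - Real.log ρ)| =
      |((6 * k - m : ℤ) : ℝ)| * Real.log (NF.Nm v) := by
    rw [h3, abs_mul, abs_of_pos hlN]
  rw [abs_mul, abs_of_pos (by norm_num : (0 : ℝ) < 6)] at h6'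
  nlinarith

section gain

variable {K : Type u} [Field K] [NumberField K] {W : WeierstrassCurve K}
  {e₁ e₂ e₃ : AlgebraicClosure K}

theorem disc_roots (h : Roots (algebraMap K (AlgebraicClosure K) W.b₂)
    (algebraMap K (AlgebraicClosure K) W.b₄) (algebraMap K (AlgebraicClosure K) W.b₆)
    (algebraMap K (AlgebraicClosure K) W.b₈) e₁ e₂ e₃) :
    algebraMap K (AlgebraicClosure K) W.Δ =
      16 * ((e₂ - e₁) ^ 2 * (e₃ - e₁) ^ 2 * (e₂ - e₃) ^ 2) := by
  rw [WeierstrassCurve.Δ]
  simp only [map_mul, map_add, map_sub, map_neg, map_pow, map_ofNat]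
  rw [h.b8, h.h2, h.h4, h.h6]
  ring

theorem curve_roots (h : Roots (algebraMap K (AlgebraicClosure K) W.b₂)
    (algebraMap K (AlgebraicClosure K) W.b₄) (algebraMap K (AlgebraicClosure K) W.b₆)
    (algebraMap K (AlgebraicClosure K) W.b₈) e₁ e₂ e₃) {x y : K}
    (hxy : y ^ 2 + W.a₁ * x * y + W.a₃ * y = x ^ 3 + W.a₂ * x ^ 2 + W.a₄ * x + W.a₆) :
    algebraMap K (AlgebraicClosure K) (2 * y + W.a₁ * x + W.a₃) ^ 2 =
      4 * ((algebraMap K (AlgebraicClosure K) x - e₁) * (algebraMap K (AlgebraicClosure K) x - e₂) *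
        (algebraMap K (AlgebraicClosure K) x - e₃)) := by
  rw [← map_pow, dup_den W hxy]
  simp only [map_mul, map_add, map_pow, map_ofNat]
  rw [h.h2, h.h4, h.h6]
  ring

/-- the gain at a place of additive, potentially good reduction -/
theorem gain_add (h : Roots (algebraMap K (AlgebraicClosure K) W.b₂)
    (algebraMap K (AlgebraicClosure K) W.b₄) (algebraMap K (AlgebraicClosure K) W.b₆)
    (algebraMap K (AlgebraicClosure K) W.b₈) e₁ e₂ e₃) (v : FinitePlace K)
    {w : AbsoluteValue (AlgebraicClosure K) ℝ} (hvw : Ext v.val w) (h2 : v.val 2 = 1)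
    (h3 : v.val 3 = 1) (hΔ : W.Δ ≠ 0)
    (hl : w ((e₃ - e₁) / (e₂ - e₁)) = 1) (hl' : w (1 - (e₃ - e₁) / (e₂ - e₁)) = 1)
    (hadd : ∀ u : K, v.val W.Δ ≠ v.val u ^ 12) :
    ∃ cell : W.toAffine.Point → Fin 5, ∀ P Q : W.toAffine.Point, P.xRep ≠ Q.xRep →
      cell P = cell Q → Real.log (NF.Nm v) / 6 ≤
        lam w (Psi e₁ e₂ (vL K P.xRep)) (Psi e₁ e₂ (vL K Q.xRep)) := by
  classical
  have hw := ext_na v w hvw
  have hne : e₂ - e₁ ≠ 0 := sub_ne_zero.2 (Ne.symm h.n12)
  have h2w : w (2 : AlgebraicClosure K) = 1 := by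
    rw [← map_ofNat (algebraMap K (AlgebraicClosure K)) 2, hvw]; exact h2
  have h3w : w (3 : AlgebraicClosure K) = 1 := by
    rw [← map_ofNat (algebraMap K (AlgebraicClosure K)) 3, hvw]; exact h3
  have h4w : w (4 : AlgebraicClosure K) = 1 := by
    rw [show (4 : AlgebraicClosure K) = 2 * 2 by norm_num, map_mul, h2w, one_mul]
  have h16w : w (16 : AlgebraicClosure K) = 1 := by
    rw [show (16 : AlgebraicClosure K) = 4 * 4 by norm_num, map_mul, h4w, one_mul]
  obtain ⟨ρ, hρd⟩ : ∃ ρ : ℝ, ρ = w (e₂ - e₁) := ⟨_, rfl⟩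
  have hρ : 0 < ρ := hρd ▸ w.pos hne
  have d12 : w (e₂ - e₁) = ρ := hρd.symm
  have d13 : w (e₃ - e₁) = ρ := by
    rw [map_div₀, div_eq_one_iff_eq (w.ne_zero hne)] at hl
    rw [hl, d12]
  have d23 : w (e₂ - e₃) = ρ := by
    have e1 : 1 - (e₃ - e₁) / (e₂ - e₁) = (e₂ - e₃) / (e₂ - e₁) := by field_simp; ring
    rw [e1, map_div₀, div_eq_one_iff_eq (w.ne_zero hne)] at hl'
    rw [hl', d12]
  have d21 : w (e₁ - e₂) = ρ := by rw [← AbsoluteValue.map_neg, neg_sub]; exact d12
  have d31 : w (e₁ - e₃) = ρ := by rw [← AbsoluteValue.map_neg, neg_sub]; exact d13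
  have hΔρ : ρ ^ 6 = v.val W.Δ := by
    rw [← hvw, disc_roots h, map_mul, map_mul, map_mul, map_pow, map_pow, map_pow, h16w, d12,
      d13, d23]
    ring
  -- the centre
  set s : K := -W.b₂ / 12 with hs
  have hsL : algebraMap K (AlgebraicClosure K) s = (e₁ + e₂ + e₃) / 3 := by
    rw [hs, map_div₀, map_neg, map_ofNat, h.h2]
    field_simp
    ring
  have hcen : w (algebraMap K (AlgebraicClosure K) s - e₁) ≤ ρ := by
    have e1 : 3 * (algebraMap K (AlgebraicClosure K) s - e₁) = (e₂ - e₁) - (e₁ - e₃) := by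
      rw [hsL]; field_simp; ring
    have e2 := congrArg w e1
    rw [map_mul, h3w, one_mul] at e2
    rw [e2]
    exact na_sub hw d12.le d31.le
  -- distances
  have hdist : ∀ x y : K, w (algebraMap K (AlgebraicClosure K) x -
      algebraMap K (AlgebraicClosure K) y) = v.val (x - y) := fun x y => by
    rw [← map_sub, hvw]
  have hbigeq : ∀ x : K, ρ < v.val (x - s) →
      w (algebraMap K (AlgebraicClosure K) x - e₁) = v.val (x - s) := by
    intro x hx
    have e1 : algebraMap K (AlgebraicClosure K) x - e₁ = algebraMap K (AlgebraicClosure K) (x - s) +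
        (algebraMap K (AlgebraicClosure K) s - e₁) := by rw [map_sub]; ring
    rw [e1, na_eq hw (by rw [hvw]; exact lt_of_le_of_lt hcen hx), hvw]
  have hsmall : ∀ x : K, v.val (x - s) ≤ ρ →
      w (algebraMap K (AlgebraicClosure K) x - e₁) ≤ ρ := by
    intro x hx
    have e1 : algebraMap K (AlgebraicClosure K) x - e₁ = algebraMap K (AlgebraicClosure K) (x - s) +
        (algebraMap K (AlgebraicClosure K) s - e₁) := by rw [map_sub]; ring
    rw [e1]
    exact (hw _ _).trans (max_le (by rw [hvw]; exact hx) hcen)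
  -- values of `lam`
  have hnrm : ∀ x : K, nrm w (Psi e₁ e₂ (vL K ![x, 1])) =
      max (w (algebraMap K (AlgebraicClosure K) x - e₁) / ρ) 1 := by
    intro x
    simp [nrm, Psi, vL, map_div₀, d12]
  have hnrmi : nrm w (Psi e₁ e₂ (vL K ![1, 0])) = 1 / ρ := by
    have : (0 : ℝ) ≤ 1 / ρ := by positivity
    simp [nrm, Psi, vL, d12, hρ.le]
  have hwd : ∀ p q : Fin 2 → K, w (wd (Psi e₁ e₂ (vL K p)) (Psi e₁ e₂ (vL K q))) =
      v.val (wd p q) / ρ := by
    intro p q
    rw [wd_Psi, map_div₀, d12, F4_wd, hvw]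
  have hAff : ∀ x y : K, x ≠ y → w (algebraMap K (AlgebraicClosure K) x - e₁) ≤ ρ →
      w (algebraMap K (AlgebraicClosure K) y - e₁) ≤ ρ → v.val (x - y) < ρ →
      Real.log (NF.Nm v) / 6 ≤
        lam w (Psi e₁ e₂ (vL K ![x, 1])) (Psi e₁ e₂ (vL K ![y, 1])) := by
    intro x y hxy hx hy hd
    have hx1 : nrm w (Psi e₁ e₂ (vL K ![x, 1])) = 1 := by
      rw [hnrm, max_eq_right]; rw [div_le_one hρ]; exact hx
    have hy1 : nrm w (Psi e₁ e₂ (vL K ![y, 1])) = 1 := by
      rw [hnrm, max_eq_right]; rw [div_le_one hρ]; exact hy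
    have hwd' : wd ![x, 1] ![y, 1] = x - y := by simp [wd]
    unfold lam
    rw [hx1, hy1, hwd, hwd', Real.log_one,
      Real.log_div (v.val.pos (sub_ne_zero.2 hxy)).ne' hρ.ne']
    have hg := gap v (sub_ne_zero.2 hxy) hΔ hρ hΔρ hd.ne
    have hlt := Real.log_lt_log (v.val.pos (sub_ne_zero.2 hxy)) hd
    rw [abs_of_neg (by linarith)] at hg
    linarith
  have hBig1 : ∀ x : K, ρ < v.val (x - s) →
      Real.log (NF.Nm v) / 6 ≤ Real.log (v.val (x - s)) - Real.log ρ ∧
      Real.log (nrm w (Psi e₁ e₂ (vL K ![x, 1]))) = Real.log (v.val (x - s)) - Real.log ρ := by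
    intro x hx
    have hx0 : x - s ≠ 0 := by
      intro h0
      rw [h0, map_zero] at hx
      linarith
    have hg := gap v hx0 hΔ hρ hΔρ hx.ne'
    have hlt := Real.log_lt_log hρ hx
    rw [abs_of_pos (by linarith)] at hg
    refine ⟨hg, ?_⟩
    rw [hnrm, hbigeq x hx, max_eq_left, Real.log_div (v.val.pos hx0).ne' hρ.ne']
    rw [le_div_iff₀ hρ, one_mul]; exact hx.le
  have hBig : ∀ x y : K, x ≠ y → ρ < v.val (x - s) → ρ < v.val (y - s) →
      Real.log (NF.Nm v) / 6 ≤
        lam w (Psi e₁ e₂ (vL K ![x, 1])) (Psi e₁ e₂ (vL K ![y, 1])) := by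
    intro x y hxy hx hy
    obtain ⟨gx, nx⟩ := hBig1 x hx
    obtain ⟨gy, ny⟩ := hBig1 y hy
    have hwd' : wd ![x, 1] ![y, 1] = x - y := by simp [wd]
    unfold lam
    rw [nx, ny, hwd, hwd', Real.log_div (v.val.pos (sub_ne_zero.2 hxy)).ne' hρ.ne']
    have hle : v.val (x - y) ≤ max (v.val (x - s)) (v.val (y - s)) := by
      have := na_sub (na_val v) (le_max_left (v.val (x - s)) (v.val (y - s)))
        (le_max_right (v.val (x - s)) (v.val (y - s)))
      rwa [sub_sub_sub_cancel_right] at this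
    have hlog := Real.log_le_log (v.val.pos (sub_ne_zero.2 hxy)) hle
    rcases max_choice (v.val (x - s)) (v.val (y - s)) with hm | hm <;> rw [hm] at hlog <;> linarith
  have hInf : ∀ y : K, ρ < v.val (y - s) → Real.log (NF.Nm v) / 6 ≤
      lam w (Psi e₁ e₂ (vL K ![1, 0])) (Psi e₁ e₂ (vL K ![y, 1])) ∧
      Real.log (NF.Nm v) / 6 ≤
      lam w (Psi e₁ e₂ (vL K ![y, 1])) (Psi e₁ e₂ (vL K ![1, 0])) := by
    intro y hy
    obtain ⟨gy, ny⟩ := hBig1 y hy
    have hwd1 : wd ![(1 : K), 0] ![y, 1] = 1 := by simp [wd]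
    have hwd2 : wd ![y, 1] ![(1 : K), 0] = -1 := by simp [wd]
    unfold lam
    rw [ny, hwd, hwd, hwd1, hwd2, AbsoluteValue.map_neg, map_one, hnrmi]
    constructor <;> linarith
  -- the cells
  let A : W.toAffine.Point → Prop := fun P => P.xRep 1 = 0 ∨ ρ < v.val (P.xRep 0 - s)
  let Bs : W.toAffine.Point → Prop := fun P => v.val (P.xRep 0 - s) < ρ
  let C1 : W.toAffine.Point → Prop := fun P =>
    w (algebraMap K (AlgebraicClosure K) (P.xRep 0) - e₁) < ρ
  let C2 : W.toAffine.Point → Prop := fun P =>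
    w (algebraMap K (AlgebraicClosure K) (P.xRep 0) - e₂) < ρ
  have hpt : ∀ P : W.toAffine.Point, P.xRep = ![1, 0] ∨ ∃ x : K, P.xRep = ![x, 1] ∧
      ∃ m : K, algebraMap K (AlgebraicClosure K) m ^ 2 =
      4 * ((algebraMap K (AlgebraicClosure K) x - e₁) * (algebraMap K (AlgebraicClosure K) x - e₂) *
        (algebraMap K (AlgebraicClosure K) x - e₃)) := by
    intro P
    rcases P with _ | ⟨x, y, hP⟩
    · left; rfl
    · right
      refine ⟨x, WeierstrassCurve.Affine.Point.xRep_some hP, _, curve_roots h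
        ((WeierstrassCurve.Affine.equation_iff x y).1 hP.1)⟩
  -- the last cell
  have hlast : ∀ P : W.toAffine.Point, ¬ A P → ¬ Bs P → ¬ C1 P → ¬ C2 P →
      w (algebraMap K (AlgebraicClosure K) (P.xRep 0) - e₃) < ρ := by
    intro P hA hB h1 h2'
    rcases hpt P with hP | ⟨x, hP, m, hm⟩
    · exact (hA (Or.inl (by rw [hP]; rfl))).elim
    · simp only [A, Bs, C1, C2, hP, Matrix.cons_val_zero, not_or, not_lt] at hA hB h1 h2' ⊢
      by_contra hcon
      push Not at hcon
      have hxs : v.val (x - s) = ρ := le_antisymm hA.2 hB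
      have b1 : w (algebraMap K (AlgebraicClosure K) x - e₁) = ρ :=
        le_antisymm (hsmall x hxs.le) h1
      have b2 : w (algebraMap K (AlgebraicClosure K) x - e₂) = ρ := by
        refine le_antisymm ?_ h2'
        have := na_sub hw b1.le d12.le
        rwa [sub_sub_sub_cancel_right] at this
      have b3 : w (algebraMap K (AlgebraicClosure K) x - e₃) = ρ := by
        refine le_antisymm ?_ hcon
        have := na_sub hw b1.le d13.le
        rwa [sub_sub_sub_cancel_right] at this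
      have hm' := congrArg w hm
      rw [map_pow, map_mul, map_mul, map_mul, h4w, b1, b2, b3, hvw] at hm'
      apply hadd (m / (x - s))
      rw [map_div₀, hxs, ← hΔρ, div_pow, eq_div_iff (by positivity)]
      have : v.val m ^ 12 = (v.val m ^ 2) ^ 6 := by ring
      rw [this, hm']
      ring
  refine ⟨fun P => if A P then 0 else if Bs P then 1 else if C1 P then 2 else if C2 P then 3
    else 4, fun P Q hPQ hc => ?_⟩
  have haff : ∀ P : W.toAffine.Point, ¬ A P → ∃ x : K, P.xRep = ![x, 1] ∧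
      v.val (x - s) ≤ ρ := by
    intro P hA
    rcases hpt P with hP | ⟨x, hP, -⟩
    · exact (hA (Or.inl (by rw [hP]; rfl))).elim
    · refine ⟨x, hP, ?_⟩
      simp only [A, hP, Matrix.cons_val_zero, not_or, not_lt] at hA
      exact hA.2
  by_cases hAP : A P
  · have hAQ : A Q := by
      by_contra hAQ
      simp only [hAP, hAQ, if_true, if_false] at hc
      split_ifs at hc <;> simp at hc
    rcases hpt P with hP | ⟨x, hP, -⟩ <;> rcases hpt Q with hQ | ⟨y, hQ, -⟩
    · exact (hPQ (hP.trans hQ.symm)).elim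
    · rw [hP, hQ]
      simp only [A, hQ, Matrix.cons_val_zero, Matrix.cons_val_one, Matrix.cons_val_fin_one,
        one_ne_zero, false_or] at hAQ
      exact (hInf y hAQ).1
    · rw [hP, hQ]
      simp only [A, hP, Matrix.cons_val_zero, Matrix.cons_val_one, Matrix.cons_val_fin_one,
        one_ne_zero, false_or] at hAP
      exact (hInf x hAP).2
    · rw [hP, hQ]
      simp only [A, hP, Matrix.cons_val_zero, Matrix.cons_val_one, Matrix.cons_val_fin_one,
        one_ne_zero, false_or] at hAP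
      simp only [A, hQ, Matrix.cons_val_zero, Matrix.cons_val_one, Matrix.cons_val_fin_one,
        one_ne_zero, false_or] at hAQ
      refine hBig x y ?_ hAP hAQ
      rintro rfl
      exact hPQ (hP.trans hQ.symm)
  · have hAQ : ¬ A Q := by
      intro hAQ
      simp only [hAP, hAQ, if_true, if_false] at hc
      split_ifs at hc <;> simp at hc
    obtain ⟨x, hP, hx⟩ := haff P hAP
    obtain ⟨y, hQ, hy⟩ := haff Q hAQ
    have hxy : x ≠ y := by
      rintro rfl
      exact hPQ (hP.trans hQ.symm)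
    have key : v.val (x - y) < ρ → Real.log (NF.Nm v) / 6 ≤
        lam w (Psi e₁ e₂ (vL K P.xRep)) (Psi e₁ e₂ (vL K Q.xRep)) := by
      intro hd
      rw [hP, hQ]
      exact hAff x y hxy (hsmall x hx) (hsmall y hy) hd
    apply key
    have hsub : ∀ e : AlgebraicClosure K, w (algebraMap K (AlgebraicClosure K) x - e) < ρ →
        w (algebraMap K (AlgebraicClosure K) y - e) < ρ → v.val (x - y) < ρ := by
      intro e h1 h2
      have := na_sub_lt hw h1 h2
      rwa [sub_sub_sub_cancel_right, hdist] at this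
    have hP0 : P.xRep 0 = x := by rw [hP]; rfl
    have hQ0 : Q.xRep 0 = y := by rw [hQ]; rfl
    by_cases hBP : Bs P
    · have hBQ : Bs Q := by
        by_contra hBQ
        simp only [hAP, hAQ, hBP, hBQ, if_true, if_false] at hc
        split_ifs at hc <;> simp at hc
      have := na_sub_lt (na_val v) hBP hBQ
      rwa [sub_sub_sub_cancel_right, hP0, hQ0] at this
    · have hBQ : ¬ Bs Q := by
        intro hBQ
        simp only [hAP, hAQ, hBP, hBQ, if_true, if_false] at hc
        split_ifs at hc <;> simp at hc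
      by_cases h1P : C1 P
      · have h1Q : C1 Q := by
          by_contra h1Q
          simp only [hAP, hAQ, hBP, hBQ, h1P, h1Q, if_true, if_false] at hc
          split_ifs at hc <;> simp at hc
        refine hsub e₁ ?_ ?_
        · rw [← hP0]; exact h1P
        · rw [← hQ0]; exact h1Q
      · have h1Q : ¬ C1 Q := by
          intro h1Q
          simp only [hAP, hAQ, hBP, hBQ, h1P, h1Q, if_true, if_false] at hc
          split_ifs at hc <;> simp at hc
        by_cases h2P : C2 P
        · have h2Q : C2 Q := by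
            by_contra h2Q
            simp only [hAP, hAQ, hBP, hBQ, h1P, h1Q, h2P, h2Q, if_true, if_false] at hc
            simp at hc
          refine hsub e₂ ?_ ?_
          · rw [← hP0]; exact h2P
          · rw [← hQ0]; exact h2Q
        · have h2Q : ¬ C2 Q := by
            intro h2Q
            simp only [hAP, hAQ, hBP, hBQ, h1P, h1Q, h2P, h2Q, if_true, if_false] at hc
            simp at hc
          refine hsub e₃ ?_ ?_
          · rw [← hP0]; exact hlast P hAP hBP h1P h2P
          · rw [← hQ0]; exact hlast Q hAQ hBQ h1Q h2Q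

end gain

end TH951.LS
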