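import Mathlib
import Pool.Agent.TH951.LS.EC

/-! Lower bounds for the canonical height on elliptic curves with nearly `S`-integral `j`. -/

set_option autoImplicit false

open Height NumberField Module Finset Pool.Agent.H951R3.PB Filter Topology

namespace TH951.LS

universe u

section transfer

variable {K L : Type u} [Field K] [NumberField K] [Field L] [NumberField L] [Algebra K L]

/-- vectors over the extension -/
def up (v : Fin 2 → K) : Fin 2 → L := fun i => algebraMap K L (v i)

omit [NumberField K] [NumberField L] in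
theorem up_smul (c : K) (v : Fin 2 → K) : (up (c • v) : Fin 2 → L) = algebraMap K L c • up v := by
  funext i
  simp [up]

omit [NumberField K] [NumberField L] in
theorem up_dW (W : WeierstrassCurve K) (v : Fin 2 → K) :
    (up (dW W v) : Fin 2 → L) =
    ![up v 0 ^ 4 - algebraMap K L W.b₄ * up v 0 ^ 2 * up v 1 ^ 2 -
        2 * algebraMap K L W.b₆ * up v 0 * up v 1 ^ 3 - algebraMap K L W.b₈ * up v 1 ^ 4,
      4 * up v 0 ^ 3 * up v 1 + algebraMap K L W.b₂ * up v 0 ^ 2 * up v 1 ^ 2 +
        2 * algebraMap K L W.b₄ * up v 0 * up v 1 ^ 3 + algebraMap K L W.b₆ * up v 1 ^ 4] := by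
  funext i
  fin_cases i <;> simp [up, dW, map_ofNat]

theorem logHeight_Psi_le (e₁ e₂ : L) : ∃ C : ℝ, ∀ v : Fin 2 → L,
    logHeight (Psi e₁ e₂ v) ≤ C + logHeight v := by
  let A : Fin 2 × Fin 2 → L := fun p =>
    if p = (0, 0) then 1 / (e₂ - e₁) else if p = (0, 1) then -e₁ / (e₂ - e₁) else
      if p = (1, 0) then 0 else 1
  refine ⟨totalWeight L * Real.log (Nat.card (Fin 2)) + logHeight A, fun v => ?_⟩
  have h := logHeight_linearMap_apply_le A v
  refine le_trans (le_of_eq ?_) h
  congr 1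
  funext i
  fin_cases i
  · simp [Psi, A]; ring
  · simp [Psi, A]

theorem logHeight_Psi_ge {e₁ e₂ : L} (hne : e₂ - e₁ ≠ 0) : ∃ C : ℝ, ∀ v : Fin 2 → L,
    logHeight v ≤ C + logHeight (Psi e₁ e₂ v) := by
  let A : Fin 2 × Fin 2 → L := fun p =>
    if p = (0, 0) then (e₂ - e₁) else if p = (0, 1) then e₁ else
      if p = (1, 0) then 0 else 1
  refine ⟨totalWeight L * Real.log (Nat.card (Fin 2)) + logHeight A, fun v => ?_⟩
  have h := logHeight_linearMap_apply_le A (Psi e₁ e₂ v)
  refine le_trans (le_of_eq ?_) h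
  congr 1
  funext i
  fin_cases i
  · simp only [Psi, A, Fin.sum_univ_two, Fin.zero_eta, Fin.isValue, Prod.mk.injEq, one_ne_zero,
      and_false, if_true, if_false, Matrix.cons_val_zero, Matrix.cons_val_one,
      Matrix.cons_val_fin_one, and_true]
    field_simp
    ring
  · simp [Psi, A]

theorem abs_Psi {e₁ e₂ : L} (hne : e₂ - e₁ ≠ 0) : ∃ C : ℝ, ∀ v : Fin 2 → L,
    |logHeight (Psi e₁ e₂ v) - logHeight v| ≤ C := by
  obtain ⟨C1, h1⟩ := logHeight_Psi_le e₁ e₂
  obtain ⟨C2, h2⟩ := logHeight_Psi_ge hne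
  refine ⟨max C1 C2, fun v => abs_sub_le_iff.2 ⟨?_, ?_⟩⟩
  · linarith [h1 v, le_max_left C1 C2]
  · linarith [h2 v, le_max_right C1 C2]

variable [DecidableEq K] (W : WeierstrassCurve K) {e₁ e₂ e₃ : L}

omit [NumberField K] in
theorem iter_leg (h : Roots (algebraMap K L W.b₂) (algebraMap K L W.b₄)
      (algebraMap K L W.b₆) (algebraMap K L W.b₈) e₁ e₂ e₃) (Q : W.toAffine.Point) (n : ℕ) :
    ∃ c : L, c ≠ 0 ∧ (ev (leg ((e₃ - e₁) / (e₂ - e₁))))^[n] (Psi e₁ e₂ (up Q.xRep)) =
      c • Psi e₁ e₂ (up (2 ^ n • Q).xRep) := by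
  have hne : e₂ - e₁ ≠ 0 := sub_ne_zero.2 (Ne.symm h.n12)
  induction n with
  | zero => exact ⟨1, one_ne_zero, by simp⟩
  | succ n ih =>
    obtain ⟨c, hc, hn⟩ := ih
    obtain ⟨a, ha, hdup⟩ := dup W (2 ^ n • Q)
    rw [Function.iterate_succ_apply', hn, leg_smul]
    have h1 := leg_Psi h (up (2 ^ n • Q).xRep)
    rw [← up_dW, hdup, up_smul, Psi_smul, smul_smul, ← pow_succ'] at h1
    have ha' : algebraMap K L a ≠ 0 := by simpa using ha
    refine ⟨c ^ 4 * (((e₂ - e₁) ^ 3)⁻¹ * algebraMap K L a), by positivity, ?_⟩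
    rw [mul_smul, mul_smul, h1, smul_smul ((e₂ - e₁) ^ 3)⁻¹, inv_mul_cancel₀ (by positivity),
      one_smul]

theorem tendsto_height (h : Roots (algebraMap K L W.b₂) (algebraMap K L W.b₄)
      (algebraMap K L W.b₆) (algebraMap K L W.b₈) e₁ e₂ e₃) (Q : W.toAffine.Point) :
    Tendsto (fun n : ℕ => logHeight ((2 ^ n • Q).xRep) / (4 ^ n * finrank ℚ K)) atTop
      (𝓝 (hcan 4 (leg ((e₃ - e₁) / (e₂ - e₁))) (Psi e₁ e₂ (up Q.xRep)) / finrank ℚ L)) := by
  have hne : e₂ - e₁ ≠ 0 := sub_ne_zero.2 (Ne.symm h.n12)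
  have h0 : (e₃ - e₁) / (e₂ - e₁) ≠ 0 := div_ne_zero (sub_ne_zero.2 (Ne.symm h.n13)) hne
  have h1 : (e₃ - e₁) / (e₂ - e₁) ≠ 1 := by
    intro h'
    rw [div_eq_one_iff_eq hne] at h'
    exact h.n23 (by linear_combination -h')
  have hP0 : ∀ v : Fin 2 → K, v ≠ 0 → Psi e₁ e₂ (up v) ≠ 0 := by
    intro v hv h'
    apply hv
    have a1 : algebraMap K L (v 1) = 0 := by
      have := congrFun h' 1
      simpa [Psi, up] using this
    have a2 : v 1 = 0 := by simpa using a1
    have a3 : (algebraMap K L (v 0) - e₁ * algebraMap K L (v 1)) / (e₂ - e₁) = 0 := by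
      have := congrFun h' 0
      simpa only [Psi, up, Matrix.cons_val_zero, Pi.zero_apply] using this
    rw [a1, mul_zero, sub_zero, div_eq_zero_iff] at a3
    have a4 : algebraMap K L (v 0) = 0 := a3.resolve_right hne
    have a5 : v 0 = 0 := by simpa using a4
    funext i
    fin_cases i
    · exact a5
    · exact a2
  have hlim := hcan_tendsto (by norm_num : 2 ≤ 4) (leg_hom ((e₃ - e₁) / (e₂ - e₁)))
    (leg_rs h0 h1) (hP0 Q.xRep (WeierstrassCurve.Affine.Point.xRep_ne_zero Q))
  obtain ⟨C, hC⟩ := abs_Psi hne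
  have hd : (0 : ℝ) < finrank ℚ K := by exact_mod_cast (finrank_pos : 0 < finrank ℚ K)
  have hL : (0 : ℝ) < finrank ℚ L := by exact_mod_cast (finrank_pos : 0 < finrank ℚ L)
  have hmul : (finrank ℚ L : ℝ) = finrank ℚ K * finrank K L := by
    exact_mod_cast (finrank_mul_finrank ℚ K L).symm
  have he : (0 : ℝ) < finrank K L := by
    by_contra hcon
    push Not at hcon
    nlinarith
  set hc := hcan 4 (leg ((e₃ - e₁) / (e₂ - e₁))) (Psi e₁ e₂ (up Q.xRep)) with hhc
  -- the error term
  have herr : Tendsto (fun n : ℕ => (finrank K L : ℝ) * logHeight ((2 ^ n • Q).xRep) / 4 ^ n -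
      logHeight ((ev (leg ((e₃ - e₁) / (e₂ - e₁))))^[n] (Psi e₁ e₂ (up Q.xRep))) /
        ((4 : ℕ) : ℝ) ^ n) atTop (𝓝 0) := by
    have h4 : Tendsto (fun n : ℕ => C / (4 : ℝ) ^ n) atTop (𝓝 0) :=
      tendsto_const_nhds.div_atTop (tendsto_pow_atTop_atTop_of_one_lt (by norm_num))
    refine squeeze_zero_norm (fun n => ?_) h4
    obtain ⟨c, hc0, hn⟩ := iter_leg W h Q n
    rw [hn, logHeight_smul_eq_logHeight _ hc0]
    have h5 : logHeight (up (2 ^ n • Q).xRep : Fin 2 → L) =
        finrank K L * logHeight ((2 ^ n • Q).xRep) :=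
      Pool.Agent.Helper259.HtExt.logHeight_ext (L := L) _
    rw [← h5]
    push_cast
    rw [← sub_div, Real.norm_eq_abs, abs_div, abs_of_pos (by positivity : (0 : ℝ) < 4 ^ n)]
    refine div_le_div_of_nonneg_right ?_ (by positivity)
    rw [abs_sub_comm]
    exact hC _
  have h6 := (herr.add hlim).div_const (finrank ℚ L : ℝ)
  rw [zero_add] at h6
  refine h6.congr fun n => ?_
  rw [sub_add_cancel, hmul]
  field_simp

end transfer

/-- a torsion point has height zero -/
theorem torsion_lim {K : Type u} [Field K] [NumberField K] [DecidableEq K]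
    (W : WeierstrassCurve K) {Q : W.toAffine.Point} {m : ℕ} (hm : 0 < m) (hQ : m • Q = 0) {h : ℝ}
    (hlim : Tendsto (fun n : ℕ => logHeight ((2 ^ n • Q).xRep) / (4 ^ n * finrank ℚ K)) atTop
      (𝓝 h)) : h = 0 := by
  have hd : (0 : ℝ) < finrank ℚ K := by exact_mod_cast (finrank_pos : 0 < finrank ℚ K)
  obtain ⟨C, hC⟩ : ∃ C : ℝ, ∀ n : ℕ, |logHeight ((n • Q).xRep)| ≤ C := by
    refine ⟨∑ i ∈ range m, |logHeight ((i • Q).xRep)|, fun n => ?_⟩
    have h1 : n • Q = (n % m) • Q := by
      conv_lhs => rw [← Nat.div_add_mod n m]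
      rw [add_nsmul, mul_comm, mul_nsmul', hQ, nsmul_zero, zero_add]
    rw [h1]
    exact Finset.single_le_sum (f := fun i => |logHeight ((i • Q).xRep)|)
      (fun i _ => abs_nonneg _) (Finset.mem_range.2 (Nat.mod_lt n hm))
  have h4 : Tendsto (fun n : ℕ => C / finrank ℚ K / (4 : ℝ) ^ n) atTop (𝓝 0) :=
    tendsto_const_nhds.div_atTop (tendsto_pow_atTop_atTop_of_one_lt (by norm_num))
  have h5 : Tendsto (fun n : ℕ => logHeight ((2 ^ n • Q).xRep) / (4 ^ n * finrank ℚ K)) atTop
      (𝓝 0) := by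
    refine squeeze_zero_norm (fun n => ?_) h4
    rw [Real.norm_eq_abs, abs_div, abs_of_pos (by positivity : (0 : ℝ) < 4 ^ n * finrank ℚ K),
      div_div, mul_comm ((finrank ℚ K : ℝ))]
    exact div_le_div_of_nonneg_right (hC _) (by positivity)
  exact tendsto_nhds_unique hlim h5

/-- **Main theorem**. -/
theorem main (D : ℕ) : ∃ (N : ℕ) (c δ : ℝ), 0 < c ∧ 0 < δ ∧ ∀ M : ℕ, M ≠ 0 → ∃ A : ℝ,
    ∀ (K : Type u) [Field K] [NumberField K] [DecidableEq K], finrank ℚ K ≤ D →
    ∀ (W : WeierstrassCurve K) [W.IsElliptic] (b k : ℕ), 0 < b →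
    IsIntegral ℤ ((b : K) * (M : K) ^ k * W.j) →
    Real.log b ≤ δ * (logHeight₁ W.j / finrank ℚ K) → A < logHeight₁ W.j / finrank ℚ K →
    ∀ P : W.toAffine.Point, ∃ h : ℝ,
      Tendsto (fun n : ℕ => logHeight ((2 ^ n • P).xRep) / (4 ^ n * finrank ℚ K)) atTop (𝓝 h) ∧
      ((∃ n : ℕ, 0 < n ∧ n ≤ N ∧ n • P = 0) ∨ c * (logHeight₁ W.j / finrank ℚ K) ≤ h) := by
  obtain ⟨N, c, δ, hc, hδ, hcore⟩ := core_leg.{u} (27 * D)
  refine ⟨2 * N + 1, c / 4 ^ N, δ, by positivity, hδ, ?_⟩
  intro M hM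
  obtain ⟨A, hA, hcore⟩ := hcore M hM
  refine ⟨A, ?_⟩
  intro K _ _ _ hKD W _ b k hb hint hbδ hAj P
  classical
  obtain ⟨L, _, _, _, hLK, e₁, e₂, e₃, hR⟩ := exists_roots K W
  have hne : e₂ - e₁ ≠ 0 := sub_ne_zero.2 (Ne.symm hR.n12)
  have h0 : (e₃ - e₁) / (e₂ - e₁) ≠ 0 := div_ne_zero (sub_ne_zero.2 (Ne.symm hR.n13)) hne
  have h1 : (e₃ - e₁) / (e₂ - e₁) ≠ 1 := by
    intro h'
    rw [div_eq_one_iff_eq hne] at h'
    exact hR.n23 (by linear_combination -h')
  set l := (e₃ - e₁) / (e₂ - e₁) with hl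
  have hj := j_roots W hR
  have hd : (0 : ℝ) < finrank ℚ K := by exact_mod_cast (finrank_pos : 0 < finrank ℚ K)
  have hL : (0 : ℝ) < finrank ℚ L := by exact_mod_cast (finrank_pos : 0 < finrank ℚ L)
  have hmulN : finrank ℚ L = finrank ℚ K * finrank K L := (finrank_mul_finrank ℚ K L).symm
  have hmul : (finrank ℚ L : ℝ) = finrank ℚ K * finrank K L := by exact_mod_cast hmulN
  have heN : 1 ≤ finrank K L := by
    rcases Nat.eq_zero_or_pos (finrank K L) with h | h
    · rw [h, mul_zero] at hmulN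
      have : 0 < finrank ℚ L := finrank_pos
      omega
    · exact h
  have he : (1 : ℝ) ≤ finrank K L := by exact_mod_cast heN
  have hd1 : (1 : ℝ) ≤ finrank ℚ K := by exact_mod_cast (finrank_pos : 0 < finrank ℚ K)
  have hLD : finrank ℚ L ≤ 27 * D := by
    rw [hmulN, mul_comm]
    exact Nat.mul_le_mul hLK hKD
  -- the height of `j`
  have hjh : logHeight₁ (algebraMap K L W.j) = finrank ℚ L * (logHeight₁ W.j / finrank ℚ K) := by
    have e1 : logHeight₁ (algebraMap K L W.j) = finrank K L * logHeight₁ W.j := by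
      rw [FE.logHeight₁_pair, FE.logHeight₁_pair,
        ← Pool.Agent.Helper259.HtExt.logHeight_ext (L := L)]
      congr 1
      funext i
      fin_cases i
      · rfl
      · exact (map_one _).symm
    rw [e1, hmul]
    field_simp
  set H := logHeight₁ W.j / finrank ℚ K with hH
  have hH0 : 0 < H := lt_of_le_of_lt hA hAj
  have hint' : IsIntegral ℤ ((b : L) * (M : L) ^ k * algebraMap K L W.j) := by
    have := hint.map (algebraMap K L).toIntAlgHom
    simpa using this
  have hbδ' : finrank ℚ L * Real.log b ≤ δ * logHeight₁ (algebraMap K L W.j) := by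
    rw [hjh]
    have := mul_le_mul_of_nonneg_left hbδ hL.le
    linarith
  have hAj' : A < logHeight₁ (algebraMap K L W.j) := by
    rw [hjh]
    have h2 : (1 : ℝ) ≤ finrank ℚ L := by exact_mod_cast (finrank_pos : 0 < finrank ℚ L)
    nlinarith
  have hlim := fun Q : W.toAffine.Point => tendsto_height (L := L) W hR Q
  set ht : W.toAffine.Point → ℝ := fun Q => hcan 4 (leg l) (Psi e₁ e₂ (up Q.xRep)) /
    finrank ℚ L with hht
  have hlim' : ∀ Q : W.toAffine.Point, Tendsto (fun n : ℕ => logHeight ((2 ^ n • Q).xRep) /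
    (4 ^ n * finrank ℚ K)) atTop (𝓝 (ht Q)) := hlim
  refine ⟨ht P, hlim' P, ?_⟩
  -- nonnegativity
  have hnn : ∀ Q, 0 ≤ ht Q := fun Q => by
    refine ge_of_tendsto' (hlim' Q) fun n => ?_
    have : 0 ≤ logHeight ((2 ^ n • Q).xRep) := by
      rw [logHeight_eq_log_mulHeight]
      exact Real.log_nonneg (one_le_mulHeight _)
    positivity
  -- doubling
  have hdbl : ∀ Q, ht (2 • Q) = 4 * ht Q := by
    intro Q
    have e1 := (hlim' (2 • Q))
    have e2 := ((tendsto_add_atTop_iff_nat 1).2 (hlim' Q)).const_mul 4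
    refine tendsto_nhds_unique e1 (e2.congr fun n => ?_)
    rw [← mul_nsmul', ← pow_succ, pow_succ (4 : ℝ)]
    field_simp
  have hpow : ∀ (k : ℕ) (Q : W.toAffine.Point), ht (2 ^ k • Q) = 4 ^ k * ht Q := by
    intro k Q
    induction k with
    | zero => simp
    | succ k ih => rw [pow_succ', mul_nsmul', hdbl, ih, pow_succ']; ring
  -- the points
  have hmain : ∀ Q : Fin N → W.toAffine.Point, (∀ i k, i ≠ k → (Q i).xRep ≠ (Q k).xRep) →
      ∃ i, c * H ≤ ht (Q i) := by
    intro Q hQ
    let f : Fin N → (Fin 2 → L) := fun i => Psi e₁ e₂ (up (Q i).xRep)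
    have hwd : ∀ i k, i ≠ k → wd (f i) (f k) ≠ 0 := by
      intro i k hik
      have e1 := wd_xRep W (hQ i k hik)
      simp only [f]
      rw [wd_Psi]
      refine div_ne_zero ?_ hne
      have e2 : wd (up (Q i).xRep : Fin 2 → L) (up (Q k).xRep) =
          algebraMap K L (wd (Q i).xRep (Q k).xRep) := by
        simp [wd, up]
      rw [e2]
      simpa using e1
    have hinj : Function.Injective f := by
      intro i k hik
      by_contra hne'
      apply hwd i k hne'
      rw [hik]
      simp only [wd]; ring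
    obtain ⟨x, hx, hxc⟩ := hcore L hLD l h0 h1 (algebraMap K L W.j) hj b k hb hint' hbδ' hAj'
      (Finset.univ.image f) (by
        rw [Finset.card_image_of_injective _ hinj, Finset.card_univ, Fintype.card_fin])
      (by
        intro x hx
        obtain ⟨i, -, rfl⟩ := Finset.mem_image.1 hx
        simp only [f]
        intro h'
        have e1 := WeierstrassCurve.Affine.Point.xRep_ne_zero (Q i)
        apply e1
        have a1 : (Q i).xRep 1 = 0 := by
          have := congrFun h' 1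
          simpa [Psi, up] using this
        have a3 := congrFun h' 0
        simp only [Psi, up, Matrix.cons_val_zero, Pi.zero_apply, a1, map_zero, mul_zero,
          sub_zero] at a3
        rw [div_eq_zero_iff] at a3
        have a4 := a3.resolve_right hne
        have a5 : (Q i).xRep 0 = 0 := by simpa using a4
        funext i
        fin_cases i
        · exact a5
        · exact a1)
      (by
        intro x hx y hy hxy
        obtain ⟨i, -, rfl⟩ := Finset.mem_image.1 hx
        obtain ⟨k, -, rfl⟩ := Finset.mem_image.1 hy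
        exact hwd i k fun h => hxy (by rw [h]))
    obtain ⟨i, -, rfl⟩ := Finset.mem_image.1 hx
    refine ⟨i, ?_⟩
    simp only [hht]
    rw [le_div_iff₀ hL]
    rw [hjh] at hxc
    simp only [f] at hxc
    linarith
  by_cases htor : ∃ n : ℕ, 0 < n ∧ n • P = 0
  · left
    by_contra hcon
    push Not at hcon
    obtain ⟨m, hm, hmP⟩ := htor
    obtain ⟨i, hi⟩ := hmain (fun i => ((i : ℕ) + 1) • P) (by
      intro i k hik h
      have h2 := WeierstrassCurve.Affine.Point.xRep_eq_xRep_iff.1 h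
      have hi := i.2
      have hk := k.2
      have key : ∀ a b : ℕ, a < b → b ≤ N → (a • P = b • P ∨ a • P = -(b • P)) → False := by
        intro a b hab hbN h3
        rcases h3 with h3 | h3
        · refine hcon (b - a) (by omega) (by omega) ?_
          have h4 : b • P = (b - a) • P + a • P := by rw [← add_nsmul]; congr 1; omega
          rw [h3] at h4
          exact (left_eq_add.1 (h4.trans (add_comm _ _)))
        · refine hcon (a + b) (by omega) (by omega) ?_
          rw [add_nsmul, h3, neg_add_cancel]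
      rcases lt_trichotomy (i : ℕ) (k : ℕ) with h3 | h3 | h3
      · exact key (i + 1) (k + 1) (by omega) (by omega) h2
      · exact hik (Fin.ext h3)
      · refine key (k + 1) (i + 1) (by omega) (by omega) ?_
        rcases h2 with h4 | h4
        · exact Or.inl h4.symm
        · right; rw [h4, neg_neg])
    have h3 := torsion_lim W hm (Q := ((i : ℕ) + 1) • P) (by
      rw [← mul_nsmul', mul_comm, mul_nsmul', hmP, nsmul_zero]) (hlim' _)
    rw [h3] at hi
    have : 0 < c * H := mul_pos hc hH0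
    linarith
  · right
    push Not at htor
    obtain ⟨i, hi⟩ := hmain (fun i => (2 ^ (i : ℕ)) • P) (by
      intro i k hik h
      have h2 := WeierstrassCurve.Affine.Point.xRep_eq_xRep_iff.1 h
      have key : ∀ a b : ℕ, a < b → ((2 ^ a : ℕ) • P = (2 ^ b : ℕ) • P ∨
          (2 ^ a : ℕ) • P = -((2 ^ b : ℕ) • P)) → False := by
        intro a b hab h3
        have hlt : 2 ^ a < 2 ^ b := Nat.pow_lt_pow_right (by norm_num) hab
        rcases h3 with h3 | h3
        · refine htor (2 ^ b - 2 ^ a) (by omega) ?_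
          have h4 : (2 ^ b : ℕ) • P = (2 ^ b - 2 ^ a : ℕ) • P + (2 ^ a : ℕ) • P := by
            rw [← add_nsmul]; congr 1; omega
          rw [h3] at h4
          exact (left_eq_add.1 (h4.trans (add_comm _ _)))
        · refine htor (2 ^ a + 2 ^ b) (by positivity) ?_
          rw [add_nsmul, h3, neg_add_cancel]
      rcases lt_trichotomy (i : ℕ) (k : ℕ) with h3 | h3 | h3
      · exact key i k h3 h2
      · exact hik (Fin.ext h3)
      · refine key k i h3 ?_
        rcases h2 with h4 | h4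
        · exact Or.inl h4.symm
        · right; rw [h4, neg_neg])
    simp only [hpow] at hi
    have h5 : (4 : ℝ) ^ (i : ℕ) * ht P ≤ 4 ^ N * ht P := by
      refine mul_le_mul_of_nonneg_right ?_ (hnn P)
      exact pow_le_pow_right₀ (by norm_num) i.2.le
    rw [div_mul_eq_mul_div, div_le_iff₀ (by positivity)]
    linarith

end TH951.LS
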