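import Mathlib

/-! Good reduction at places not above `2` and `3`. -/

set_option autoImplicit false

namespace TH951.LS

universe u

/-- good reduction: some Weierstrass equation has integral coefficients and unit discriminant -/
def GoodRed {K : Type u} [Field K] (v : AbsoluteValue K ℝ) (W : WeierstrassCurve K) : Prop :=
  ∃ C : WeierstrassCurve.VariableChange K, v (C • W).a₁ ≤ 1 ∧ v (C • W).a₂ ≤ 1 ∧
    v (C • W).a₃ ≤ 1 ∧ v (C • W).a₄ ≤ 1 ∧ v (C • W).a₆ ≤ 1 ∧ v (C • W).Δ = 1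

theorem goodRed_of {K : Type u} [Field K] [CharZero K] {v : AbsoluteValue K ℝ}
    (hv : IsNonarchimedean v) (h2 : v 2 = 1) (h3 : v 3 = 1) (W : WeierstrassCurve K)
    [W.IsElliptic] (hj : v W.j ≤ 1) {u : K} (hu : v W.Δ = v u ^ 12) : GoodRed v W := by
  have hΔ0 : W.Δ ≠ 0 := by rw [← W.coe_Δ']; exact W.Δ'.ne_zero
  have hu0 : u ≠ 0 := by
    rintro rfl
    rw [map_zero, zero_pow (by norm_num)] at hu
    exact hΔ0 ((v.eq_zero).1 hu)
  letI : Invertible (2 : K) := invertibleOfNonzero (by norm_num)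
  letI : Invertible (3 : K) := invertibleOfNonzero (by norm_num)
  set C₀ := W.toShortNF with hC₀
  have hs := W.toShortNF_spec
  rw [← hC₀] at hs
  have a1 : (C₀ • W).a₁ = 0 := hs.a₁
  have a2 : (C₀ • W).a₂ = 0 := hs.a₂
  have a3 : (C₀ • W).a₃ = 0 := hs.a₃
  let C₁ : WeierstrassCurve.VariableChange K :=
    ⟨Units.mk0 (u * (C₀.u⁻¹ : Kˣ)) (mul_ne_zero hu0 (Units.ne_zero _)), 0, 0, 0⟩
  have hCu : (((C₁ * C₀).u⁻¹ : Kˣ) : K) = u⁻¹ := by
    have e1 : (((C₁ * C₀).u : Kˣ) : K) = u := by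
      rw [WeierstrassCurve.VariableChange.mul_def]
      simp [C₁]
    rw [Units.val_inv_eq_inv_val, e1]
  have b1 : ((C₁ * C₀) • W).a₁ = 0 := by
    rw [mul_smul, WeierstrassCurve.variableChange_a₁, a1]; simp [C₁]
  have b2 : ((C₁ * C₀) • W).a₂ = 0 := by
    rw [mul_smul, WeierstrassCurve.variableChange_a₂, a1, a2]; simp [C₁]
  have b3 : ((C₁ * C₀) • W).a₃ = 0 := by
    rw [mul_smul, WeierstrassCurve.variableChange_a₃, a1, a3]; simp [C₁]
  have hvu : v u ≠ 0 := v.ne_zero hu0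
  have hD : v ((C₁ * C₀) • W).Δ = 1 := by
    rw [WeierstrassCurve.variableChange_Δ, hCu, map_mul, map_pow, map_inv₀, hu]
    field_simp
  have hc4 : v ((C₁ * C₀) • W).c₄ ≤ 1 := by
    have hjj : W.j * W.Δ = W.c₄ ^ 3 := by
      rw [WeierstrassCurve.j, ← W.coe_Δ', mul_comm, ← mul_assoc, Units.mul_inv, one_mul]
    have e1 : v ((C₁ * C₀) • W).c₄ ^ 3 = v W.j := by
      rw [WeierstrassCurve.variableChange_c₄, hCu, map_mul, map_pow, map_inv₀, mul_pow,
        ← map_pow v W.c₄, ← hjj, map_mul, hu]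
      field_simp
    by_contra hcon
    push Not at hcon
    have : 1 < v ((C₁ * C₀) • W).c₄ ^ 3 := one_lt_pow₀ hcon (by norm_num)
    linarith
  have h1728 : v (1728 : K) = 1 := by
    rw [show (1728 : K) = 2 ^ 6 * 3 ^ 3 by norm_num, map_mul, map_pow, map_pow, h2, h3]
    norm_num
  have hc6 : v ((C₁ * C₀) • W).c₆ ≤ 1 := by
    have hrel := ((C₁ * C₀) • W).c_relation
    have e1 : ((C₁ * C₀) • W).c₆ ^ 2 = ((C₁ * C₀) • W).c₄ ^ 3 +
        -(1728 * ((C₁ * C₀) • W).Δ) := by rw [hrel]; ring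
    have e2 : v ((C₁ * C₀) • W).c₆ ^ 2 ≤ 1 := by
      rw [← map_pow, e1]
      refine (hv _ _).trans (max_le ?_ ?_)
      · rw [map_pow]; exact pow_le_one₀ (v.nonneg _) hc4
      · rw [AbsoluteValue.map_neg, map_mul, h1728, hD, one_mul]
    by_contra hcon
    push Not at hcon
    have : 1 < v ((C₁ * C₀) • W).c₆ ^ 2 := one_lt_pow₀ hcon (by norm_num)
    linarith
  have h48 : v (48 : K) = 1 := by
    rw [show (48 : K) = 2 ^ 4 * 3 by norm_num, map_mul, map_pow, h2, h3]; norm_num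
  have h864 : v (864 : K) = 1 := by
    rw [show (864 : K) = 2 ^ 5 * 3 ^ 3 by norm_num, map_mul, map_pow, map_pow, h2, h3]; norm_num
  refine ⟨C₁ * C₀, ?_, ?_, ?_, ?_, ?_, hD⟩
  · rw [b1, map_zero]; exact zero_le_one
  · rw [b2, map_zero]; exact zero_le_one
  · rw [b3, map_zero]; exact zero_le_one
  · have e1 : ((C₁ * C₀) • W).c₄ = -(48 * ((C₁ * C₀) • W).a₄) := by
      rw [WeierstrassCurve.c₄, WeierstrassCurve.b₂, WeierstrassCurve.b₄, b1, b2, b3]; ring
    rw [e1, AbsoluteValue.map_neg, map_mul, h48, one_mul] at hc4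
    exact hc4
  · have e1 : ((C₁ * C₀) • W).c₆ = -(864 * ((C₁ * C₀) • W).a₆) := by
      rw [WeierstrassCurve.c₆, WeierstrassCurve.b₂, WeierstrassCurve.b₄, WeierstrassCurve.b₆, b1,
        b2, b3]; ring
    rw [e1, AbsoluteValue.map_neg, map_mul, h864, one_mul] at hc6
    exact hc6

end TH951.LS
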