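import Mathlib
import Pool.Agent.TH951.LS.Main
import Pool.Agent.TH951.LS.Add
import Pool.Agent.TH951.LS.Red

/-! Families of points, with all places of bad reduction. -/

set_option autoImplicit false

open Height NumberField Module Finset Pool.Agent.H951R3.PB Filter Topology

namespace TH951.LS

universe u

theorem ell_eq_zero {L : Type u} [Field L] {w : AbsoluteValue L ℝ} (hw : IsNonarchimedean w)
    {l : L} (h0 : l ≠ 0) (h1 : l ≠ 1) (h : ell w l ≤ 0) : w l = 1 ∧ w (1 - l) = 1 := by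
  have e1 : 0 ≤ max (Real.log (w l)) 0 := le_max_right _ _
  have e2 : 0 ≤ max (-Real.log (w l)) 0 := le_max_right _ _
  have e3 : 0 ≤ max (-Real.log (w (1 - l))) 0 := le_max_right _ _
  have f1 := le_max_left (Real.log (w l)) 0
  have f2 := le_max_left (-Real.log (w l)) 0
  have f3 := le_max_left (-Real.log (w (1 - l))) 0
  unfold ell at h
  have hl : w l = 1 := Real.eq_one_of_pos_of_log_eq_zero (w.pos h0) (by linarith)
  have hp : 0 < w (1 - l) := w.pos (sub_ne_zero.2 (Ne.symm h1))
  refine ⟨hl, le_antisymm ?_ ?_⟩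
  · have := hw 1 (-l)
    rw [← sub_eq_add_neg, AbsoluteValue.map_neg, map_one, hl, max_self] at this
    exact this
  · by_contra hcon
    push Not at hcon
    have := Real.log_neg hp hcon
    linarith

section K

variable {K : Type u} [Field K] [NumberField K] {W : WeierstrassCurve K} [W.IsElliptic]
  {e₁ e₂ e₃ : AlgebraicClosure K}

/-- the canonical height over `K` -/
theorem tendsto_K [DecidableEq K] (h : Roots (algebraMap K (AlgebraicClosure K) W.b₂)
    (algebraMap K (AlgebraicClosure K) W.b₄) (algebraMap K (AlgebraicClosure K) W.b₆)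
    (algebraMap K (AlgebraicClosure K) W.b₈) e₁ e₂ e₃) (Q : W.toAffine.Point) :
    Tendsto (fun n : ℕ => logHeight ((2 ^ n • Q).xRep) / (4 ^ n * finrank ℚ K)) atTop
      (𝓝 (hcan 4 (fW W) Q.xRep / finrank ℚ K)) := by
  have hlim := (hcan_tendsto (by norm_num : 2 ≤ 4) (fW_hom W) (fW_rs h)
    (WeierstrassCurve.Affine.Point.xRep_ne_zero Q)).div_const (finrank ℚ K : ℝ)
  have hit : ∀ n : ℕ, ∃ c : K, c ≠ 0 ∧ (ev (fW W))^[n] Q.xRep = c • (2 ^ n • Q).xRep := by
    intro n
    induction n with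
    | zero => exact ⟨1, one_ne_zero, by simp⟩
    | succ n ih =>
      obtain ⟨c, hc, hn⟩ := ih
      obtain ⟨a, ha, hdup⟩ := dup W (2 ^ n • Q)
      rw [smul_smul, ← pow_succ'] at hdup
      refine ⟨c ^ 4 * a, by positivity, ?_⟩
      rw [Function.iterate_succ_apply', hn, ev_fW, mul_smul, ← hdup]
      funext i
      fin_cases i
      · simp [dW]; ring
      · simp [dW]; ring
  refine hlim.congr fun n => ?_
  obtain ⟨c, hc, hn⟩ := hit n
  rw [hn, logHeight_smul_eq_logHeight _ hc, div_div]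
  push_cast
  rfl

omit [W.IsElliptic] in
theorem j_rootsK [W.IsElliptic] (h : Roots (algebraMap K (AlgebraicClosure K) W.b₂)
    (algebraMap K (AlgebraicClosure K) W.b₄) (algebraMap K (AlgebraicClosure K) W.b₆)
    (algebraMap K (AlgebraicClosure K) W.b₈) e₁ e₂ e₃) (v : FinitePlace K)
    {w : AbsoluteValue (AlgebraicClosure K) ℝ} (hvw : Ext v.val w) (h2 : v.val 2 = 1) :
    2 * ell w ((e₃ - e₁) / (e₂ - e₁)) ≤ max (Real.log (v.val W.j)) 0 := by
  have hw := ext_na v w hvw
  have h2w : w (2 : AlgebraicClosure K) = 1 := by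
    rw [← map_ofNat (algebraMap K (AlgebraicClosure K)) 2, hvw]; exact h2
  obtain ⟨h0, h1⟩ := roots_l h
  have := (two_ell_le hw h2w h0 h1 (j_roots W h)).1
  rwa [hvw] at this

/-- potentially good reduction -/
theorem potK (h : Roots (algebraMap K (AlgebraicClosure K) W.b₂)
    (algebraMap K (AlgebraicClosure K) W.b₄) (algebraMap K (AlgebraicClosure K) W.b₆)
    (algebraMap K (AlgebraicClosure K) W.b₈) e₁ e₂ e₃) (v : FinitePlace K)
    {w : AbsoluteValue (AlgebraicClosure K) ℝ} (hvw : Ext v.val w) (h2 : v.val 2 = 1)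
    (hj : v.val W.j ≤ 1) :
    w ((e₃ - e₁) / (e₂ - e₁)) = 1 ∧ w (1 - (e₃ - e₁) / (e₂ - e₁)) = 1 := by
  have hw := ext_na v w hvw
  obtain ⟨h0, h1⟩ := roots_l h
  have h3 := j_rootsK h v hvw h2
  rw [max_eq_right (Real.log_nonpos (v.val.nonneg _) hj)] at h3
  exact ell_eq_zero hw h0 h1 (by linarith)

/-- the size at the odd places where `j` is not integral -/
theorem sizeK (h : Roots (algebraMap K (AlgebraicClosure K) W.b₂)
    (algebraMap K (AlgebraicClosure K) W.b₄) (algebraMap K (AlgebraicClosure K) W.b₆)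
    (algebraMap K (AlgebraicClosure K) W.b₈) e₁ e₂ e₃) (v : FinitePlace K)
    {w : AbsoluteValue (AlgebraicClosure K) ℝ} (hvw : Ext v.val w) (h2 : v.val 2 = 1)
    (hj : 1 < v.val W.j) :
    1 + max (msz 4 (fW W) w) 0 ≤ 16 * max (Real.log (v.val W.j)) 0 := by
  have hw := ext_na v w hvw
  have h2w : w (2 : AlgebraicClosure K) = 1 := by
    rw [← map_ofNat (algebraMap K (AlgebraicClosure K)) 2, hvw]; exact h2
  have hne : e₂ - e₁ ≠ 0 := sub_ne_zero.2 (Ne.symm h.n12)
  obtain ⟨h0, h1⟩ := roots_l h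
  have h3 := j_rootsK h v hvw h2
  have hfib := F4_fib (by norm_num : 1 ≤ 4) (fW_hom W) (fW_rs h) w
  have h4 : msz 4 (fW W) w ≤ 28 * ell w ((e₃ - e₁) / (e₂ - e₁)) :=
    mm_conj hw h2w h0 h1 hfib (roots_wd h) (by positivity) (roots_ev h)
  have h5 := ell_nonneg (w := w) (l := (e₃ - e₁) / (e₂ - e₁))
  have h6 : max (msz 4 (fW W) w) 0 ≤ 28 * ell w ((e₃ - e₁) / (e₂ - e₁)) :=
    max_le h4 (by positivity)
  have hj0 : W.j ≠ 0 := by
    intro h'
    rw [h', map_zero] at hj
    linarith
  have h7 := log_two_le_abs v hj0 hj.ne'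
  have h8 : 0 < Real.log (v.val W.j) := Real.log_pos hj
  rw [abs_of_pos h8] at h7
  rw [max_eq_left h8.le] at h3 ⊢
  have h9 : (1 : ℝ) ≤ 2 * Real.log 2 := by
    have := Real.log_two_gt_d9; linarith
  linarith

end K

/-- families of points, stable part -/
theorem family₀ (D : ℕ) : ∃ (N : ℕ) (c δ : ℝ), 0 < c ∧ 0 < δ ∧ ∀ M : ℕ, M ≠ 0 →
    ∃ A : ℝ, 0 ≤ A ∧
    ∀ (K : Type u) [Field K] [NumberField K] [DecidableEq K], finrank ℚ K ≤ D →
    ∀ (W : WeierstrassCurve K) [W.IsElliptic] (b k : ℕ), 0 < b →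
    IsIntegral ℤ ((b : K) * (M : K) ^ k * W.j) →
    Real.log b ≤ δ * (logHeight₁ W.j / finrank ℚ K) → A < logHeight₁ W.j / finrank ℚ K →
    ∀ ht : W.toAffine.Point → ℝ, (∀ Q : W.toAffine.Point,
      Tendsto (fun n : ℕ => logHeight ((2 ^ n • Q).xRep) / (4 ^ n * finrank ℚ K)) atTop
        (𝓝 (ht Q))) →
    ∀ Q : Fin N → W.toAffine.Point, (∀ i k, i ≠ k → (Q i).xRep ≠ (Q k).xRep) →
      ∃ i, c * (logHeight₁ W.j / finrank ℚ K) ≤ ht (Q i) := by
  obtain ⟨N, c, δ, hc, hδ, hcore⟩ := core_leg.{u} (27 * D)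
  refine ⟨N, c, δ, hc, hδ, ?_⟩
  intro M hM
  obtain ⟨A, hA, hcore⟩ := hcore M hM
  refine ⟨A, hA, ?_⟩
  intro K _ _ _ hKD W _ b k hb hint hbδ hAj ht hlim' Q hQ
  classical
  obtain ⟨L, _, _, _, hLK, e₁, e₂, e₃, hR⟩ := exists_roots K W
  have hne : e₂ - e₁ ≠ 0 := sub_ne_zero.2 (Ne.symm hR.n12)
  have h0 : (e₃ - e₁) / (e₂ - e₁) ≠ 0 := div_ne_zero (sub_ne_zero.2 (Ne.symm hR.n13)) hne
  have h1 : (e₃ - e₁) / (e₂ - e₁) ≠ 1 := by
    intro h'
    rw [div_eq_one_iff_eq hne] at h'
    exact hR.n23 (by linear_combination -h')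
  set l := (e₃ - e₁) / (e₂ - e₁) with hl
  have hj := j_roots W hR
  have hd : (0 : ℝ) < finrank ℚ K := by exact_mod_cast (finrank_pos : 0 < finrank ℚ K)
  have hL : (0 : ℝ) < finrank ℚ L := by exact_mod_cast (finrank_pos : 0 < finrank ℚ L)
  have hmulN : finrank ℚ L = finrank ℚ K * finrank K L := (finrank_mul_finrank ℚ K L).symm
  have hmul : (finrank ℚ L : ℝ) = finrank ℚ K * finrank K L := by exact_mod_cast hmulN
  have hLD : finrank ℚ L ≤ 27 * D := by
    rw [hmulN, mul_comm]
    exact Nat.mul_le_mul hLK hKD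
  have hjh : logHeight₁ (algebraMap K L W.j) = finrank ℚ L * (logHeight₁ W.j / finrank ℚ K) := by
    have e1 : logHeight₁ (algebraMap K L W.j) = finrank K L * logHeight₁ W.j := by
      rw [FE.logHeight₁_pair, FE.logHeight₁_pair,
        ← Pool.Agent.Helper259.HtExt.logHeight_ext (L := L)]
      congr 1
      funext i
      fin_cases i
      · rfl
      · exact (map_one _).symm
    rw [e1, hmul]
    field_simp
  set H := logHeight₁ W.j / finrank ℚ K with hH
  have hH0 : 0 < H := lt_of_le_of_lt hA hAj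
  have hint' : IsIntegral ℤ ((b : L) * (M : L) ^ k * algebraMap K L W.j) := by
    have := hint.map (algebraMap K L).toIntAlgHom
    simpa using this
  have hbδ' : finrank ℚ L * Real.log b ≤ δ * logHeight₁ (algebraMap K L W.j) := by
    rw [hjh]
    have := mul_le_mul_of_nonneg_left hbδ hL.le
    linarith
  have hAj' : A < logHeight₁ (algebraMap K L W.j) := by
    rw [hjh]
    have h2 : (1 : ℝ) ≤ finrank ℚ L := by exact_mod_cast (finrank_pos : 0 < finrank ℚ L)
    nlinarith
  have hval : ∀ Q : W.toAffine.Point, ht Q = hcan 4 (leg l) (Psi e₁ e₂ (up Q.xRep)) /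
    finrank ℚ L := fun Q => tendsto_nhds_unique (hlim' Q) (tendsto_height (L := L) W hR Q)
  let f : Fin N → (Fin 2 → L) := fun i => Psi e₁ e₂ (up (Q i).xRep)
  have hwd : ∀ i k, i ≠ k → wd (f i) (f k) ≠ 0 := by
    intro i k hik
    have e1 := wd_xRep W (hQ i k hik)
    simp only [f]
    rw [wd_Psi]
    refine div_ne_zero ?_ hne
    have e2 : wd (up (Q i).xRep : Fin 2 → L) (up (Q k).xRep) =
        algebraMap K L (wd (Q i).xRep (Q k).xRep) := by
      simp [wd, up]
    rw [e2]
    simpa using e1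
  have hinj : Function.Injective f := by
    intro i k hik
    by_contra hne'
    apply hwd i k hne'
    rw [hik]
    simp only [wd]; ring
  obtain ⟨x, hx, hxc⟩ := hcore L hLD l h0 h1 (algebraMap K L W.j) hj b k hb hint' hbδ' hAj'
    (Finset.univ.image f) (by
      rw [Finset.card_image_of_injective _ hinj, Finset.card_univ, Fintype.card_fin])
    (by
      intro x hx
      obtain ⟨i, -, rfl⟩ := Finset.mem_image.1 hx
      simp only [f]
      intro h'
      have e1 := WeierstrassCurve.Affine.Point.xRep_ne_zero (Q i)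
      apply e1
      have a1 : (Q i).xRep 1 = 0 := by
        have := congrFun h' 1
        simpa [Psi, up] using this
      have a3 := congrFun h' 0
      simp only [Psi, up, Matrix.cons_val_zero, Pi.zero_apply, a1, map_zero, mul_zero,
        sub_zero] at a3
      rw [div_eq_zero_iff] at a3
      have a4 := a3.resolve_right hne
      have a5 : (Q i).xRep 0 = 0 := by simpa using a4
      funext i
      fin_cases i
      · exact a5
      · exact a1)
    (by
      intro x hx y hy hxy
      obtain ⟨i, -, rfl⟩ := Finset.mem_image.1 hx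
      obtain ⟨k, -, rfl⟩ := Finset.mem_image.1 hy
      exact hwd i k fun h => hxy (by rw [h]))
  obtain ⟨i, -, rfl⟩ := Finset.mem_image.1 hx
  refine ⟨i, ?_⟩
  rw [hval, le_div_iff₀ hL]
  rw [hjh] at hxc
  simp only [f] at hxc
  linarith

/-- from families of points to one point -/
theorem of_family {K : Type u} [Field K] [NumberField K] [DecidableEq K]
    (W : WeierstrassCurve K) {N : ℕ} {ht : W.toAffine.Point → ℝ}
    (hlim' : ∀ Q : W.toAffine.Point,
      Tendsto (fun n : ℕ => logHeight ((2 ^ n • Q).xRep) / (4 ^ n * finrank ℚ K)) atTop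
        (𝓝 (ht Q))) {C : ℝ} (hC : 0 < C)
    (hmain : ∀ Q : Fin N → W.toAffine.Point, (∀ i k, i ≠ k → (Q i).xRep ≠ (Q k).xRep) →
      ∃ i, C ≤ ht (Q i)) (P : W.toAffine.Point) :
    (∃ n : ℕ, 0 < n ∧ n ≤ 2 * N + 1 ∧ n • P = 0) ∨ C / 4 ^ N ≤ ht P := by
  classical
  have hd : (0 : ℝ) < finrank ℚ K := by exact_mod_cast (finrank_pos : 0 < finrank ℚ K)
  -- nonnegativity
  have hnn : ∀ Q, 0 ≤ ht Q := fun Q => by
    refine ge_of_tendsto' (hlim' Q) fun n => ?_
    have : 0 ≤ logHeight ((2 ^ n • Q).xRep) := by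
      rw [logHeight_eq_log_mulHeight]
      exact Real.log_nonneg (one_le_mulHeight _)
    positivity
  -- doubling
  have hdbl : ∀ Q, ht (2 • Q) = 4 * ht Q := by
    intro Q
    have e1 := (hlim' (2 • Q))
    have e2 := ((tendsto_add_atTop_iff_nat 1).2 (hlim' Q)).const_mul 4
    refine tendsto_nhds_unique e1 (e2.congr fun n => ?_)
    rw [← mul_nsmul', ← pow_succ, pow_succ (4 : ℝ)]
    field_simp
  have hpow : ∀ (k : ℕ) (Q : W.toAffine.Point), ht (2 ^ k • Q) = 4 ^ k * ht Q := by
    intro k Q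
    induction k with
    | zero => simp
    | succ k ih => rw [pow_succ', mul_nsmul', hdbl, ih, pow_succ']; ring
  by_cases htor : ∃ n : ℕ, 0 < n ∧ n • P = 0
  · left
    by_contra hcon
    push Not at hcon
    obtain ⟨m, hm, hmP⟩ := htor
    obtain ⟨i, hi⟩ := hmain (fun i => ((i : ℕ) + 1) • P) (by
      intro i k hik h
      have h2 := WeierstrassCurve.Affine.Point.xRep_eq_xRep_iff.1 h
      have hi := i.2
      have hk := k.2
      have key : ∀ a b : ℕ, a < b → b ≤ N → (a • P = b • P ∨ a • P = -(b • P)) → False := by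
        intro a b hab hbN h3
        rcases h3 with h3 | h3
        · refine hcon (b - a) (by omega) (by omega) ?_
          have h4 : b • P = (b - a) • P + a • P := by rw [← add_nsmul]; congr 1; omega
          rw [h3] at h4
          exact (left_eq_add.1 (h4.trans (add_comm _ _)))
        · refine hcon (a + b) (by omega) (by omega) ?_
          rw [add_nsmul, h3, neg_add_cancel]
      rcases lt_trichotomy (i : ℕ) (k : ℕ) with h3 | h3 | h3
      · exact key (i + 1) (k + 1) (by omega) (by omega) h2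
      · exact hik (Fin.ext h3)
      · refine key (k + 1) (i + 1) (by omega) (by omega) ?_
        rcases h2 with h4 | h4
        · exact Or.inl h4.symm
        · right; rw [h4, neg_neg])
    have h3 := torsion_lim W hm (Q := ((i : ℕ) + 1) • P) (by
      rw [← mul_nsmul', mul_comm, mul_nsmul', hmP, nsmul_zero]) (hlim' _)
    rw [h3] at hi
    linarith
  · right
    push Not at htor
    obtain ⟨i, hi⟩ := hmain (fun i => (2 ^ (i : ℕ)) • P) (by
      intro i k hik h
      have h2 := WeierstrassCurve.Affine.Point.xRep_eq_xRep_iff.1 h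
      have key : ∀ a b : ℕ, a < b → ((2 ^ a : ℕ) • P = (2 ^ b : ℕ) • P ∨
          (2 ^ a : ℕ) • P = -((2 ^ b : ℕ) • P)) → False := by
        intro a b hab h3
        have hlt : 2 ^ a < 2 ^ b := Nat.pow_lt_pow_right (by norm_num) hab
        rcases h3 with h3 | h3
        · refine htor (2 ^ b - 2 ^ a) (by omega) ?_
          have h4 : (2 ^ b : ℕ) • P = (2 ^ b - 2 ^ a : ℕ) • P + (2 ^ a : ℕ) • P := by
            rw [← add_nsmul]; congr 1; omega
          rw [h3] at h4
          exact (left_eq_add.1 (h4.trans (add_comm _ _)))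
        · refine htor (2 ^ a + 2 ^ b) (by positivity) ?_
          rw [add_nsmul, h3, neg_add_cancel]
      rcases lt_trichotomy (i : ℕ) (k : ℕ) with h3 | h3 | h3
      · exact key i k h3 h2
      · exact hik (Fin.ext h3)
      · refine key k i h3 ?_
        rcases h2 with h4 | h4
        · exact Or.inl h4.symm
        · right; rw [h4, neg_neg])
    simp only [hpow] at hi
    have h5 : (4 : ℝ) ^ (i : ℕ) * ht P ≤ 4 ^ N * ht P := by
      refine mul_le_mul_of_nonneg_right ?_ (hnn P)
      exact pow_le_pow_right₀ (by norm_num) i.2.le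
    rw [div_le_iff₀ (by positivity)]
    linarith

end TH951.LS
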