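import Mathlib
import Pool.Agent.TH951.LS.Fam

/-! Families of points, with all places of bad reduction. -/

set_option autoImplicit false

open Height NumberField Module Finset Pool.Agent.H951R3.PB Filter Topology

namespace TH951.LS

universe u

theorem log_Nm_le_abs {L : Type u} [Field L] [NumberField L] (v : FinitePlace L) {x : L}
    (hx : x ≠ 0) (h1 : v.val x ≠ 1) : Real.log (NF.Nm v) ≤ |Real.log (v.val x)| := by
  obtain ⟨k, hk⟩ := NF.Nm_pow v hx
  have hN : (1 : ℝ) < NF.Nm v := by exact_mod_cast NF.one_lt_Nm v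
  have hk' : v.val x = (NF.Nm v : ℝ) ^ k := hk
  have hk0 : k ≠ 0 := by
    rintro rfl
    rw [zpow_zero] at hk'
    exact h1 hk'
  have hlN : 0 < Real.log (NF.Nm v) := Real.log_pos hN
  rw [hk', Real.log_zpow, abs_mul, abs_of_pos hlN]
  have h4 : (1 : ℝ) ≤ |(k : ℝ)| := by
    have := Int.one_le_abs hk0
    exact_mod_cast this
  nlinarith

/-- the places dividing an integer -/
theorem sum_Nm_le {K : Type u} [Field K] [NumberField K] {m : ℕ} (hm : m ≠ 0)
    (F : Finset (FinitePlace K)) (hF : ∀ v ∈ F, v.val (m : K) ≠ 1) :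
    ∑ v ∈ F, Real.log (NF.Nm v) ≤ finrank ℚ K * Real.log m := by
  have hm0 : (m : K) ≠ 0 := by exact_mod_cast hm
  have h1 := int_sum (L := K) (M₀ := 1) (M := 1) (b := m) (k := 0) (Nat.pos_of_ne_zero hm)
    (fun v _ => by simp) (j := (m : K)⁻¹) (by
      have : (m : K) * ((1 : ℕ) : K) ^ 0 * (m : K)⁻¹ = 1 := by field_simp
      rw [this]; exact isIntegral_one) F
  refine le_trans ?_ h1
  rw [Finset.filter_true_of_mem (fun v _ => by simp)]
  refine Finset.sum_le_sum fun v hv => ?_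
  have h2 := log_Nm_le_abs v hm0 (hF v hv)
  have h3 : v.val (m : K) ≤ 1 := NF.natCast_le_one v m
  rw [abs_of_nonpos (Real.log_nonpos (v.val.nonneg _) h3)] at h2
  rw [map_inv₀, Real.log_inv]
  exact h2.trans (le_max_left _ _)

/-- two of six points are close at a bad place outside `6` where `j` is integral -/
theorem loc_gain {K : Type u} [Field K] [NumberField K] {W : WeierstrassCurve K} [W.IsElliptic]
    {e₁ e₂ e₃ : AlgebraicClosure K} (hR : Roots (algebraMap K (AlgebraicClosure K) W.b₂)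
    (algebraMap K (AlgebraicClosure K) W.b₄) (algebraMap K (AlgebraicClosure K) W.b₆)
    (algebraMap K (AlgebraicClosure K) W.b₈) e₁ e₂ e₃) (v : FinitePlace K)
    {w : AbsoluteValue (AlgebraicClosure K) ℝ} (hvw : Ext v.val w) (h2 : v.val 2 = 1)
    (h3 : v.val 3 = 1) (hvj : v.val W.j ≤ 1) (hbad : ¬ GoodRed v.val W) {N : ℕ} (hN : 6 ≤ N)
    (Q : Fin N → W.toAffine.Point) (hQ : ∀ i k, i ≠ k → (Q i).xRep ≠ (Q k).xRep) :
    ∃ i k, i ≠ k ∧ Real.log (NF.Nm v) / 6 ≤ gg w (ev (fL K (fW W))) 4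
      (Real.log (w (rs (fL K (fW W)) 4))) (vL K (Q i).xRep) (vL K (Q k).xRep) := by
  have hne : e₂ - e₁ ≠ 0 := sub_ne_zero.2 (Ne.symm hR.n12)
  have hΔ : W.Δ ≠ 0 := by rw [← W.coe_Δ']; exact W.Δ'.ne_zero
  have hw := ext_na v w hvw
  have h2w : w (2 : AlgebraicClosure K) = 1 := by
    rw [← map_ofNat (algebraMap K (AlgebraicClosure K)) 2, hvw]; exact h2
  obtain ⟨p, q⟩ := potK hR v hvw h2 hvj
  have hadd : ∀ u : K, v.val W.Δ ≠ v.val u ^ 12 := fun u hu =>
    hbad (goodRed_of (na_val v) h2 h3 W hvj hu)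
  obtain ⟨cell, hcell⟩ := gain_add hR v hvw h2 h3 hΔ p q hadd
  obtain ⟨i, k, hik, hck⟩ := Fintype.exists_ne_map_eq_of_card_lt (fun i => cell (Q i)) (by
    rw [Fintype.card_fin, Fintype.card_fin]; omega)
  have h4 := hcell (Q i) (Q k) (hQ i k hik) hck
  have hfib := F4_fib (by norm_num : 1 ≤ 4) (fW_hom W) (fW_rs hR) w
  have h5 := gg_good hw (by norm_num : 2 ≤ 4) hfib (good_leg hw h2w p q)
    (roots_wd hR) (inv_ne_zero (pow_ne_zero 3 hne)) (roots_ev hR)
    (wd_vL_ne (wd_xRep W (hQ i k hik)))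
  rw [(coo_Psi e₁ e₂ _).resolve_right hne, (coo_Psi e₁ e₂ _).resolve_right hne] at h5
  exact ⟨i, k, hik, h4.trans h5⟩

/-- families of points, with all places of bad reduction -/
theorem family (D : ℕ) : ∃ (N : ℕ) (c δ : ℝ), 0 < c ∧ 0 < δ ∧ ∀ M : ℕ, M ≠ 0 →
    ∃ A : ℝ, 0 ≤ A ∧
    ∀ (K : Type u) [Field K] [NumberField K] [DecidableEq K], finrank ℚ K ≤ D →
    ∀ (W : WeierstrassCurve K) [W.IsElliptic] (b k : ℕ), 0 < b →
    IsIntegral ℤ ((b : K) * (M : K) ^ k * W.j) →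
    Real.log b ≤ δ * (logHeight₁ W.j / finrank ℚ K) → A < logHeight₁ W.j / finrank ℚ K →
    ∀ F : Finset (FinitePlace K), (∀ v ∈ F, ¬ GoodRed v.val W) →
    ∀ ht : W.toAffine.Point → ℝ, (∀ Q : W.toAffine.Point,
      Tendsto (fun n : ℕ => logHeight ((2 ^ n • Q).xRep) / (4 ^ n * finrank ℚ K)) atTop
        (𝓝 (ht Q))) →
    ∀ Q : Fin N → W.toAffine.Point, (∀ i k, i ≠ k → (Q i).xRep ≠ (Q k).xRep) →
      ∃ i, c * (logHeight₁ W.j / finrank ℚ K +
        (∑ v ∈ F, Real.log (NF.Nm v)) / finrank ℚ K) ≤ ht (Q i) := by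
  classical
  obtain ⟨N₁, c₁, δ, hc₁, hδ, hfam⟩ := family₀.{u} D
  obtain ⟨_, _, B, _, hB, hloc⟩ := FE.local_facts.{u} 4 (by norm_num)
  obtain ⟨N₂, η, C₂, hη, hC₂, hdyn⟩ := FE.dyn.{u} 4 (by norm_num) D
  set N := N₁ + N₂ + 6 with hN
  set C₃ := 1 / η + (C₂ + 1) * (16 * δ) / c₁ + 1 / c₁ with hC₃
  have hC₃0 : 0 < C₃ := by positivity
  set C₄ := 6 * (N : ℝ) ^ 2 * (2 + B * C₃) + (1 + δ) / c₁ with hC₄
  have hC₄0 : 0 < C₄ := by positivity
  refine ⟨N, 1 / (1 / c₁ + C₄), δ, by positivity, hδ, ?_⟩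
  intro M hM
  obtain ⟨A₁, hA₁, hfam⟩ := hfam M hM
  obtain ⟨A₂, hA₂, hdyn⟩ := hdyn (6 * M) (by positivity)
  have hlog6 : 0 ≤ Real.log ((6 * M : ℕ) : ℝ) := Real.log_natCast_nonneg _
  refine ⟨A₁ + A₂ + Real.log ((6 * M : ℕ) : ℝ), by positivity, ?_⟩
  intro K _ _ _ hKD W _ b k hb hint hbδ hAj F hF ht hlim Q hQ
  have hd : (0 : ℝ) < finrank ℚ K := by exact_mod_cast (finrank_pos : 0 < finrank ℚ K)
  have hd1 : (1 : ℝ) ≤ finrank ℚ K := by exact_mod_cast (finrank_pos : 0 < finrank ℚ K)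
  obtain ⟨d, hdd⟩ : ∃ d : ℝ, d = finrank ℚ K := ⟨_, rfl⟩
  obtain ⟨H, hH⟩ : ∃ H : ℝ, H = logHeight₁ W.j / finrank ℚ K := ⟨_, rfl⟩
  have hH0 : 0 < H := by rw [hH]; linarith
  have hHA₂ : A₂ ≤ H := by rw [hH]; linarith
  have hH6 : Real.log ((6 * M : ℕ) : ℝ) ≤ H := by rw [hH]; linarith
  haveI : Nonempty (Fin N) := ⟨⟨0, by omega⟩⟩
  obtain ⟨i₀, hi₀⟩ := Finite.exists_max (fun i => ht (Q i))
  obtain ⟨μ, hμ⟩ : ∃ μ : ℝ, μ = ht (Q i₀) := ⟨_, rfl⟩
  simp only [← hμ] at hi₀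
  have hHμ : H ≤ μ / c₁ := by
    obtain ⟨i, hi⟩ := hfam K hKD W b k hb hint hbδ (by linarith) ht hlim
      (fun i : Fin N₁ => Q (Fin.castLE (by omega) i)) (fun i k hik => hQ _ _ (fun h => hik (by
        exact Fin.castLE_injective _ h)))
    rw [← hH] at hi
    rw [le_div_iff₀ hc₁]
    linarith [hi₀ (Fin.castLE (by omega : N₁ ≤ N) i)]
  have hμ0 : 0 < μ := by
    have : 0 < μ / c₁ := lt_of_lt_of_le hH0 hHμ
    by_contra hcon
    push Not at hcon
    have : μ / c₁ ≤ 0 := div_nonpos_of_nonpos_of_nonneg hcon hc₁.le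
    linarith
  refine ⟨i₀, ?_⟩
  rw [← hH, ← hμ, ← hdd]
  rw [← hdd] at hd hd1
  -- the setting
  obtain ⟨e₁, e₂, e₃, hR⟩ := roots_closure W
  choose wi hwi using fun v : InfinitePlace K => exists_ext_inf v
  choose wf hwf using fun v : FinitePlace K => exists_ext_fin v
  have hne : e₂ - e₁ ≠ 0 := sub_ne_zero.2 (Ne.symm hR.n12)
  have hΔ : W.Δ ≠ 0 := by rw [← W.coe_Δ']; exact W.Δ'.ne_zero
  have hj0 : W.j ≠ 0 := by
    intro h
    rw [hH, h] at hH0
    simp at hH0
  have h6M : ((6 * M : ℕ) : K) ≠ 0 := by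
    have : 6 * M ≠ 0 := by positivity
    exact_mod_cast this
  have hhom := fW_hom W
  have hrs := fW_rs hR
  have hrsL : rs (fL K (fW W)) 4 ≠ 0 := F4_rs_ne hrs
  set T : Finset (FinitePlace K) := (F4_finite_ne h6M).toFinset ∪
    (F4_finite_ne hj0).toFinset.filter (fun v => 1 < v.val W.j) with hT
  have hTmem : ∀ v, v ∈ T ↔ (v.val ((6 * M : ℕ) : K) ≠ 1 ∨ 1 < v.val W.j) := by
    intro v
    rw [hT, Finset.mem_union, Finset.mem_filter, Set.Finite.mem_toFinset, Set.Finite.mem_toFinset,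
      Set.mem_ofPred_eq, Set.mem_ofPred_eq]
    constructor
    · rintro (h | h)
      · exact Or.inl h
      · exact Or.inr h.2
    · rintro (h | h)
      · exact Or.inl h
      · exact Or.inr ⟨h.ne', h⟩
  have hTn : ∀ v, v ∉ T → v.val ((6 * M : ℕ) : K) = 1 ∧ v.val W.j ≤ 1 := by
    intro v hv
    rw [hTmem] at hv
    push Not at hv
    exact hv
  have h6 : ∀ v : FinitePlace K, v.val ((6 * M : ℕ) : K) = 1 → v.val 2 = 1 ∧ v.val 3 = 1 ∧
      v.val (M : K) = 1 := by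
    intro v hv
    have a1 : v.val ((2 : ℕ) : K) ≤ 1 := NF.natCast_le_one v 2
    have a2 : v.val ((3 : ℕ) : K) ≤ 1 := NF.natCast_le_one v 3
    have a3 : v.val (M : K) ≤ 1 := NF.natCast_le_one v M
    have b1 : 0 ≤ v.val ((2 : ℕ) : K) := v.val.nonneg _
    have b2 : 0 ≤ v.val ((3 : ℕ) : K) := v.val.nonneg _
    have b3 : 0 ≤ v.val (M : K) := v.val.nonneg _
    have e1 : ((6 * M : ℕ) : K) = ((2 : ℕ) : K) * ((3 : ℕ) : K) * (M : K) := by
      push_cast; ring
    rw [e1, map_mul, map_mul] at hv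
    have c12 : v.val ((2 : ℕ) : K) * v.val ((3 : ℕ) : K) ≤ 1 := mul_le_one₀ a1 b2 a2
    have c3 : v.val (M : K) = 1 := by
      apply le_antisymm a3; nlinarith
    rw [c3, mul_one] at hv
    have c1 : v.val ((2 : ℕ) : K) = 1 := by
      apply le_antisymm a1; nlinarith
    have c2 : v.val ((3 : ℕ) : K) = 1 := by
      apply le_antisymm a2; nlinarith
    exact ⟨by simpa using c1, by simpa using c2, c3⟩
  have hpot : ∀ v, v ∉ T → PotGoodAt (wf v) 4 (fW W) := by
    intro v hv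
    obtain ⟨h2, h3, -⟩ := h6 v (hTn v hv).1
    have h2w : wf v (2 : AlgebraicClosure K) = 1 := by
      rw [← map_ofNat (algebraMap K (AlgebraicClosure K)) 2, hwf v]; exact h2
    obtain ⟨p, q⟩ := potK hR v (hwf v) h2 (hTn v hv).2
    exact roots_potGood hR (ext_na v _ (hwf v)) h2w p q
  have hcanv : ∀ P : W.toAffine.Point, hcan 4 (fW W) P.xRep = d * ht P := by
    intro P
    have := tendsto_nhds_unique (hlim P) (tendsto_K hR P)
    rw [this, ← hdd]
    field_simp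
  set sI : InfinitePlace K → ℝ := fun v => 1 + max (msz 4 (fW W) (wi v)) 0 with hsI
  set sF : FinitePlace K → ℝ := fun v => 1 + max (msz 4 (fW W) (wf v)) 0 with hsF
  set tot := ∑ v : InfinitePlace K, (v.mult : ℝ) * sI v + ∑ v ∈ T, sF v with htot
  set off := ∑ v ∈ T.filter (fun v => v.val ((6 * M : ℕ) : K) = 1), sF v with hoff
  set bg := FE.big 4 (fW W) wi wf (T.filter fun v => v.val ((6 * M : ℕ) : K) ≠ 1) with hbg
  have htot' : tot = bg + off := by
    rw [htot, hbg, hoff]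
    unfold FE.big
    rw [add_assoc]
    congr 1
    rw [add_comm, Finset.sum_filter_add_sum_filter_not]
  have hoff1 : off ≤ 16 * (d * Real.log b) := by
    have a1 := int_sum (M₀ := 6 * M) hb (fun v hv => (h6 v hv).2.2) hint T
    rw [← hdd] at a1
    refine le_trans ?_ (mul_le_mul_of_nonneg_left a1 (by norm_num))
    rw [hoff, Finset.mul_sum]
    refine Finset.sum_le_sum fun v hv => ?_
    have hv1 := Finset.mem_filter.1 hv
    exact sizeK hR v (hwf v) (h6 v hv1.2).1 (((hTmem v).1 hv1.1).resolve_left fun h => h hv1.2)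
  have hoff2 : off ≤ d * (16 * δ * H) := by
    rw [← hH] at hbδ
    refine hoff1.trans ?_
    have := mul_le_mul_of_nonneg_left hbδ hd.le
    linarith
  have hwd : ∀ i k, i ≠ k → wd (Q i).xRep (Q k).xRep ≠ 0 := fun i k hik =>
    wd_xRep W (hQ i k hik)
  have hbig : bg ≤ d * μ / η + (C₂ * off + A₂) := by
    have hoff0 : 0 ≤ off := Finset.sum_nonneg fun v _ => by
      have : 0 ≤ max (msz 4 (fW W) (wf v)) 0 := le_max_right _ _
      simp only [hsF]; linarith
    by_cases hsm : ∀ x ∈ Finset.univ.image (fun i => (Q i).xRep),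
        hcan 4 (fW W) x ≤ η * bg
    · have h := hdyn K hKD (fW W) hhom hrs wi hwi wf hwf T hpot
        (Finset.univ.image (fun i => (Q i).xRep)) (by
          rw [Finset.card_image_of_injective _ (fun i k h => by
            by_contra hik
            exact hQ i k hik h), Finset.card_univ, Fintype.card_fin]
          omega) (by
          intro x hx
          obtain ⟨i, -, rfl⟩ := Finset.mem_image.1 hx
          exact WeierstrassCurve.Affine.Point.xRep_ne_zero (Q i)) (by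
          intro x hx y hy hxy
          obtain ⟨i, -, rfl⟩ := Finset.mem_image.1 hx
          obtain ⟨k, -, rfl⟩ := Finset.mem_image.1 hy
          exact hwd i k fun h => hxy (by rw [h])) hsm
      have : 0 ≤ d * μ / η := by positivity
      exact h.trans (le_add_of_nonneg_left this)
    · push Not at hsm
      obtain ⟨x, hx, hxx⟩ := hsm
      obtain ⟨i, -, rfl⟩ := Finset.mem_image.1 hx
      rw [hcanv] at hxx
      have h1 : d * ht (Q i) ≤ d * μ := mul_le_mul_of_nonneg_left (hi₀ i) hd.le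
      have h2 : bg ≤ d * μ / η := by
        rw [le_div_iff₀ hη]
        linarith
      have : 0 ≤ C₂ * off + A₂ := by positivity
      linarith
  have htotle : tot ≤ C₃ * (d * μ) := by
    have e1 : A₂ ≤ d * H := by nlinarith
    have e2 : d * H ≤ d * (μ / c₁) := mul_le_mul_of_nonneg_left hHμ hd.le
    have e3 : (C₂ + 1) * off ≤ (C₂ + 1) * (d * (16 * δ * (μ / c₁))) := by
      refine mul_le_mul_of_nonneg_left (hoff2.trans ?_) (by positivity)
      exact mul_le_mul_of_nonneg_left (mul_le_mul_of_nonneg_left hHμ (by positivity)) hd.le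
    have e4 : C₃ * (d * μ) = d * μ / η + (C₂ + 1) * (d * (16 * δ * (μ / c₁))) +
        d * (μ / c₁) := by
      rw [hC₃]; field_simp
    rw [htot', e4]
    linarith
  -- bad places outside `T`
  set F' := F.filter (fun v => v ∉ T) with hF'
  have hdisj : Disjoint T F' := by
    rw [Finset.disjoint_left]
    intro v hv hv'
    exact (Finset.mem_filter.1 hv').2 hv
  obtain ⟨g, hg⟩ : ∃ g : FinitePlace K → Fin N → Fin N → ℝ, ∀ v i k, g v i k =
      gg (wf v) (ev (fL K (fW W))) 4 (Real.log (wf v (rs (fL K (fW W)) 4)))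
        (vL K (Q i).xRep) (vL K (Q k).xRep) := ⟨_, fun _ _ _ => rfl⟩
  obtain ⟨gi, hgi⟩ : ∃ gi : InfinitePlace K → Fin N → Fin N → ℝ, ∀ v i k, gi v i k =
      gg (wi v) (ev (fL K (fW W))) 4 (Real.log (wi v (rs (fL K (fW W)) 4)))
        (vL K (Q i).xRep) (vL K (Q k).xRep) := ⟨_, fun _ _ _ => rfl⟩
  have hgT : ∀ v, v ∉ T → ∀ i k, i ≠ k → 0 ≤ g v i k := by
    intro v hv i k hik
    rw [hg]
    exact potgood_gg (by norm_num) hhom hrsL (wf v) (ext_na v _ (hwf v)) (hpot v hv)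
      (wd_vL_ne (hwd i k hik))
  have hgB : ∀ v i k, i ≠ k → -(B * sF v) ≤ g v i k := by
    intro v i k hik
    have h1 := (hloc K (fW W) hhom hrs v.val (wf v) (hwf v)).2.2 _ _ (hwd i k hik)
    rw [FE.pot_gg 4 (fW W) (hwf v)] at h1
    rw [hg]
    exact h1
  have hgiB : ∀ v i k, i ≠ k → -(B * sI v) ≤ gi v i k := by
    intro v i k hik
    have h1 := (hloc K (fW W) hhom hrs v.val (wi v) (hwi v)).2.2 _ _ (hwd i k hik)
    rw [FE.pot_gg 4 (fW W) (hwi v)] at h1
    rw [hgi]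
    exact h1
  have hglob : ∀ i k, i ≠ k → ∑ v : InfinitePlace K, (v.mult : ℝ) * gi v i k +
      (∑ v ∈ T, g v i k + ∑ v ∈ F', g v i k) ≤ d * ht (Q i) + d * ht (Q k) := by
    intro i k hik
    have h := global_le (by norm_num : 2 ≤ 4) hhom hrs wi hwi wf hwf (hwd i k hik) (T ∪ F')
      (fun v hv => by
        have := hgT v (fun h => hv (Finset.mem_union_left _ h)) i k hik
        rwa [hg] at this)
    rw [hcanv, hcanv, Finset.sum_union hdisj] at h
    simp only [← hg, ← hgi] at h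
    exact h
  have hgainF : ∀ v ∈ F', ∃ i k, i ≠ k ∧ Real.log (NF.Nm v) / 6 ≤ g v i k := by
    intro v hv
    obtain ⟨hvF, hvT⟩ := Finset.mem_filter.1 hv
    obtain ⟨h2, h3, -⟩ := h6 v (hTn v hvT).1
    obtain ⟨i, k, hik, h4⟩ := loc_gain hR v (hwf v) h2 h3 (hTn v hvT).2 (hF v hvF)
      (by omega : 6 ≤ N) Q hQ
    exact ⟨i, k, hik, by rw [hg]; exact h4⟩
  clear hg hgi
  have hpair : ∀ i k, i ≠ k → ∑ v ∈ F', g v i k ≤ (2 + B * C₃) * (d * μ) := by
    intro i k hik
    have h := hglob i k hik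
    have hI : -(B * ∑ v : InfinitePlace K, (v.mult : ℝ) * sI v) ≤
        ∑ v : InfinitePlace K, (v.mult : ℝ) * gi v i k := by
      rw [Finset.mul_sum, ← Finset.sum_neg_distrib]
      refine Finset.sum_le_sum fun v _ => ?_
      have := mul_le_mul_of_nonneg_left (hgiB v i k hik) (Nat.cast_nonneg v.mult : (0 : ℝ) ≤ v.mult)
      linarith
    have hT' : -(B * ∑ v ∈ T, sF v) ≤ ∑ v ∈ T, g v i k := by
      rw [Finset.mul_sum, ← Finset.sum_neg_distrib]
      exact Finset.sum_le_sum fun v _ => hgB v i k hik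
    have h1 := mul_le_mul_of_nonneg_left (hi₀ i) hd.le
    have h2 := mul_le_mul_of_nonneg_left (hi₀ k) hd.le
    have h3 := mul_le_mul_of_nonneg_left htotle hB
    rw [htot] at h3
    linarith
  have hloc' : ∀ v ∈ F', Real.log (NF.Nm v) / 6 ≤
      ∑ p ∈ (univ : Finset (Fin N)).offDiag, g v p.1 p.2 := by
    intro v hv
    obtain ⟨i, k, hik, hgain⟩ := hgainF v hv
    refine hgain.trans ?_
    exact Finset.single_le_sum (f := fun p : Fin N × Fin N => g v p.1 p.2)
      (fun p hp => hgT v (Finset.mem_filter.1 hv).2 p.1 p.2 (Finset.mem_offDiag.1 hp).2.2)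
      (show (i, k) ∈ (univ : Finset (Fin N)).offDiag from
        Finset.mem_offDiag.2 ⟨Finset.mem_univ i, Finset.mem_univ k, hik⟩)
  have hF1 : ∑ v ∈ F', Real.log (NF.Nm v) ≤ 6 * (N : ℝ) ^ 2 * (2 + B * C₃) * (d * μ) := by
    have e1 : ∑ v ∈ F', Real.log (NF.Nm v) / 6 ≤ ∑ p ∈ (univ : Finset (Fin N)).offDiag,
        (2 + B * C₃) * (d * μ) := by
      refine (Finset.sum_le_sum hloc').trans ?_
      rw [Finset.sum_comm]
      exact Finset.sum_le_sum fun p hp => hpair p.1 p.2 (Finset.mem_offDiag.1 hp).2.2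
    rw [Finset.sum_const, nsmul_eq_mul, ← Finset.sum_div] at e1
    have e2 : (((univ : Finset (Fin N)).offDiag.card : ℕ) : ℝ) ≤ (N : ℝ) ^ 2 := by
      have : (univ : Finset (Fin N)).offDiag.card ≤ N ^ 2 := by
        rw [Finset.offDiag_card, Finset.card_univ, Fintype.card_fin, pow_two]
        exact Nat.sub_le _ _
      exact_mod_cast this
    have e3 : (((univ : Finset (Fin N)).offDiag.card : ℕ) : ℝ) * ((2 + B * C₃) * (d * μ)) ≤
        (N : ℝ) ^ 2 * ((2 + B * C₃) * (d * μ)) :=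
      mul_le_mul_of_nonneg_right e2 (by positivity)
    rw [div_le_iff₀ (by norm_num)] at e1
    linarith
  -- the remaining bad places
  have hF2 : ∑ v ∈ F.filter (fun v => ¬ v ∉ T), Real.log (NF.Nm v) ≤ d * H + d * (δ * H) := by
    set F2 := F.filter (fun v => ¬ v ∉ T) with hF2
    have hmem : ∀ v ∈ F2, v ∈ T := fun v hv => not_not.1 (Finset.mem_filter.1 hv).2
    rw [← Finset.sum_filter_add_sum_filter_not F2 (fun v => v.val ((6 * M : ℕ) : K) ≠ 1)]
    refine add_le_add ?_ ?_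
    · have := sum_Nm_le (K := K) (m := 6 * M) (by positivity)
        (F2.filter (fun v => v.val ((6 * M : ℕ) : K) ≠ 1)) (fun v hv => (Finset.mem_filter.1 hv).2)
      rw [← hdd] at this
      exact this.trans (mul_le_mul_of_nonneg_left hH6 hd.le)
    · have a1 := int_sum (M₀ := 6 * M) hb (fun v hv => (h6 v hv).2.2) hint F2
      rw [← hdd] at a1
      rw [← hH] at hbδ
      refine le_trans ?_ (a1.trans (mul_le_mul_of_nonneg_left hbδ hd.le))
      have e1 : F2.filter (fun v => ¬ v.val ((6 * M : ℕ) : K) ≠ 1) =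
          F2.filter (fun v => v.val ((6 * M : ℕ) : K) = 1) := by
        ext v; simp
      rw [e1]
      refine Finset.sum_le_sum fun v hv => ?_
      obtain ⟨hv1, hv2⟩ := Finset.mem_filter.1 hv
      have hj1 : 1 < v.val W.j := ((hTmem v).1 (hmem v hv1)).resolve_left fun h => h hv2
      have h2 := log_Nm_le_abs v hj0 hj1.ne'
      rw [abs_of_pos (Real.log_pos hj1)] at h2
      exact h2.trans (le_max_left _ _)
  have hFs : ∑ v ∈ F, Real.log (NF.Nm v) ≤ C₄ * (d * μ) := by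
    rw [← Finset.sum_filter_add_sum_filter_not F (fun v => v ∉ T)]
    have e2 : d * H ≤ d * (μ / c₁) := mul_le_mul_of_nonneg_left hHμ hd.le
    have e3 : d * (δ * H) ≤ d * (δ * (μ / c₁)) :=
      mul_le_mul_of_nonneg_left (mul_le_mul_of_nonneg_left hHμ hδ.le) hd.le
    have e4 : C₄ * (d * μ) = 6 * (N : ℝ) ^ 2 * (2 + B * C₃) * (d * μ) + d * (μ / c₁) +
        d * (δ * (μ / c₁)) := by
      rw [hC₄]; field_simp; ring
    rw [e4]
    linarith
  have hfin : H + (∑ v ∈ F, Real.log (NF.Nm v)) / d ≤ (1 / c₁ + C₄) * μ := by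
    have e1 : (∑ v ∈ F, Real.log (NF.Nm v)) / d ≤ C₄ * μ := by
      rw [div_le_iff₀ hd]
      linarith
    have e2 : (1 / c₁ + C₄) * μ = μ / c₁ + C₄ * μ := by ring
    rw [e2]
    linarith
  rw [one_div_mul_eq_div, div_le_iff₀ (by positivity)]
  linarith

end TH951.LS
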