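import Pool.Agent.TH951.LS.Rel
import Pool.Agent.TH910.LS.Main

/-!
# Determinants of positive semidefinite forms with a lower bound at the integral vectors
-/

set_option autoImplicit false

open MeasureTheory Filter Topology Matrix Module

namespace TH951.LS

open Pool.Agent.TH910.LS Pool.Agent.TH942

variable {ι : Type} [Fintype ι] [DecidableEq ι]

/-- Hermite's inequality (weak form) for a positive definite form. -/
lemma det_pd [Nonempty ι] {G : Matrix ι ι ℝ} (hG : G.PosDef) {μ : ℝ} (hμ : 0 < μ)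
    (h : ∀ c : ι → ℤ, c ≠ 0 → μ ≤ ∑ i, ∑ j, (c i : ℝ) * (c j : ℝ) * G i j) :
    μ ^ (Fintype.card ι) ≤ (Fintype.card ι : ℝ) ^ (Fintype.card ι) * G.det := by
  have h1 := trace_form hG.inv.posSemidef hG.posSemidef hμ h
  have hd : 0 < G.det := hG.det_pos
  have hsum : ∑ i, ∑ j, G⁻¹ i j * G i j = (Fintype.card ι : ℝ) := by
    have h2 : (G⁻¹ * G).trace = (Fintype.card ι : ℝ) := by
      rw [Matrix.nonsing_inv_mul _ (isUnit_iff_ne_zero.2 hd.ne'), Matrix.trace_one]
    rw [← h2, Matrix.trace]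
    refine Finset.sum_congr rfl fun i _ => ?_
    rw [Matrix.diag_apply, Matrix.mul_apply]
    refine Finset.sum_congr rfl fun j _ => ?_
    have := hG.isHermitian.apply i j
    rw [show G i j = G j i from by simpa using this.symm]
  rw [hsum, Matrix.det_nonsing_inv, Ring.inverse_eq_inv', ← div_eq_mul_inv, div_le_iff₀ hd] at h1
  exact h1

/-- Hermite's inequality (weak form) for a positive semidefinite form. -/
theorem det_psd [Nonempty ι] {G : Matrix ι ι ℝ} (hG : G.PosSemidef) {μ : ℝ} (hμ : 0 < μ)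
    (h : ∀ c : ι → ℤ, c ≠ 0 → μ ≤ ∑ i, ∑ j, (c i : ℝ) * (c j : ℝ) * G i j) :
    μ ^ (Fintype.card ι) ≤ (Fintype.card ι : ℝ) ^ (Fintype.card ι) * G.det := by
  have key : ∀ ε : ℝ, 0 < ε → μ ^ (Fintype.card ι) ≤
      (Fintype.card ι : ℝ) ^ (Fintype.card ι) * (G + ε • (1 : Matrix ι ι ℝ)).det := by
    intro ε hε
    have hpd : (G + ε • (1 : Matrix ι ι ℝ)).PosDef :=
      Matrix.PosDef.posSemidef_add hG (Matrix.PosDef.one.smul hε)
    refine det_pd hpd hμ (fun c hc => ?_)
    rw [form_add_one]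
    have h1 := h c hc
    have h2 : 0 ≤ ε * ∑ i, (c i : ℝ) ^ 2 := by positivity
    linarith
  have hlim : Tendsto (fun ε : ℝ => (Fintype.card ι : ℝ) ^ (Fintype.card ι) *
      (G + ε • (1 : Matrix ι ι ℝ)).det) (𝓝[>] 0)
      (𝓝 ((Fintype.card ι : ℝ) ^ (Fintype.card ι) * (G + (0 : ℝ) • (1 : Matrix ι ι ℝ)).det)) := by
    apply Tendsto.mono_left _ nhdsWithin_le_nhds
    apply Continuous.tendsto (x := (0 : ℝ))
      (f := fun ε : ℝ => (Fintype.card ι : ℝ) ^ (Fintype.card ι) *
        (G + ε • (1 : Matrix ι ι ℝ)).det)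
    refine continuous_const.mul (Continuous.matrix_det ?_)
    fun_prop
  rw [zero_smul, add_zero] at hlim
  exact ge_of_tendsto hlim (Filter.eventually_of_mem self_mem_nhdsWithin (fun ε hε => key ε hε))

/-- the Gram determinant of elements whose non-trivial combinations have `q ≥ μ` -/
theorem gram_det {A : Type} [AddCommGroup A] [Nonempty ι] (q : A → ℝ) (hq0 : ∀ P, 0 ≤ q P)
    (hq : ∀ P Q, q (P + Q) + q (P - Q) = 2 * (q P + q Q)) (P : ι → A) {μ : ℝ} (hμ : 0 < μ)
    (h : ∀ c : ι → ℤ, c ≠ 0 → μ ≤ q (∑ i, c i • P i)) :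
    μ ^ (Fintype.card ι) ≤ (Fintype.card ι : ℝ) ^ (Fintype.card ι) * (gram q P).det := by
  have hps : (gram q P).PosSemidef := by
    apply posSemidef_of_int' _ (gram_symm q P)
    intro c
    have := q_comb q hq P 0 IsOfFinAddOrder.zero c
    rw [add_zero] at this
    rw [← this]
    exact hq0 _
  exact det_psd hps hμ (fun c hc => by
    have h2 := q_comb q hq P 0 IsOfFinAddOrder.zero c
    rw [add_zero] at h2
    rw [← h2]
    exact h c hc)

end TH951.LS
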