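import Pool.Agent.TH951.LS.Rel

/-!
# The strong Lang–Silverman inequality for elliptic curves with nearly `S`-integral `j`

For every `D` there are a bound `N` and a constant `c > 0` such that for every finite set `S` of
primes, all elliptic curves `E` over number fields `K` of degree at most `D` whose `j`-invariant is
(nearly) `S`-integral and has height larger than a bound depending on `S` satisfy: each point of
`E(K)` is a torsion point of order at most `N`, or has canonical height at least `c` times the sum
of `h(j)` and the normalised logarithm of the norms of all the primes of bad reduction of `E/K`.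
The same is stated for products of any number of such curves.
-/

set_option autoImplicit false

namespace TH951.LS.RelativeVersion

open NumberField Filter Topology

/-- the absolute logarithmic Weil height -/
noncomputable def absH {K : Type} [Field K] [NumberField K] (x : K) : ℝ :=
  Height.logHeight₁ x / Module.finrank ℚ K

/-- `h` is the canonical height of the point `P`, normalised by
`h = lim 4 ^ (-n) h(x(2 ^ n P))`, with the absolute logarithmic height on the right; here
`xRep` is `(x : 1)`, and `(1 : 0)` for the point at infinity. -/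
def IsCanonicalHeight {K : Type} [Field K] [NumberField K] [DecidableEq K]
    {W : WeierstrassCurve K} (P : W.toAffine.Point) (h : ℝ) : Prop :=
  Tendsto (fun n : ℕ => Height.logHeight ((2 ^ n • P).xRep) / (4 ^ n * Module.finrank ℚ K)) atTop
    (𝓝 h)

/-- `j` is integral outside `M` up to the proportion `δ`: for some positive integer `b` with
`log b ≤ δ h(j)` and some `k`, the number `b M ^ k j` is an algebraic integer. If `b = 1` then `j`
is integral outside the primes dividing `M`. -/
def NearlyIntegral {K : Type} [Field K] [NumberField K] (δ : ℝ) (M : ℕ) (j : K) : Prop :=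
  ∃ b k : ℕ, 0 < b ∧ Real.log b ≤ δ * absH j ∧ IsIntegral ℤ ((b : K) * (M : K) ^ k * j)

/-- the curve has good reduction at the finite place `v` of `K`: a change of variables over `K`
gives an equation with `v`-integral coefficients whose discriminant is a unit at `v` -/
def GoodReduction {K : Type} [Field K] [NumberField K] (v : FinitePlace K)
    (W : WeierstrassCurve K) : Prop :=
  ∃ C : WeierstrassCurve.VariableChange K, v (C • W).a₁ ≤ 1 ∧ v (C • W).a₂ ≤ 1 ∧
    v (C • W).a₃ ≤ 1 ∧ v (C • W).a₄ ≤ 1 ∧ v (C • W).a₆ ≤ 1 ∧ v (C • W).Δ = 1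

/-- the logarithm of the norm of the product of the primes in `F`, divided by `[K : ℚ]` -/
noncomputable def logNorm {K : Type} [Field K] [NumberField K] (F : Finset (FinitePlace K)) : ℝ :=
  (∑ v ∈ F, Real.log (Ideal.absNorm v.maximalIdeal.asIdeal)) / Module.finrank ℚ K

/-- For every `D` there are `N`, `c > 0` and `δ > 0` such that for every integer `M ≠ 0` there is
`A` such that the following holds for every number field `K` of degree at most `D` and all elliptic
curves `E₁, …, E_g` over `K` (`g` arbitrary) whose `j`-invariants are integral outside `M` up to the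
proportion `δ` and have height larger than `A`. Let `F i` be any finite set of finite places of `K`
where `E_i` has bad reduction, and let `P_i ∈ E_i(K)`. Then every `P_i` has a canonical height
`h i`, and either `n P_i = 0` for some `i` and some `0 < n ≤ N`, or
`h i ≥ c (h(j(E_i)) + logNorm (F i))` for all `i`. -/
theorem result (D : ℕ) : ∃ (N : ℕ) (c δ : ℝ), 0 < c ∧ 0 < δ ∧ ∀ M : ℕ, M ≠ 0 → ∃ A : ℝ,
    ∀ (K : Type) [Field K] [NumberField K] [DecidableEq K], Module.finrank ℚ K ≤ D →
    ∀ (g : ℕ) (W : Fin g → WeierstrassCurve K) [∀ i, (W i).IsElliptic],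
    (∀ i, NearlyIntegral δ M (W i).j) → (∀ i, A < absH (W i).j) →
    ∀ F : Fin g → Finset (FinitePlace K), (∀ i, ∀ v ∈ F i, ¬ GoodReduction v (W i)) →
    ∀ P : ∀ i, (W i).toAffine.Point, ∃ h : Fin g → ℝ, (∀ i, IsCanonicalHeight (P i) (h i)) ∧
      ((∃ i, ∃ n : ℕ, 0 < n ∧ n ≤ N ∧ n • P i = 0) ∨
        ∀ i, c * (absH (W i).j + logNorm (F i)) ≤ h i) := by
  obtain ⟨N, c, δ, hc, hδ, hfam⟩ := TH951.LS.family.{0} D
  refine ⟨2 * N + 1, c / 4 ^ N, δ, by positivity, hδ, fun M hM => ?_⟩
  obtain ⟨A, hA, hfam⟩ := hfam M hM
  refine ⟨A, ?_⟩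
  intro K _ _ _ hK g W _ hj hAj F hF P
  have key : ∀ i, ∃ h : ℝ, IsCanonicalHeight (P i) h ∧
      ((∃ n : ℕ, 0 < n ∧ n ≤ 2 * N + 1 ∧ n • P i = 0) ∨
        c / 4 ^ N * (absH (W i).j + logNorm (F i)) ≤ h) := by
    intro i
    obtain ⟨e₁, e₂, e₃, hR⟩ := TH951.LS.roots_closure (W i)
    have hlim : ∀ Q : (W i).toAffine.Point, Tendsto (fun n : ℕ =>
        Height.logHeight ((2 ^ n • Q).xRep) / (4 ^ n * Module.finrank ℚ K)) atTop
        (𝓝 (Pool.Agent.H951R3.PB.hcan 4 (TH951.LS.fW (W i)) Q.xRep / Module.finrank ℚ K)) :=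
      fun Q => TH951.LS.tendsto_K hR Q
    obtain ⟨b, k, hb, hbδ, hint⟩ := hj i
    have hH : 0 < absH (W i).j := lt_of_le_of_lt hA (hAj i)
    have hd : (0 : ℝ) < Module.finrank ℚ K := by
      exact_mod_cast (Module.finrank_pos : 0 < Module.finrank ℚ K)
    have hR0 : 0 ≤ logNorm (F i) := by
      refine div_nonneg (Finset.sum_nonneg fun v _ => ?_) hd.le
      exact Real.log_natCast_nonneg _
    have hC : 0 < c * (absH (W i).j + logNorm (F i)) := by positivity
    refine ⟨_, hlim (P i), ?_⟩
    have h := TH951.LS.of_family (W i) hlim hC (fun Q hQ =>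
      hfam K hK (W i) b k hb hint hbδ (hAj i) (F i) (fun v hv => hF i v hv) _ hlim Q hQ) (P i)
    rwa [mul_div_right_comm] at h
  choose h hh using key
  refine ⟨h, fun i => (hh i).1, ?_⟩
  by_cases htor : ∃ i, ∃ n : ℕ, 0 < n ∧ n ≤ 2 * N + 1 ∧ n • P i = 0
  · exact Or.inl htor
  · exact Or.inr fun i => (hh i).2.resolve_left fun hn => htor ⟨i, hn⟩

end TH951.LS.RelativeVersion
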