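import Pool.Agent.TH951.LS.Main

/-!
# The strong Lang–Silverman inequality for elliptic curves with nearly `S`-integral `j`

For every `D` there are a bound `N` and a constant `c > 0` such that for every finite set `S` of
primes, all elliptic curves `E` over number fields `K` of degree at most `D` whose `j`-invariant is
(nearly) `S`-integral and has height larger than a bound depending on `S` satisfy: each point of
`E(K)` is a torsion point of order at most `N`, or has canonical height at least `c h(j)`.
-/

set_option autoImplicit false

namespace TH951.LS.StableVersion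

open NumberField Filter Topology

/-- the absolute logarithmic Weil height -/
noncomputable def absH {K : Type} [Field K] [NumberField K] (x : K) : ℝ :=
  Height.logHeight₁ x / Module.finrank ℚ K

/-- `h` is the canonical height of the point `P`, normalised by
`h = lim 4 ^ (-n) h(x(2 ^ n P))`, with the absolute logarithmic height on the right; here
`xRep` is `(x : 1)`, and `(1 : 0)` for the point at infinity. -/
def IsCanonicalHeight {K : Type} [Field K] [NumberField K] [DecidableEq K]
    {W : WeierstrassCurve K} (P : W.toAffine.Point) (h : ℝ) : Prop :=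
  Tendsto (fun n : ℕ => Height.logHeight ((2 ^ n • P).xRep) / (4 ^ n * Module.finrank ℚ K)) atTop
    (𝓝 h)

/-- `j` is integral outside `M` up to the proportion `δ`: for some positive integer `b` with
`log b ≤ δ h(j)` and some `k`, the number `b M ^ k j` is an algebraic integer. If `b = 1` then `j`
is integral outside the primes dividing `M`. -/
def NearlyIntegral {K : Type} [Field K] [NumberField K] (δ : ℝ) (M : ℕ) (j : K) : Prop :=
  ∃ b k : ℕ, 0 < b ∧ Real.log b ≤ δ * absH j ∧ IsIntegral ℤ ((b : K) * (M : K) ^ k * j)

/-- For every `D` there are `N`, `c > 0` and `δ > 0` such that for every integer `M ≠ 0` there is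
`A` such that: if `K` is a number field of degree at most `D`, `E` an elliptic curve over `K` whose
`j`-invariant is integral outside `M` up to the proportion `δ` and has height larger than `A`, and
`P ∈ E(K)`, then `P` has a canonical height `h`, and either `n P = 0` for some `0 < n ≤ N`, or
`h ≥ c h(j)`. -/
theorem result (D : ℕ) : ∃ (N : ℕ) (c δ : ℝ), 0 < c ∧ 0 < δ ∧ ∀ M : ℕ, M ≠ 0 → ∃ A : ℝ,
    ∀ (K : Type) [Field K] [NumberField K] [DecidableEq K], Module.finrank ℚ K ≤ D →
    ∀ (W : WeierstrassCurve K) [W.IsElliptic], NearlyIntegral δ M W.j → A < absH W.j →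
    ∀ P : W.toAffine.Point, ∃ h : ℝ, IsCanonicalHeight P h ∧
      ((∃ n : ℕ, 0 < n ∧ n ≤ N ∧ n • P = 0) ∨ c * absH W.j ≤ h) := by
  obtain ⟨N, c, δ, hc, hδ, h⟩ := TH951.LS.main.{0} D
  refine ⟨N, c, δ, hc, hδ, fun M hM => ?_⟩
  obtain ⟨A, h⟩ := h M hM
  refine ⟨A, ?_⟩
  intro K _ _ _ hK W _ hj hA P
  obtain ⟨b, k, hb, hbδ, hint⟩ := hj
  exact h K hK W b k hb hint hbδ hA P

end TH951.LS.StableVersion
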